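import Mathlib

/-!
The hierarchical parity code: sequences `y : ℕ → ZMod 2` such that in each aligned block of level
`k + 1`, which consists of `m k` blocks of level `k`, the sum of these blocks vanishes.
-/

open Finset

namespace Pool.Agent.N252.CS

/-- number of blocks of level `k` in a block of level `k + 1` -/
def m (k : ℕ) : ℕ := 2 ^ (k + 2)

def a : ℕ → ℕ
  | 0 => 0
  | k + 1 => a k + (k + 2)

/-- length of the blocks of level `k` -/
def L (k : ℕ) : ℕ := 2 ^ (a k)

lemma m_pos (k : ℕ) : 0 < m k := by unfold m; positivity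

lemma four_le_m (k : ℕ) : 4 ≤ m k := by
  unfold m
  calc 4 = 2 ^ 2 := by norm_num
    _ ≤ 2 ^ (k + 2) := Nat.pow_le_pow_right (by norm_num) (by omega)

lemma L_pos (k : ℕ) : 0 < L k := by unfold L; positivity

lemma L_zero : L 0 = 1 := by simp [L, a]

lemma L_succ (k : ℕ) : L (k + 1) = L k * m k := by
  simp [L, m, a, pow_add]

lemma L_dvd {k l : ℕ} (h : k ≤ l) : L k ∣ L l := by
  induction h with
  | refl => exact dvd_rfl
  | step _ ih => exact ih.trans (by rw [L_succ]; exact Dvd.intro _ rfl)

lemma le_a (k : ℕ) : k ≤ a k := by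
  induction k with
  | zero => simp
  | succ k ih => simp only [a]; omega

lemma lt_L (k : ℕ) : k < L k := lt_of_lt_of_le Nat.lt_two_pow_self
  (Nat.pow_le_pow_right (by norm_num) (le_a k))

def digit (k z : ℕ) : ℕ := (z / L k) % m k

/-- the sums over the blocks of each level vanish -/
def IsCode (y : ℕ → ZMod 2) : Prop :=
  ∀ k u r, r < L k → ∑ b ∈ range (m k), y (u * L (k + 1) + b * L k + r) = 0

lemma add_lt {k b r : ℕ} (hb : b < m k) (hr : r < L k) : b * L k + r < L (k + 1) := by
  rw [L_succ]
  calc b * L k + r < b * L k + L k := by omega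
    _ = (b + 1) * L k := by ring
    _ ≤ m k * L k := Nat.mul_le_mul_right _ hb
    _ = L k * m k := by ring

lemma digit_block {k1 u b r : ℕ} (hb : b < m k1) (hr : r < L k1) (k : ℕ) :
    digit k (u * L (k1 + 1) + b * L k1 + r) =
      if k = k1 then b else digit k (u * L (k1 + 1) + r) := by
  have hlt := add_lt hb hr
  have hr' : r < L (k1 + 1) := lt_of_le_of_lt (Nat.le_add_left _ _) hlt
  rcases lt_trichotomy k k1 with h | h | h
  · rw [if_neg h.ne]
    obtain ⟨c, hc⟩ := L_dvd (show k + 1 ≤ k1 from h)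
    unfold digit
    have e1 : u * L (k1 + 1) + b * L k1 + r = L k * (m k * ((u * m k1 + b) * c)) + r := by
      rw [L_succ k1, hc, L_succ k]; ring
    have e2 : u * L (k1 + 1) + r = L k * (m k * ((u * m k1) * c)) + r := by
      rw [L_succ k1, hc, L_succ k]; ring
    rw [e1, e2, Nat.mul_add_div (L_pos k), Nat.mul_add_div (L_pos k), Nat.mul_add_mod,
      Nat.mul_add_mod]
  · subst h
    rw [if_pos rfl]
    unfold digit
    have e1 : u * L (k + 1) + b * L k + r = L k * (m k * u + b) + r := by
      rw [L_succ k]; ring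
    rw [e1, Nat.mul_add_div (L_pos k), Nat.div_eq_of_lt hr, add_zero, Nat.mul_add_mod,
      Nat.mod_eq_of_lt hb]
  · rw [if_neg h.ne']
    obtain ⟨c, hc⟩ := L_dvd (show k1 + 1 ≤ k from h)
    unfold digit
    congr 1
    rw [hc, ← Nat.div_div_eq_div_mul, ← Nat.div_div_eq_div_mul]
    congr 1
    rw [show u * L (k1 + 1) + b * L k1 + r = L (k1 + 1) * u + (b * L k1 + r) by ring,
      show u * L (k1 + 1) + r = L (k1 + 1) * u + r by ring,
      Nat.mul_add_div (L_pos _), Nat.mul_add_div (L_pos _), Nat.div_eq_of_lt hlt,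
      Nat.div_eq_of_lt hr']

/-- a copy of the block number `i` of level `k` of `v` at all blocks of level `k` whose digits
are in the sets `P` -/
noncomputable def mk (k i : ℕ) (P : ℕ → Finset ℕ) (v : ℕ → ZMod 2) (z : ℕ) : ZMod 2 :=
  open Classical in if ∀ k', k ≤ k' → digit k' z ∈ P k' then v (i * L k + z % L k) else 0

lemma mk_isCode' {k i : ℕ} {P : ℕ → Finset ℕ} {v : ℕ → ZMod 2}
    (hv : ∀ k1, k1 < k → ∀ u r, r < L k1 →
      ∑ b ∈ range (m k1), v (u * L (k1 + 1) + b * L k1 + r) = 0)
    (hP : ∀ k', P k' ⊆ range (m k')) (hP2 : ∀ k', Even (P k').card) : IsCode (mk k i P v) := by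
  classical
  intro k1 u r hr
  by_cases hk : k1 < k
  · obtain ⟨c, hc⟩ := L_dvd (show k1 + 1 ≤ k from hk)
    have hc0 : 0 < c := by
      rcases Nat.eq_zero_or_pos c with h | h
      · rw [h, mul_zero] at hc; exact absurd hc (L_pos k).ne'
      · exact h
    have key : ∀ b ∈ range (m k1), mk k i P v (u * L (k1 + 1) + b * L k1 + r) =
        if ∀ k', k ≤ k' → digit k' (u * L (k1 + 1) + r) ∈ P k' then
          v ((i * c + u % c) * L (k1 + 1) + b * L k1 + r) else 0 := by
      intro b hb
      have hb := mem_range.mp hb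
      have h1 : (∀ k', k ≤ k' → digit k' (u * L (k1 + 1) + b * L k1 + r) ∈ P k') ↔
          (∀ k', k ≤ k' → digit k' (u * L (k1 + 1) + r) ∈ P k') := by
        refine forall_congr' fun k' => ?_
        refine imp_congr_right fun h => ?_
        rw [digit_block hb hr, if_neg (by omega)]
      unfold mk
      rw [if_congr h1 rfl rfl]
      congr 1
      congr 1
      have hlt := add_lt hb hr
      have : (u * L (k1 + 1) + b * L k1 + r) % L k = (u % c) * L (k1 + 1) + b * L k1 + r := by
        conv_lhs => rw [← Nat.div_add_mod u c]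
        rw [show (c * (u / c) + u % c) * L (k1 + 1) + b * L k1 + r =
          L k * (u / c) + ((u % c) * L (k1 + 1) + b * L k1 + r) by rw [hc]; ring,
          Nat.mul_add_mod, Nat.mod_eq_of_lt]
        have h3 : u % c < c := Nat.mod_lt _ hc0
        calc u % c * L (k1 + 1) + b * L k1 + r < u % c * L (k1 + 1) + L (k1 + 1) := by omega
          _ = (u % c + 1) * L (k1 + 1) := by ring
          _ ≤ c * L (k1 + 1) := Nat.mul_le_mul_right _ h3
          _ = L k := by rw [hc]; ring
      rw [this, hc]; ring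
    rw [sum_congr rfl key]
    split_ifs
    · exact hv k1 hk _ r hr
    · simp
  · push Not at hk
    obtain ⟨c, hc⟩ := L_dvd hk
    have key : ∀ b ∈ range (m k1), mk k i P v (u * L (k1 + 1) + b * L k1 + r) =
        if b ∈ P k1 then
          (if ∀ k', k ≤ k' → k' ≠ k1 → digit k' (u * L (k1 + 1) + r) ∈ P k' then
          v (i * L k + r % L k) else 0) else 0 := by
      intro b hb
      have hb := mem_range.mp hb
      have h1 : (∀ k', k ≤ k' → digit k' (u * L (k1 + 1) + b * L k1 + r) ∈ P k') ↔
          b ∈ P k1 ∧ (∀ k', k ≤ k' → k' ≠ k1 → digit k' (u * L (k1 + 1) + r) ∈ P k') := by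
        constructor
        · intro h
          refine ⟨?_, fun k' hk' hne => ?_⟩
          · have := h k1 hk
            rwa [digit_block hb hr, if_pos rfl] at this
          · have := h k' hk'
            rwa [digit_block hb hr, if_neg hne] at this
        · rintro ⟨h1, h2⟩ k' hk'
          rw [digit_block hb hr]
          split_ifs with he
          · rw [he]; exact h1
          · exact h2 k' hk' he
      have h2 : (u * L (k1 + 1) + b * L k1 + r) % L k = r % L k := by
        rw [show u * L (k1 + 1) + b * L k1 + r = L k * (c * (u * m k1 + b)) + r by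
          rw [L_succ, hc]; ring, Nat.mul_add_mod]
      unfold mk
      rw [if_congr h1 rfl rfl, ite_and, h2]
    rw [sum_congr rfl key, ← sum_filter]
    have : (range (m k1)).filter (fun b => b ∈ P k1) = P k1 := by
      ext b; simp only [mem_filter, mem_range]
      exact ⟨fun h => h.2, fun h => ⟨mem_range.mp (hP k1 h), h⟩⟩
    rw [this, sum_const]
    obtain ⟨t, ht⟩ := hP2 k1
    rw [ht, ← two_mul, mul_comm, mul_smul]
    have h2 : ∀ x : ZMod 2, 2 • x = 0 := by decide
    rw [h2, smul_zero]

lemma mk_isCode {k i : ℕ} {P : ℕ → Finset ℕ} {v : ℕ → ZMod 2} (hv : IsCode v)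
    (hP : ∀ k', P k' ⊆ range (m k')) (hP2 : ∀ k', Even (P k').card) : IsCode (mk k i P v) :=
  mk_isCode' (fun k1 _ u r hr => hv k1 u r hr) hP hP2

lemma IsCode.zero : IsCode 0 := fun k u r _ => by simp

lemma IsCode.add {y z : ℕ → ZMod 2} (hy : IsCode y) (hz : IsCode z) : IsCode (y + z) := by
  intro k u r hr
  simp only [Pi.add_apply, sum_add_distrib, hy k u r hr, hz k u r hr, add_zero]

lemma IsCode.neg {y : ℕ → ZMod 2} (hy : IsCode y) : IsCode (-y) := by
  intro k u r hr
  simp only [Pi.neg_apply, sum_neg_distrib, hy k u r hr, neg_zero]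

lemma IsCode.sum {ι : Type*} (s : Finset ι) {y : ι → ℕ → ZMod 2} (hy : ∀ i ∈ s, IsCode (y i)) :
    IsCode (∑ i ∈ s, y i) := by
  classical
  induction s using Finset.induction_on with
  | empty => simpa using IsCode.zero
  | insert i s hi ih =>
    rw [sum_insert hi]
    exact (hy i (mem_insert_self _ _)).add (ih fun j hj => hy j (mem_insert_of_mem hj))

lemma digit_block_index {k k' j r : ℕ} (hk : k ≤ k') (hr : r < L k) :
    digit k' (j * L k + r) = digit k' (j * L k) := by
  obtain ⟨c, hc⟩ := L_dvd hk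
  unfold digit
  rw [hc, ← Nat.div_div_eq_div_mul, ← Nat.div_div_eq_div_mul,
    show j * L k + r = L k * j + r by ring, show j * L k = L k * j by ring,
    Nat.mul_add_div (L_pos k), Nat.mul_div_cancel_left _ (L_pos k), Nat.div_eq_of_lt hr, add_zero]

/-- the block number `j` of level `k` -/
def blk (k j : ℕ) (y : ℕ → ZMod 2) (r : Fin (L k)) : ZMod 2 := y (j * L k + r)

lemma blk_mk {k i : ℕ} {P : ℕ → Finset ℕ} {v : ℕ → ZMod 2} (j : ℕ) [Decidable (∀ k', k ≤ k' → digit k' (j * L k) ∈ P k')] :
    blk k j (mk k i P v) = if ∀ k', k ≤ k' → digit k' (j * L k) ∈ P k' then blk k i v else 0 := by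
  classical
  funext r
  have hr := r.2
  unfold blk mk
  have h1 : (∀ k', k ≤ k' → digit k' (j * L k + r) ∈ P k') ↔
      (∀ k', k ≤ k' → digit k' (j * L k) ∈ P k') := by
    refine forall_congr' fun k' => ?_
    refine imp_congr_right fun h => ?_
    rw [digit_block_index h hr]
  rw [if_congr h1 rfl rfl, show j * L k + (r : ℕ) = L k * j + r by ring, Nat.mul_add_mod,
    Nat.mod_eq_of_lt hr]
  split_ifs <;> rfl

/-- two different block numbers have a different digit -/
lemma exists_digit_ne {k i j : ℕ} (h : i ≠ j) :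
    ∃ k', k ≤ k' ∧ digit k' (i * L k) ≠ digit k' (j * L k) := by
  by_contra hcon
  push Not at hcon
  apply h
  have key : ∀ d K, K = k + d → (i * L k) / L K = (j * L k) / L K →
      (i * L k) / L k = (j * L k) / L k := by
    intro d
    induction d with
    | zero => rintro K rfl h; simpa using h
    | succ d ih =>
      rintro K rfl h
      apply ih (k + d) rfl
      have e : ∀ z, z / L (k + d) = m (k + d) * (z / L (k + (d + 1))) + digit (k + d) z := by
        intro z
        have := Nat.div_add_mod (z / L (k + d)) (m (k + d))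
        rw [show k + (d + 1) = k + d + 1 by ring, L_succ, ← Nat.div_div_eq_div_mul]
        exact this.symm
      rw [e, e, h, hcon (k + d) (by omega)]
  have h0 := key (i * L k + j * L k) (k + (i * L k + j * L k)) rfl ?_
  · rwa [Nat.mul_div_cancel _ (L_pos k), Nat.mul_div_cancel _ (L_pos k)] at h0
  · have hlt := lt_L (k + (i * L k + j * L k))
    rw [Nat.div_eq_of_lt (by omega), Nat.div_eq_of_lt (by omega)]

/-- any two blocks of two codewords can be prescribed -/
lemma exists_pair {k i j i' j' : ℕ} (hij : i ≠ j) {v w : ℕ → ZMod 2} (hv : IsCode v)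
    (hw : IsCode w) : ∃ y, IsCode y ∧ blk k i y = blk k i' v ∧ blk k j y = blk k j' w := by
  classical
  obtain ⟨l, hl, hne⟩ := exists_digit_ne (k := k) hij
  have hdig : ∀ k' z, digit k' z < m k' := fun k' z => Nat.mod_lt _ (m_pos k')
  -- a two-element set containing `x` and not containing `y`
  have hpair : ∀ k' x y : ℕ, x < m k' → x ≠ y → ∃ P : Finset ℕ, P ⊆ range (m k') ∧
      Even P.card ∧ x ∈ P ∧ y ∉ P := by
    intro k' x y hx hxy
    have h4 := four_le_m k'
    obtain ⟨c, hc, hcx, hcy⟩ : ∃ c, c < m k' ∧ c ≠ x ∧ c ≠ y := by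
      by_cases h0 : (0 ≠ x ∧ 0 ≠ y)
      · exact ⟨0, by omega, h0.1, h0.2⟩
      · by_cases h1 : (1 ≠ x ∧ 1 ≠ y)
        · exact ⟨1, by omega, h1.1, h1.2⟩
        · exact ⟨2, by omega, by omega, by omega⟩
    refine ⟨{x, c}, ?_, ?_, by simp, ?_⟩
    · intro z hz
      simp only [mem_insert, mem_singleton] at hz
      rcases hz with rfl | rfl
      · exact mem_range.mpr hx
      · exact mem_range.mpr hc
    · rw [card_pair hcx.symm]; decide
    · simp only [mem_insert, mem_singleton, not_or]; exact ⟨hxy.symm, hcy.symm⟩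
  have hone : ∀ (i j i' : ℕ) (v : ℕ → ZMod 2), IsCode v →
      digit l (i * L k) ≠ digit l (j * L k) →
      ∃ y, IsCode y ∧ blk k i y = blk k i' v ∧ blk k j y = 0 := by
    intro i j i' v hv hne
    have hch : ∀ k', ∃ P : Finset ℕ, P ⊆ range (m k') ∧ Even P.card ∧ digit k' (i * L k) ∈ P ∧
        (k' = l → digit k' (j * L k) ∉ P) := by
      intro k'
      by_cases hk' : k' = l
      · obtain ⟨P, h1, h2, h3, h4⟩ := hpair k' (digit k' (i * L k)) (digit k' (j * L k))
          (hdig _ _) (by rw [hk']; exact hne)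
        exact ⟨P, h1, h2, h3, fun _ => h4⟩
      · obtain ⟨P, h1, h2, h3, h4⟩ := hpair k' (digit k' (i * L k)) (m k') (hdig _ _)
          (hdig _ _).ne
        exact ⟨P, h1, h2, h3, fun h => absurd h hk'⟩
    choose P hP1 hP2 hP3 hP4 using hch
    refine ⟨mk k i' P v, mk_isCode hv hP1 hP2, ?_, ?_⟩
    · rw [blk_mk, if_pos fun k' _ => hP3 k']
    · rw [blk_mk, if_neg]
      intro h
      exact hP4 l rfl (h l hl)
  obtain ⟨y1, h1, h2, h3⟩ := hone i j i' v hv hne
  obtain ⟨y2, h4, h5, h6⟩ := hone j i j' w hw hne.symm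
  refine ⟨y1 + y2, h1.add h4, ?_, ?_⟩
  · have : blk k i (y1 + y2) = blk k i y1 + blk k i y2 := rfl
    rw [this, h2, h6, add_zero]
  · have : blk k j (y1 + y2) = blk k j y1 + blk k j y2 := rfl
    rw [this, h3, h5, zero_add]

end Pool.Agent.N252.CS
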