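import Mathlib
import Pool.Agent.N252.CS.Code

/-!
The sequence `q` and the unique decodability of windows.
-/

open Finset

namespace Pool.Agent.N252.CS

/-- the marker sequence -/
def t (i : ℕ) : ℕ := padicValNat 2 (i + 1) % 2

lemma t_lt (i : ℕ) : t i < 2 := Nat.mod_lt _ (by norm_num)

/-- the basic sequence given by the codeword `y` -/
def q (y : ℕ → ZMod 2) (n : ℕ) : ℕ :=
  if n % 3 = 0 then 256 * (1 + t (n / 3))
  else if n % 3 = 1 then (if y (n / 3) = 0 then 2 else 128)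
  else (if y (n / 3) = 0 then 128 else 2)

lemma q0 (y : ℕ → ZMod 2) (i : ℕ) : q y (3 * i) = 256 * (1 + t i) := by
  unfold q
  rw [if_pos (by omega), show 3 * i / 3 = i by omega]

lemma q1 (y : ℕ → ZMod 2) (i : ℕ) : q y (3 * i + 1) = if y i = 0 then 2 else 128 := by
  unfold q
  rw [if_neg (by omega), if_pos (by omega), show (3 * i + 1) / 3 = i by omega]

lemma q2 (y : ℕ → ZMod 2) (i : ℕ) : q y (3 * i + 2) = if y i = 0 then 128 else 2 := by
  unfold q
  rw [if_neg (by omega), if_neg (by omega), show (3 * i + 2) / 3 = i by omega]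

lemma two_le_q (y : ℕ → ZMod 2) (n : ℕ) : 2 ≤ q y n := by
  unfold q; split_ifs <;> omega

lemma q_le (y : ℕ → ZMod 2) (n : ℕ) : q y n ≤ 512 := by
  have := t_lt (n / 3)
  unfold q; split_ifs <;> omega

lemma q_le_of_mod (y : ℕ → ZMod 2) {n : ℕ} (h : n % 3 ≠ 0) : q y n ≤ 128 := by
  unfold q; rw [if_neg h]; split_ifs <;> omega

lemma val_of_mod {v n : ℕ} (h : n % (2 * 2 ^ v) = 2 ^ v) : padicValNat 2 n = v := by
  have e : n = 2 ^ v * (2 * (n / (2 * 2 ^ v)) + 1) := by
    conv_lhs => rw [← Nat.div_add_mod n (2 * 2 ^ v), h]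
    ring
  rw [e, padicValNat.mul (by positivity) (by positivity), padicValNat.prime_pow,
    padicValNat.eq_zero_of_not_dvd (by omega), add_zero]

/-- the marker sequence is constant on the blocks of each level, up to the last cell -/
lemma t_block (k j : ℕ) {r : ℕ} (hr : r + 1 < L k) : t (j * L k + r) = t r := by
  unfold t
  congr 1
  obtain ⟨v, s, hs, hv⟩ := Nat.exists_eq_two_pow_mul_odd (n := r + 1) (by omega)
  obtain ⟨w, rfl⟩ := hs
  have hva : v < a k := by
    by_contra hcon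
    push Not at hcon
    have h1 : 2 ^ a k ≤ 2 ^ v := Nat.pow_le_pow_right (by norm_num) hcon
    have h2 : 2 ^ v ≤ r + 1 := by rw [hv]; exact Nat.le_mul_of_pos_right _ (by omega)
    unfold L at hr; omega
  have h1 : (r + 1) % (2 * 2 ^ v) = 2 ^ v := by
    rw [hv, show 2 ^ v * (2 * w + 1) = 2 * 2 ^ v * w + 2 ^ v by ring, Nat.mul_add_mod,
      Nat.mod_eq_of_lt]
    have : 0 < 2 ^ v := by positivity
    omega
  have h2 : (j * L k + r + 1) % (2 * 2 ^ v) = 2 ^ v := by
    obtain ⟨d, hd⟩ : 2 * 2 ^ v ∣ L k := by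
      rw [← pow_succ']; exact pow_dvd_pow 2 hva
    rw [hd, show j * (2 * 2 ^ v * d) + r + 1 = 2 * 2 ^ v * (j * d) + (r + 1) by ring,
      Nat.mul_add_mod, h1]
  rw [val_of_mod h1, val_of_mod h2]

/-- different phases modulo `L k` are distinguished by the marker sequence -/
lemma t_phase {k c c' : ℕ} (h : c % L k ≠ c' % L k) :
    ∃ κ < 2 * L k, ∀ j, j % (2 * L k) = κ → t (c + j) = 1 ∧ t (c' + j) = 0 := by
  -- the difference
  have hne : c ≠ c' := fun hh => h (by rw [hh])
  obtain ⟨D, hD⟩ : ∃ D, (c + D = c' ∨ c' + D = c) ∧ 0 < D := by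
    rcases Nat.lt_or_gt_of_ne hne with hlt | hlt
    · exact ⟨c' - c, Or.inl (by omega), by omega⟩
    · exact ⟨c - c', Or.inr (by omega), by omega⟩
  obtain ⟨hD, hD0⟩ := hD
  obtain ⟨v, s, hs, hv⟩ := Nat.exists_eq_two_pow_mul_odd (n := D) (by omega)
  obtain ⟨e, rfl⟩ := hs
  have hP : 0 < 2 ^ v := by positivity
  have hva : v < a k := by
    by_contra hcon
    push Not at hcon
    obtain ⟨d, hd⟩ : L k ∣ D := by
      rw [hv]; exact Dvd.dvd.mul_right (pow_dvd_pow 2 hcon) _
    apply h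
    rcases hD with hD | hD
    · rw [← hD, hd, Nat.add_mul_mod_self_left]
    · rw [← hD, hd, Nat.add_mul_mod_self_left]
  -- the key: if `x + j` has valuation `v + 1` then `x' + j` has valuation `v`
  have key : ∀ x x' j : ℕ, (x + D = x' ∨ x' + D = x) → (x + j) % (4 * 2 ^ v) = 2 * 2 ^ v →
      padicValNat 2 (x + j) = v + 1 ∧ padicValNat 2 (x' + j) = v := by
    intro x x' j hx hj
    constructor
    · apply val_of_mod
      rw [show 2 * 2 ^ (v + 1) = 4 * 2 ^ v by ring, hj]; ring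
    · apply val_of_mod
      have e1 : x + j = 4 * 2 ^ v * ((x + j) / (4 * 2 ^ v)) + 2 * 2 ^ v := by
        conv_lhs => rw [← Nat.div_add_mod (x + j) (4 * 2 ^ v), hj]
      set s := (x + j) / (4 * 2 ^ v)
      generalize 2 ^ v = P at *
      rcases hx with hx | hx
      · have : x' + j = 2 * P * (2 * s + 1 + e) + P := by
          have : x' + j = x + j + D := by omega
          rw [this, e1, hv]; ring
        rw [this, Nat.mul_add_mod, Nat.mod_eq_of_lt (by omega)]
      · have h3 : x' + j + P * (2 * e + 1) = 4 * P * s + 2 * P := by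
          rw [← e1, ← hv]; omega
        have h4 : e ≤ 2 * s := by
          by_contra hcon
          push Not at hcon
          have h5 : P * (4 * s + 3) ≤ P * (2 * e + 1) := Nat.mul_le_mul_left _ (by omega)
          have h6 : P * (4 * s + 3) = 4 * P * s + 2 * P + P := by ring
          omega
        obtain ⟨w, hw⟩ : ∃ w, 2 * s = e + w := ⟨2 * s - e, by omega⟩
        have : x' + j = 2 * P * w + P := by
          have h5 : 4 * P * s = 2 * P * (e + w) := by rw [← hw]; ring
          have h6 : x' + j + P * (2 * e + 1) = 2 * P * w + P + P * (2 * e + 1) := by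
            rw [h3, h5]; ring
          omega
        rw [this, Nat.mul_add_mod, Nat.mod_eq_of_lt (by omega)]
  -- solving the congruence
  have hdvd : 4 * 2 ^ v ∣ 2 * L k := by
    rw [show 4 * 2 ^ v = 2 * 2 ^ (v + 1) by ring]
    exact Nat.mul_dvd_mul_left 2 (pow_dvd_pow 2 hva)
  have solve : ∀ x : ℕ, ∃ κ < 2 * L k, ∀ j, j % (2 * L k) = κ →
      (x + j) % (4 * 2 ^ v) = 2 * 2 ^ v := by
    intro x
    refine ⟨(2 * 2 ^ v + (4 * 2 ^ v - 1) * x) % (2 * L k), Nat.mod_lt _ (by have := L_pos k; omega),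
      fun j hj => ?_⟩
    have h1 : j % (4 * 2 ^ v) = (2 * 2 ^ v + (4 * 2 ^ v - 1) * x) % (4 * 2 ^ v) := by
      rw [← Nat.mod_mod_of_dvd j hdvd, hj, Nat.mod_mod_of_dvd _ hdvd]
    have h2 : (x + j) % (4 * 2 ^ v) = (x + (2 * 2 ^ v + (4 * 2 ^ v - 1) * x)) % (4 * 2 ^ v) := by
      rw [Nat.add_mod, h1, ← Nat.add_mod]
    rw [h2]
    have h3 : x + (2 * 2 ^ v + (4 * 2 ^ v - 1) * x) = 4 * 2 ^ v * x + 2 * 2 ^ v := by
      obtain ⟨z, hz⟩ : ∃ z, 4 * 2 ^ v = z + 1 := ⟨4 * 2 ^ v - 1, by omega⟩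
      rw [hz, Nat.add_sub_cancel]; ring
    rw [h3, Nat.mul_add_mod, Nat.mod_eq_of_lt (by omega)]
  rcases Nat.even_or_odd v with hev | hod
  · obtain ⟨κ, hκ, h1⟩ := solve (c + 1)
    refine ⟨κ, hκ, fun j hj => ?_⟩
    obtain ⟨h2, h3⟩ := key (c + 1) (c' + 1) j (by omega) (h1 j hj)
    unfold t
    rw [show c + j + 1 = c + 1 + j by ring, show c' + j + 1 = c' + 1 + j by ring, h2, h3]
    obtain ⟨z, rfl⟩ := hev
    omega
  · obtain ⟨κ, hκ, h1⟩ := solve (c' + 1)
    refine ⟨κ, hκ, fun j hj => ?_⟩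
    obtain ⟨h2, h3⟩ := key (c' + 1) (c + 1) j (by omega) (h1 j hj)
    unfold t
    rw [show c + j + 1 = c + 1 + j by ring, show c' + j + 1 = c' + 1 + j by ring, h2, h3]
    obtain ⟨z, rfl⟩ := hod
    omega

/-- blocks in which the erased cells cannot be corrected -/
def Bad (e : ℕ → Prop) : ℕ → ℕ → Prop
  | 0, j => e j
  | k + 1, j => ∃ b < m k, ∃ b' < m k, b ≠ b' ∧ Bad e k (j * m k + b) ∧ Bad e k (j * m k + b')

lemma decode {e : ℕ → Prop} {y : ℕ → ZMod 2} (hy : IsCode y) : ∀ k u1 u2 : ℕ,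
    (∀ r < L k, ¬ e (u1 * L k + r) → y (u1 * L k + r) = y (u2 * L k + r)) → ¬ Bad e k u1 →
    ∀ r < L k, y (u1 * L k + r) = y (u2 * L k + r) := by
  intro k
  induction k with
  | zero =>
    intro u1 u2 h hb r hr
    refine h r hr ?_
    rw [L_zero] at hr ⊢
    have : r = 0 := by omega
    subst this
    simpa [Bad] using hb
  | succ k ih =>
    intro u1 u2 h hb r hr
    -- the blocks which are not bad
    have hsub : ∀ b < m k, ¬ Bad e k (u1 * m k + b) → ∀ r < L k,
        y (u1 * L (k + 1) + b * L k + r) = y (u2 * L (k + 1) + b * L k + r) := by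
      intro b hb hnb r hr
      have e1 : ∀ u r, (u * m k + b) * L k + r = u * L (k + 1) + b * L k + r := by
        intro u r; rw [L_succ]; ring
      have := ih (u1 * m k + b) (u2 * m k + b) (fun r hr he => ?_) hnb r hr
      · rwa [e1, e1] at this
      · rw [e1, e1]
        rw [e1] at he
        have hlt := add_lt hb hr
        rw [add_assoc] at he ⊢
        rw [add_assoc]
        exact h _ hlt he
    -- the position
    obtain ⟨b, r', hb', hr', rfl⟩ : ∃ b r', b < m k ∧ r' < L k ∧ r = b * L k + r' := by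
      refine ⟨r / L k, r % L k, ?_, Nat.mod_lt _ (L_pos k), ?_⟩
      · rw [Nat.div_lt_iff_lt_mul (L_pos k), mul_comm, ← L_succ]; exact hr
      · rw [mul_comm]; exact (Nat.div_add_mod r (L k)).symm
    rw [← add_assoc, ← add_assoc]
    by_cases hbad : Bad e k (u1 * m k + b)
    · have hother : ∀ b' ∈ (range (m k)).erase b, y (u1 * L (k + 1) + b' * L k + r') =
          y (u2 * L (k + 1) + b' * L k + r') := by
        intro b' hb''
        rw [mem_erase, mem_range] at hb''
        refine hsub b' hb''.2 (fun hbb => hb ?_) r' hr'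
        exact ⟨b, hb', b', hb''.2, hb''.1.symm, hbad, hbb⟩
      have s1 := hy k u1 r' hr'
      have s2 := hy k u2 r' hr'
      rw [← add_sum_erase _ _ (mem_range.mpr hb')] at s1 s2
      rw [sum_congr rfl hother] at s1
      have := s1.trans s2.symm
      exact add_right_cancel this
    · exact hsub b hb' hbad r' hr'

/-- the erased cells -/
def er (D : ℕ → ℕ) (i : ℕ) : Prop := D (3 * i + 1) < 2 ∧ D (3 * i + 2) < 2

/-- the digit sequence `D` allows to determine the window at `n` -/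
structure Good (k R n : ℕ) (D : ℕ → ℕ) : Prop where
  g1 : ∃ j, 1 ≤ j ∧ j ≤ 2 * L k * R ∧ 128 ≤ D (3 * (n / 3 + j))
  g2 : ∀ κ < 2 * L k, (∀ j, j % (2 * L k) = κ → t (n / 3 + j) = 1) →
    ∃ j, 1 ≤ j ∧ j ≤ 2 * L k * R ∧ j % (2 * L k) = κ ∧ 256 ≤ D (3 * (n / 3 + j))
  g3 : ¬ Bad (er D) k ((n / 3 + L k + 1) / L k)

theorem determined {y : ℕ → ZMod 2} (hy : IsCode y) {k R n n' l : ℕ} (hR : 1 ≤ R) {D : ℕ → ℕ}
    (hg : Good k R n D) (hD : ∀ i < 6 * L k * R + 3, D (n + i) < q y (n + i))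
    (hD' : ∀ i < 6 * L k * R + 3, D (n + i) < q y (n' + i))
    (hph : (n / 3 + L k + 1) % L k + l + 1 < L k) :
    ∀ i < l, q y (n' + 3 * (L k + 1) + i) = q y (n + 3 * (L k + 1) + i) := by
  have hL := L_pos k
  have hWR : 2 * L k ≤ 2 * L k * R := Nat.le_mul_of_pos_right _ hR
  set W := 2 * L k * R with hW
  have hW3 : 6 * L k * R = 3 * W := by rw [hW]; ring
  rw [hW3] at hD hD'
  obtain ⟨c, ρ, hρ, rfl⟩ : ∃ c ρ, ρ < 3 ∧ n = 3 * c + ρ := ⟨n / 3, n % 3, by omega, by omega⟩
  obtain ⟨c', ρ', hρ', rfl⟩ : ∃ c ρ, ρ < 3 ∧ n' = 3 * c + ρ := ⟨n' / 3, n' % 3, by omega, by omega⟩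
  have hc : (3 * c + ρ) / 3 = c := by omega
  obtain ⟨g1, g2, g3⟩ := hg
  rw [hc] at g1 g2 g3 hph
  -- phase modulo 3
  have hρeq : ρ' = ρ := by
    obtain ⟨j, h1, h2, h3⟩ := g1
    have h4 := hD' (3 * j - ρ) (by omega)
    rw [show 3 * c + ρ + (3 * j - ρ) = 3 * (c + j) by omega] at h4
    by_contra hne
    have h5 : q y (3 * c' + ρ' + (3 * j - ρ)) ≤ 128 := q_le_of_mod y (by omega)
    omega
  subst hρeq
  -- compatibility in terms of the cells
  have hcell : ∀ j s, 1 ≤ j → j ≤ W → s < 3 → D (3 * (c + j) + s) < q y (3 * (c' + j) + s) := by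
    intro j s h1 h2 h3
    have := hD' (3 * j + s - ρ') (by omega)
    rwa [show 3 * c + ρ' + (3 * j + s - ρ') = 3 * (c + j) + s by omega,
      show 3 * c' + ρ' + (3 * j + s - ρ') = 3 * (c' + j) + s by omega] at this
  have hcell0 : ∀ j s, 1 ≤ j → j ≤ W → s < 3 → D (3 * (c + j) + s) < q y (3 * (c + j) + s) := by
    intro j s h1 h2 h3
    have := hD (3 * j + s - ρ') (by omega)
    rwa [show 3 * c + ρ' + (3 * j + s - ρ') = 3 * (c + j) + s by omega] at this
  -- phase modulo `L k`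
  have hphase : c % L k = c' % L k := by
    by_contra hne
    obtain ⟨κ, hκ, h⟩ := t_phase hne
    obtain ⟨j, h1, h2, h3, h4⟩ := g2 κ hκ (fun j hj => (h j hj).1)
    have h5 := hcell j 0 h1 h2 (by norm_num)
    rw [add_zero, add_zero, q0, (h j h3).2] at h5
    omega
  have hmod : (c + L k + 1) % L k = (c' + L k + 1) % L k := by
    rw [show c + L k + 1 = c + (L k + 1) by ring, show c' + L k + 1 = c' + (L k + 1) by ring,
      Nat.add_mod, hphase, ← Nat.add_mod]
  have d1 := Nat.div_add_mod (c + L k + 1) (L k)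
  have d2 := Nat.div_add_mod (c' + L k + 1) (L k)
  set u1 := (c + L k + 1) / L k with hu1
  set u2 := (c' + L k + 1) / L k with hu2
  set r0 := (c + L k + 1) % L k with hr0
  have hr0' : r0 < L k := Nat.mod_lt _ hL
  rw [← hmod] at d2
  rw [mul_comm] at d1 d2
  -- decoding
  have hdec := decode (e := er D) hy k u1 u2 (fun r hr hne => ?_) g3
  · -- conclusion
    intro i hi
    have e1 : 3 * c + ρ' + 3 * (L k + 1) + i = 3 * (u1 * L k + (r0 + (ρ' + i) / 3)) + (ρ' + i) % 3 := by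
      omega
    have e2 : 3 * c' + ρ' + 3 * (L k + 1) + i = 3 * (u2 * L k + (r0 + (ρ' + i) / 3)) + (ρ' + i) % 3 := by
      omega
    have hr : r0 + (ρ' + i) / 3 + 1 < L k := by omega
    have hyy := hdec (r0 + (ρ' + i) / 3) (by omega)
    have htt : t (u1 * L k + (r0 + (ρ' + i) / 3)) = t (u2 * L k + (r0 + (ρ' + i) / 3)) := by
      rw [t_block k u1 hr, t_block k u2 hr]
    rw [e1, e2]
    have h3 : (ρ' + i) % 3 < 3 := Nat.mod_lt _ (by norm_num)
    interval_cases h : (ρ' + i) % 3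
    · rw [add_zero, add_zero, q0, q0, htt]
    · rw [q1, q1, hyy]
    · rw [q2, q2, hyy]
  · -- the cells which are not erased
    have hj1 : 1 ≤ L k + 1 + r - r0 := by omega
    have hj2 : L k + 1 + r - r0 ≤ W := by omega
    have e1 : u1 * L k + r = c + (L k + 1 + r - r0) := by omega
    have e2 : u2 * L k + r = c' + (L k + 1 + r - r0) := by omega
    rw [e1] at hne ⊢
    rw [e2]
    unfold er at hne
    rw [not_and_or, not_lt, not_lt] at hne
    have hz : ∀ x : ZMod 2, x ≠ 0 → x = 1 := by decide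
    rcases hne with hne | hne
    · have h1 := hcell _ 1 hj1 hj2 (by norm_num)
      have h2 := hcell0 _ 1 hj1 hj2 (by norm_num)
      rw [q1] at h1 h2
      have h3 : y (c' + (L k + 1 + r - r0)) ≠ 0 := by
        intro h0; rw [if_pos h0] at h1; omega
      have h4 : y (c + (L k + 1 + r - r0)) ≠ 0 := by
        intro h0; rw [if_pos h0] at h2; omega
      rw [hz _ h3, hz _ h4]
    · have h1 := hcell _ 2 hj1 hj2 (by norm_num)
      have h2 := hcell0 _ 2 hj1 hj2 (by norm_num)
      rw [q2] at h1 h2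
      have h3 : y (c' + (L k + 1 + r - r0)) = 0 := by
        by_contra h0; rw [if_neg h0] at h1; omega
      have h4 : y (c + (L k + 1 + r - r0)) = 0 := by
        by_contra h0; rw [if_neg h0] at h2; omega
      rw [h3, h4]

end Pool.Agent.N252.CS
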