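import Mathlib
import Pool.Agent.N252.CS.Seq

/-!
Random digits: the probability that the window at `n` is not determined.
-/

open Finset MeasureTheory ProbabilityTheory

namespace Pool.Agent.N252.CS

/-- the uniform distribution on `{0, ..., Q n - 1}` -/
noncomputable def unif (Q : ℕ → ℕ) (n : ℕ) : Measure ℕ :=
  ((Q n : ENNReal)⁻¹) • (Measure.count.restrict (range (Q n) : Set ℕ))

lemma unif_apply (Q : ℕ → ℕ) (n : ℕ) (A : Set ℕ) [DecidablePred (· ∈ A)] :
    unif Q n A = (Q n : ENNReal)⁻¹ * (((range (Q n)).filter (· ∈ A)).card : ENNReal) := by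
  unfold unif
  rw [Measure.smul_apply, Measure.restrict_apply (MeasurableSet.of_discrete), smul_eq_mul]
  congr 1
  have : A ∩ (range (Q n) : Set ℕ) = (((range (Q n)).filter (· ∈ A) : Finset ℕ) : Set ℕ) := by
    ext x; simp [and_comm]
  rw [this, Measure.count_apply_finset]

lemma unif_prob {Q : ℕ → ℕ} (hQ : ∀ n, 2 ≤ Q n) (n : ℕ) : IsProbabilityMeasure (unif Q n) := by
  classical
  refine ⟨?_⟩
  rw [unif_apply]
  simp only [Set.mem_univ, filter_true, card_range]
  have := hQ n
  refine ENNReal.inv_mul_cancel ?_ (ENNReal.natCast_ne_top _)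
  simp; omega

/-- independent uniform digits -/
noncomputable def PQ (Q : ℕ → ℕ) : Measure (ℕ → ℕ) := Measure.infinitePi (unif Q)

section

variable {Q : ℕ → ℕ} (hQ : ∀ n, 2 ≤ Q n)

include hQ

lemma PQ_prob : IsProbabilityMeasure (PQ Q) := by
  have := unif_prob hQ
  unfold PQ; infer_instance

lemma PQ_cyl (s : Finset ℕ) (A : ℕ → Set ℕ) :
    (PQ Q).real {D | ∀ i ∈ s, D i ∈ A i} = ∏ i ∈ s, (unif Q i).real (A i) := by
  have := unif_prob hQ
  have h : {D : ℕ → ℕ | ∀ i ∈ s, D i ∈ A i} = Set.pi (s : Set ℕ) A := by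
    ext D; simp [Set.mem_pi]
  rw [h]
  unfold PQ
  rw [measureReal_def, Measure.infinitePi_pi (unif Q) (fun i _ => MeasurableSet.of_discrete), ENNReal.toReal_prod]
  rfl

omit hQ in
lemma unif_Iio (n b : ℕ) : (unif Q n).real {d | d < b} ≤ (b : ℝ) / Q n := by
  classical
  rw [measureReal_def, unif_apply, ENNReal.toReal_mul, ENNReal.toReal_inv, ENNReal.toReal_natCast,
    ENNReal.toReal_natCast, div_eq_inv_mul]
  refine mul_le_mul_of_nonneg_left ?_ (by positivity)
  have : (range (Q n)).filter (· ∈ {d | d < b}) ⊆ range b := by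
    intro x hx; simp only [Set.mem_ofPred_eq, mem_filter, mem_range] at hx ⊢; exact hx.2
  have := card_le_card this
  rw [card_range] at this
  exact_mod_cast this

lemma PQ_lt (s : Finset ℕ) (b : ℕ) (hb : ∀ i ∈ s, 2 * b ≤ Q i) :
    (PQ Q).real {D | ∀ i ∈ s, D i < b} ≤ (1 / 2) ^ s.card := by
  have := PQ_cyl hQ s (fun _ => {d | d < b})
  simp only [Set.mem_ofPred_eq] at this
  rw [this]
  rw [← prod_const]
  refine prod_le_prod (fun i _ => by positivity) (fun i hi => ?_)
  refine (unif_Iio i b).trans ?_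
  have h1 := hb i hi
  have h2 := hQ i
  rw [div_le_div_iff₀ (by exact_mod_cast (by omega : 0 < Q i)) (by norm_num)]
  have : (2 * b : ℝ) ≤ Q i := by exact_mod_cast h1
  linarith

omit hQ in
lemma bad_congr {e e' : ℕ → Prop} : ∀ k u : ℕ, (∀ i, u * L k ≤ i → i < (u + 1) * L k →
    (e i ↔ e' i)) → (Bad e k u ↔ Bad e' k u) := by
  intro k
  induction k with
  | zero =>
    intro u h
    exact h u (by simp [L_zero]) (by simp [L_zero])
  | succ k ih =>
    intro u h
    unfold Bad
    have hsub : ∀ b < m k, (Bad e k (u * m k + b) ↔ Bad e' k (u * m k + b)) := by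
      intro b hb
      refine ih _ fun i h1 h2 => h i ?_ ?_
      · refine le_trans ?_ h1
        rw [L_succ]; nlinarith
      · refine lt_of_lt_of_le h2 ?_
        rw [L_succ]
        have : u * m k + b + 1 ≤ (u + 1) * m k := by
          rw [add_mul, one_mul]; omega
        calc (u * m k + b + 1) * L k ≤ ((u + 1) * m k) * L k := Nat.mul_le_mul_right _ this
          _ = (u + 1) * (L k * m k) := by ring
    constructor
    · rintro ⟨b, hb, b', hb', hne, h1, h2⟩
      exact ⟨b, hb, b', hb', hne, (hsub b hb).mp h1, (hsub b' hb').mp h2⟩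
    · rintro ⟨b, hb, b', hb', hne, h1, h2⟩
      exact ⟨b, hb, b', hb', hne, (hsub b hb).mpr h1, (hsub b' hb').mpr h2⟩

/-- the digits on `s`, extended by zero -/
noncomputable def ext (s : Finset ℕ) (g : s → ℕ) (i : ℕ) : ℕ :=
  open Classical in if h : i ∈ s then g ⟨i, h⟩ else 0

omit hQ in
lemma bad_ext (k u : ℕ) (D : ℕ → ℕ) : Bad (er D) k u ↔
    Bad (er (ext (Ico (3 * (u * L k)) (3 * ((u + 1) * L k))) (fun i => D i))) k u := by
  refine bad_congr k u fun i h1 h2 => ?_
  have hmem : ∀ s < 3, 3 * i + s ∈ Ico (3 * (u * L k)) (3 * ((u + 1) * L k)) := by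
    intro s hs; rw [mem_Ico]; omega
  unfold er ext
  rw [dif_pos (hmem 1 (by norm_num)), dif_pos (hmem 2 (by norm_num))]

lemma bad_indep {k u u' : ℕ} (h : u ≠ u') :
    (PQ Q).real ({D | Bad (er D) k u} ∩ {D | Bad (er D) k u'}) =
      (PQ Q).real {D | Bad (er D) k u} * (PQ Q).real {D | Bad (er D) k u'} := by
  have := unif_prob hQ
  have := PQ_prob hQ
  set S := Ico (3 * (u * L k)) (3 * ((u + 1) * L k)) with hS
  set T := Ico (3 * (u' * L k)) (3 * ((u' + 1) * L k)) with hT
  have hST : Disjoint S T := by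
    rw [Finset.disjoint_left]
    intro i hi hi'
    rw [hS, mem_Ico] at hi
    rw [hT, mem_Ico] at hi'
    have hL := L_pos k
    rcases Nat.lt_or_gt_of_ne h with hlt | hlt
    · have : (u + 1) * L k ≤ u' * L k := Nat.mul_le_mul_right _ hlt
      omega
    · have : (u' + 1) * L k ≤ u * L k := Nat.mul_le_mul_right _ hlt
      omega
  have hind : iIndepFun (fun i (D : ℕ → ℕ) => D i) (PQ Q) :=
    iIndepFun_infinitePi (X := fun _ x => x) (fun _ => measurable_id)
  have h1 := hind.indepFun_finset S T hST (fun i => measurable_pi_apply i)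
  rw [indepFun_iff_measure_inter_preimage_eq_mul] at h1
  have h2 := h1 {g | Bad (er (ext S g)) k u} {g | Bad (er (ext T g)) k u'}
    (Set.to_countable _).measurableSet (Set.to_countable _).measurableSet
  have e1 : {D | Bad (er D) k u} = (fun (D : ℕ → ℕ) (i : S) => D i) ⁻¹'
      {g | Bad (er (ext S g)) k u} := by
    ext D; exact bad_ext k u D
  have e2 : {D | Bad (er D) k u'} = (fun (D : ℕ → ℕ) (i : T) => D i) ⁻¹'
      {g | Bad (er (ext T g)) k u'} := by
    ext D; exact bad_ext k u' D
  rw [← e1, ← e2] at h2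
  rw [measureReal_def, measureReal_def, measureReal_def, h2, ENNReal.toReal_mul]

end

variable {y : ℕ → ZMod 2}

lemma prob_bad (k u : ℕ) : (PQ (q y)).real {D | Bad (er D) k u} ≤ (1 / 2) ^ (2 * k + 6) := by
  have hQ := two_le_q y
  have := PQ_prob hQ
  induction k generalizing u with
  | zero =>
    have h := PQ_cyl hQ {3 * u + 1, 3 * u + 2} (fun _ => {d | d < 2})
    have e : {D : ℕ → ℕ | ∀ i ∈ ({3 * u + 1, 3 * u + 2} : Finset ℕ), D i ∈ {d | d < 2}} =
        {D | Bad (er D) 0 u} := by
      ext D; simp [Bad, er]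
    rw [e, prod_pair (by omega)] at h
    rw [h]
    have h1 := unif_Iio (Q := q y) (3 * u + 1) 2
    have h2 := unif_Iio (Q := q y) (3 * u + 2) 2
    refine (mul_le_mul h1 h2 (by positivity) (by positivity)).trans ?_
    rw [q1, q2]
    split_ifs <;> norm_num
  | succ k ih =>
    have hsub : {D | Bad (er D) (k + 1) u} ⊆ ⋃ p ∈ ((range (m k)) ×ˢ (range (m k))).filter
        (fun p => p.1 ≠ p.2), ({D | Bad (er D) k (u * m k + p.1)} ∩
          {D | Bad (er D) k (u * m k + p.2)}) := by
      rintro D ⟨b, hb, b', hb', hne, h1, h2⟩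
      simp only [Set.mem_iUnion]
      refine ⟨(b, b'), ?_, h1, h2⟩
      simp [hb, hb', hne]
    refine (measureReal_mono hsub (measure_ne_top _ _)).trans ?_
    refine (measureReal_biUnion_finset_le _ _).trans ?_
    have hle : ∀ p ∈ ((range (m k)) ×ˢ (range (m k))).filter (fun p => p.1 ≠ p.2),
        (PQ (q y)).real ({D | Bad (er D) k (u * m k + p.1)} ∩
          {D | Bad (er D) k (u * m k + p.2)}) ≤ (1 / 2) ^ (2 * k + 6) * (1 / 2) ^ (2 * k + 6) := by
      intro p hp
      rw [mem_filter] at hp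
      rw [bad_indep hQ (fun h => hp.2 (by omega))]
      exact mul_le_mul (ih _) (ih _) (by positivity) (by positivity)
    refine (sum_le_sum hle).trans ?_
    rw [sum_const, nsmul_eq_mul]
    have hcard : (((range (m k)) ×ˢ (range (m k))).filter (fun p => p.1 ≠ p.2)).card ≤
        m k * m k := by
      refine (card_filter_le _ _).trans ?_
      rw [card_product, card_range]
    have hcard' : ((((range (m k)) ×ˢ (range (m k))).filter (fun p => p.1 ≠ p.2)).card : ℝ) ≤
        2 ^ (k + 2) * 2 ^ (k + 2) := by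
      have : ((m k * m k : ℕ) : ℝ) = 2 ^ (k + 2) * 2 ^ (k + 2) := by
        unfold m; push_cast; ring
      rw [← this]; exact_mod_cast hcard
    refine (mul_le_mul_of_nonneg_right hcard' (by positivity)).trans ?_
    rw [show 2 * (k + 1) + 6 = (2 * k + 8) by ring, ← pow_add, ← pow_add,
      show 2 * k + 6 + (2 * k + 6) = (k + 2 + (k + 2)) + (2 * k + 8) by ring, pow_add (1 / 2 : ℝ),
      ← mul_assoc, ← mul_pow]
    norm_num

lemma prob_not_good (k R n : ℕ) :
    (PQ (q y)).real {D | ¬ Good k R n D} ≤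
      (1 / 2) ^ (2 * L k * R) + 2 * L k * (1 / 2) ^ R + (1 / 2) ^ (2 * k + 6) := by
  classical
  have hQ := two_le_q y
  have := PQ_prob hQ
  set c := n / 3 with hc
  have hL := L_pos k
  -- the three events
  let E1 : Set (ℕ → ℕ) := {D | ∀ i ∈ (Icc 1 (2 * L k * R)).image (fun j => 3 * (c + j)), D i < 128}
  let F : ℕ → Set (ℕ → ℕ) := fun κ =>
    {D | ∀ i ∈ ((Icc 1 (2 * L k * R)).filter (fun j => j % (2 * L k) = κ)).image
      (fun j => 3 * (c + j)), D i < 256}
  let K : Finset ℕ := (range (2 * L k)).filter (fun κ => ∀ j, j % (2 * L k) = κ → t (c + j) = 1)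
  have hsub : {D | ¬ Good k R n D} ⊆ (E1 ∪ ⋃ κ ∈ K, F κ) ∪
      {D | Bad (er D) k ((c + L k + 1) / L k)} := by
    intro D hD
    by_contra hcon
    rw [Set.mem_union, Set.mem_union, not_or, not_or] at hcon
    obtain ⟨⟨h1, h2⟩, h3⟩ := hcon
    apply hD
    refine ⟨?_, ?_, h3⟩
    · by_contra hn
      apply h1
      intro i hi
      rw [mem_image] at hi
      obtain ⟨j, hj, rfl⟩ := hi
      rw [mem_Icc] at hj
      by_contra hlt
      exact hn ⟨j, hj.1, hj.2, not_lt.mp hlt⟩
    · intro κ hκ hall
      by_contra hn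
      apply h2
      simp only [Set.mem_iUnion]
      refine ⟨κ, ?_, ?_⟩
      · simp only [K, mem_filter, mem_range]; exact ⟨hκ, hall⟩
      · intro i hi
        rw [mem_image] at hi
        obtain ⟨j, hj, rfl⟩ := hi
        rw [mem_filter, mem_Icc] at hj
        by_contra hlt
        exact hn ⟨j, hj.1.1, hj.1.2, hj.2, not_lt.mp hlt⟩
  have hinj : Function.Injective (fun j => 3 * (c + j)) := by
    intro i j h
    simp only at h
    omega
  have b1 : (PQ (q y)).real E1 ≤ (1 / 2) ^ (2 * L k * R) := by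
    refine (PQ_lt hQ _ 128 ?_).trans ?_
    · intro i hi
      rw [mem_image] at hi
      obtain ⟨j, _, rfl⟩ := hi
      rw [q0]; omega
    · rw [card_image_of_injective _ hinj, Nat.card_Icc, Nat.add_sub_cancel]
  have b2 : ∀ κ ∈ K, (PQ (q y)).real (F κ) ≤ (1 / 2) ^ R := by
    intro κ hκ
    simp only [K, mem_filter, mem_range] at hκ
    refine (PQ_lt hQ _ 256 ?_).trans ?_
    · intro i hi
      rw [mem_image] at hi
      obtain ⟨j, hj, rfl⟩ := hi
      rw [mem_filter] at hj
      rw [q0, hκ.2 j hj.2]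
    · rw [card_image_of_injective _ hinj]
      refine pow_le_pow_of_le_one (by norm_num) (by norm_num) ?_
      -- there are `R` indices in the residue class
      have hsub : (range R).image (fun z => if κ = 0 then 2 * L k * (z + 1) else 2 * L k * z + κ) ⊆
          (Icc 1 (2 * L k * R)).filter (fun j => j % (2 * L k) = κ) := by
        intro j hj
        rw [mem_image] at hj
        obtain ⟨z, hz, rfl⟩ := hj
        rw [mem_range] at hz
        rw [mem_filter, mem_Icc]
        have h1 : 2 * L k * (z + 1) ≤ 2 * L k * R := Nat.mul_le_mul_left _ hz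
        split_ifs with h0
        · have : 2 * L k * 1 ≤ 2 * L k * (z + 1) := Nat.mul_le_mul_left _ (by omega)
          refine ⟨⟨by omega, h1⟩, ?_⟩
          rw [Nat.mul_mod_right, h0]
        · refine ⟨⟨by omega, ?_⟩, ?_⟩
          · have : 2 * L k * (z + 1) = 2 * L k * z + 2 * L k := by ring
            omega
          · rw [Nat.mul_add_mod, Nat.mod_eq_of_lt hκ.1]
      refine le_trans ?_ (card_le_card hsub)
      rw [card_image_of_injective, card_range]
      intro z z' h
      simp only at h
      split_ifs at h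
      · have := Nat.eq_of_mul_eq_mul_left (by omega) h; omega
      · exact Nat.eq_of_mul_eq_mul_left (by omega) (Nat.add_right_cancel h)
  refine (measureReal_mono hsub (measure_ne_top _ _)).trans ?_
  refine (measureReal_union_le _ _).trans ?_
  refine add_le_add ?_ (prob_bad k _)
  refine (measureReal_union_le _ _).trans ?_
  refine add_le_add b1 ?_
  refine (measureReal_biUnion_finset_le _ _).trans ?_
  refine (sum_le_sum b2).trans ?_
  rw [sum_const, nsmul_eq_mul]
  refine mul_le_mul_of_nonneg_right ?_ (by positivity)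
  have : K.card ≤ 2 * L k := by
    refine (card_filter_le _ _).trans ?_
    rw [card_range]
  exact_mod_cast this

end Pool.Agent.N252.CS
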