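import Mathlib
import Pool.Agent.N252.CS.Prob

/-!
If the digits determine the bases then normality implies uniform normality.
-/

open Finset MeasureTheory ProbabilityTheory Filter Topology

namespace Pool.Agent.N252.CS

lemma mreal_mono_ae {α : Type*} [MeasurableSpace α] {μ : Measure α} [IsFiniteMeasure μ]
    {s t : Set α} (h : ∀ᵐ x ∂μ, x ∈ s → x ∈ t) : μ.real s ≤ μ.real t :=
  ENNReal.toReal_mono (measure_ne_top _ _) (measure_mono_ae h)

/-- the window of length `l` at `n` -/
def win (l n : ℕ) (ω : ℕ → ℕ) : Fin l → ℕ := fun i => ω (n + i)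

open Classical in
/-- the probability of the block `D` at the position `n` -/
noncomputable def pr (Q : ℕ → ℕ) {l : ℕ} (D : Fin l → ℕ) (n : ℕ) : ℝ :=
  if ∀ i : Fin l, D i < Q (n + i) then (∏ i : Fin l, (Q (n + i) : ℝ))⁻¹ else 0

section

variable {Q : ℕ → ℕ} (hQ : ∀ n, 2 ≤ Q n)

include hQ

lemma PQ_win {l : ℕ} (D : Fin l → ℕ) (n : ℕ) :
    (PQ Q).real {ω | win l n ω = D} = pr Q D n := by
  classical
  have hinj : Function.Injective (fun i : Fin l => n + (i : ℕ)) := by
    intro i j h; simp only at h; exact Fin.ext (by omega)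
  have h := PQ_cyl hQ (univ.map ⟨fun i : Fin l => n + (i : ℕ), hinj⟩)
    (fun j => {x | ∀ i : Fin l, n + (i : ℕ) = j → x = D i})
  have e1 : {ω : ℕ → ℕ | ∀ i ∈ (univ.map ⟨fun i : Fin l => n + (i : ℕ), hinj⟩),
      ω i ∈ {x | ∀ i' : Fin l, n + (i' : ℕ) = i → x = D i'}} = {ω | win l n ω = D} := by
    ext ω
    simp only [Finset.mem_map, mem_univ, true_and, Function.Embedding.coeFn_mk, Set.mem_ofPred_eq,
      forall_exists_index, forall_apply_eq_imp_iff]
    constructor
    · intro h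
      funext i
      exact h i i rfl
    · intro h i i' hi
      rw [← h]; unfold win; rw [hi]
  rw [e1] at h
  rw [h, prod_map]
  simp only [Function.Embedding.coeFn_mk]
  have e2 : ∀ i : Fin l, (unif Q (n + i)).real {x | ∀ i' : Fin l, n + (i' : ℕ) = n + i → x = D i'} =
      if D i < Q (n + i) then ((Q (n + i) : ℝ))⁻¹ else 0 := by
    intro i
    have e3 : {x | ∀ i' : Fin l, n + (i' : ℕ) = n + i → x = D i'} = {D i} := by
      ext x
      simp only [Set.mem_ofPred_eq, Set.mem_singleton_iff]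
      constructor
      · intro h; exact h i rfl
      · rintro rfl i' hi'
        have : i' = i := Fin.ext (by omega)
        rw [this]
    rw [e3, measureReal_def, unif_apply, ENNReal.toReal_mul, ENNReal.toReal_inv,
      ENNReal.toReal_natCast, ENNReal.toReal_natCast]
    have e4 : ((range (Q (n + i))).filter (· ∈ ({D i} : Set ℕ))) =
        if D i < Q (n + i) then {D i} else ∅ := by
      ext x
      split_ifs with hlt
      · simp only [Set.mem_singleton_iff, mem_filter, mem_range, mem_singleton]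
        constructor
        · exact fun h => h.2
        · rintro rfl; exact ⟨hlt, rfl⟩
      · simp only [Set.mem_singleton_iff, mem_filter, mem_range, notMem_empty, iff_false]
        rintro ⟨h1, rfl⟩; exact hlt h1
    rw [e4]
    split_ifs <;> simp
  rw [prod_congr rfl (fun i _ => e2 i), prod_ite_zero]
  unfold pr
  simp only [mem_univ, forall_true_left, prod_inv_distrib]

lemma PQ_win_mem {l : ℕ} (G : Finset (Fin l → ℕ)) (n : ℕ) :
    (PQ Q).real {ω | win l n ω ∈ G} = ∑ D ∈ G, pr Q D n := by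
  have := PQ_prob hQ
  have e : {ω | win l n ω ∈ G} = ⋃ D ∈ G, {ω | win l n ω = D} := by
    ext ω; simp
  rw [e, measureReal_biUnion_finset]
  · exact sum_congr rfl fun D _ => PQ_win hQ D n
  · intro D _ D' _ hne
    refine Set.disjoint_left.mpr fun ω h1 h2 => hne ?_
    exact h1.symm.trans h2
  · intro D _
    have : Measurable (win l n) := measurable_pi_lambda _ fun i => measurable_pi_apply _
    exact this (measurableSet_singleton D)

lemma ae_lt : ∀ᵐ ω ∂(PQ Q), ∀ n, ω n < Q n := by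
  have hp := PQ_prob hQ
  rw [ae_all_iff]
  intro n
  have h := PQ_cyl hQ {n} (fun _ => {x | x < Q n})
  simp only [mem_singleton, forall_eq, prod_singleton] at h
  have h2 : (unif Q n).real {x | x < Q n} = 1 := by
    classical
    rw [measureReal_def, unif_apply, ENNReal.toReal_mul, ENNReal.toReal_inv,
      ENNReal.toReal_natCast, ENNReal.toReal_natCast]
    have e4 : ((range (Q n)).filter (· ∈ {x | x < Q n})) = range (Q n) := by
      ext x; simp
    rw [e4, card_range]
    have := hQ n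
    exact inv_mul_cancel₀ (by exact_mod_cast (by omega : Q n ≠ 0))
  rw [h2] at h
  have hm : MeasurableSet {ω : ℕ → ℕ | ω n ∈ {x | x < Q n}} :=
    measurable_pi_apply n MeasurableSet.of_discrete
  exact (prob_compl_eq_zero_iff hm).mpr (by
    rw [measureReal_def] at h
    exact (ENNReal.toReal_eq_one_iff _).mp h)

end

open Classical in
/-- normality with respect to `Q` of a sequence of digits -/
def Hyp (Q d : ℕ → ℕ) : Prop := ∀ (l : ℕ) (D : Fin l → ℕ),
  Tendsto (fun N : ℕ => (∑ n ∈ range N, ((if win l n d = D then (1 : ℝ) else 0) - pr Q D n)) / N)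
    atTop (𝓝 0)

/-- the word `w` determines the window at the position `p` of all windows of `Q` compatible
with `w` -/
def Det (Q : ℕ → ℕ) {Λ : ℕ} (p l : ℕ) (w : Fin Λ → ℕ) : Prop :=
  ∀ n' n'', (∀ i : Fin Λ, w i < Q (n' + i)) → (∀ i : Fin Λ, w i < Q (n'' + i)) →
    win l (n' + p) Q = win l (n'' + p) Q

/-- the digits determine the bases -/
def Dec (Q : ℕ → ℕ) : Prop := ∀ (l : ℕ) (ε : ℝ), 0 < ε → ∃ Λ p, p + l ≤ Λ ∧ ∃ N0 : ℕ, ∀ N ≥ N0,
  ∑ n ∈ range N, (PQ Q).real {ω | ¬ Det Q p l (win Λ n ω)} ≤ ε * N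

open Classical in
lemma sum_mem {l : ℕ} (G : Finset (Fin l → ℕ)) (n : ℕ) (d : ℕ → ℕ) :
    (if win l n d ∈ G then (1 : ℝ) else 0) = ∑ D ∈ G, if win l n d = D then (1 : ℝ) else 0 := by
  rw [sum_ite_eq]

open Classical in
lemma hyp_mem {Q d : ℕ → ℕ} (hQ : ∀ n, 2 ≤ Q n) (H : Hyp Q d) {l : ℕ} (G : Finset (Fin l → ℕ)) :
    Tendsto (fun N : ℕ => (∑ n ∈ range N, ((if win l n d ∈ G then (1 : ℝ) else 0) -
      (PQ Q).real {ω | win l n ω ∈ G})) / N) atTop (𝓝 0) := by
  have h : (fun N : ℕ => (∑ n ∈ range N, ((if win l n d ∈ G then (1 : ℝ) else 0) -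
      (PQ Q).real {ω | win l n ω ∈ G})) / N) = fun N : ℕ => ∑ D ∈ G,
      (∑ n ∈ range N, ((if win l n d = D then (1 : ℝ) else 0) - pr Q D n)) / N := by
    funext N
    rw [← sum_div, sum_comm]
    congr 1
    refine sum_congr rfl fun n _ => ?_
    rw [sum_sub_distrib, sum_mem, PQ_win_mem hQ]
  rw [h]
  have := tendsto_finsetSum G (fun D _ => H l D)
  simpa using this

lemma shift_le {f : ℕ → ℝ} (hf : ∀ n, |f n| ≤ 1) (p N : ℕ) :
    |∑ n ∈ range N, f n - ∑ n ∈ range N, f (n + p)| ≤ 2 * p := by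
  have h1 : ∑ n ∈ range N, f (n + p) = ∑ n ∈ range (p + N), f n - ∑ n ∈ range p, f n := by
    rw [sum_range_add, add_sub_cancel_left]
    exact sum_congr rfl fun n _ => by rw [add_comm]
  have h2 : ∑ n ∈ range (p + N), f n = ∑ n ∈ range N, f n + ∑ n ∈ range p, f (N + n) := by
    rw [add_comm, sum_range_add]
  rw [h1, h2]
  have b1 : |∑ n ∈ range p, f (N + n)| ≤ p := by
    refine (abs_sum_le_sum_abs _ _).trans ?_
    refine (sum_le_sum fun n _ => hf _).trans ?_
    simp
  have b2 : |∑ n ∈ range p, f n| ≤ p := by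
    refine (abs_sum_le_sum_abs _ _).trans ?_
    refine (sum_le_sum fun n _ => hf _).trans ?_
    simp
  rw [abs_le] at b1 b2 ⊢
  constructor <;> linarith [b1.1, b1.2, b2.1, b2.2]

lemma pr_nonneg (Q : ℕ → ℕ) {l : ℕ} (D : Fin l → ℕ) (n : ℕ) : 0 ≤ pr Q D n := by
  unfold pr; split_ifs <;> positivity

lemma pr_le_one {Q : ℕ → ℕ} (hQ : ∀ n, 2 ≤ Q n) {l : ℕ} (D : Fin l → ℕ) (n : ℕ) :
    pr Q D n ≤ 1 := by
  have := PQ_prob hQ
  rw [← PQ_win hQ]
  exact measureReal_le_one

open Classical in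
/-- normality implies uniform normality if the digits determine the bases -/
theorem uniform_of_normal {Q d : ℕ → ℕ} (hQ : ∀ n, 2 ≤ Q n) {M : ℕ} (hM : ∀ n, Q n ≤ M)
    (hd : ∀ n, d n < Q n) (H : Hyp Q d) (hdec : Dec Q) {l : ℕ} (B D : Fin l → ℕ) :
    Tendsto (fun N : ℕ => (∑ n ∈ range N, (if win l n Q = B then
      ((if win l n d = D then (1 : ℝ) else 0) - pr Q D n) else 0)) / N) atTop (𝓝 0) := by
  have hprob := PQ_prob hQ
  rw [Metric.tendsto_atTop]
  intro ε hε
  obtain ⟨Λ, p, hpl, N0, hN0⟩ := hdec l (ε / 8) (by linarith)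
  set f : ℕ → ℝ := fun n => if win l n Q = B then
      ((if win l n d = D then (1 : ℝ) else 0) - pr Q D n) else 0 with hf
  have hf1 : ∀ n, |f n| ≤ 1 := by
    intro n
    have h1 := pr_nonneg Q D n
    have h2 := pr_le_one hQ D n
    simp only [hf]
    split_ifs
    · rw [abs_le]; constructor <;> linarith
    · rw [abs_le]; constructor <;> linarith
    · simp
  -- the finite sets of words
  let Ω : Finset (Fin Λ → ℕ) := Fintype.piFinset fun _ => range M
  let U : Finset (Fin Λ → ℕ) := Ω.filter fun w => ¬ Det Q p l w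
  let G : Finset (Fin Λ → ℕ) := Ω.filter fun w => (∀ i : Fin l, w ⟨p + i, by omega⟩ = D i) ∧
    ∀ n', (∀ i : Fin Λ, w i < Q (n' + i)) → win l (n' + p) Q = B
  have hΩ : ∀ n ω, (∀ i, ω i < Q i) → win Λ n ω ∈ Ω := by
    intro n ω hω
    simp only [Ω, Fintype.mem_piFinset, mem_range]
    intro i
    exact lt_of_lt_of_le (hω _) (hM _)
  have c1 : ∀ n ω, (∀ i, ω i < Q i) → win Λ n ω ∈ G →
      win l (n + p) Q = B ∧ win l (n + p) ω = D := by
    intro n ω hω h
    simp only [G, mem_filter] at h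
    obtain ⟨_, h1, h2⟩ := h
    refine ⟨h2 n fun i => hω _, ?_⟩
    funext i
    have := h1 i
    unfold win at this ⊢
    rw [← this]; congr 1; simp only; ring
  have c2 : ∀ n ω, (∀ i, ω i < Q i) → win l (n + p) Q = B → win l (n + p) ω = D →
      win Λ n ω ∉ U → win Λ n ω ∈ G := by
    intro n ω hω h1 h2 h3
    simp only [U, mem_filter, not_and, not_not] at h3
    have h3 := h3 (hΩ n ω hω)
    simp only [G, mem_filter]
    refine ⟨hΩ n ω hω, ?_, fun n' hn' => ?_⟩
    · intro i
      rw [← h2]; unfold win; congr 1; simp only; ring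
    · rw [← h1]
      exact h3 n' n hn' (fun i => hω _)
  -- the deterministic inequalities
  have ineq : ∀ n, (if win Λ n d ∈ G then (1 : ℝ) else 0) -
        (PQ Q).real {ω | win Λ n ω ∈ G} - (PQ Q).real {ω | win Λ n ω ∈ U} ≤ f (n + p) ∧
      f (n + p) ≤ ((if win Λ n d ∈ G then (1 : ℝ) else 0) -
        (PQ Q).real {ω | win Λ n ω ∈ G}) + ((if win Λ n d ∈ U then (1 : ℝ) else 0) -
        (PQ Q).real {ω | win Λ n ω ∈ U}) + (PQ Q).real {ω | win Λ n ω ∈ U} := by
    intro n
    have hb1 : (PQ Q).real {ω | win Λ n ω ∈ G} ≤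
        if win l (n + p) Q = B then pr Q D (n + p) else 0 := by
      split_ifs with hB
      · rw [← PQ_win hQ]
        refine mreal_mono_ae ?_
        filter_upwards [ae_lt hQ] with ω hω h
        exact (c1 n ω hω h).2
      · have : (PQ Q) {ω | win Λ n ω ∈ G} = 0 := by
          rw [← nonpos_iff_eq_zero]
          have h0 : (PQ Q) {ω | ¬ ∀ i, ω i < Q i} = 0 := ae_lt hQ
          rw [← h0]
          refine measure_mono fun ω h hω => hB (c1 n ω hω h).1
        rw [measureReal_def, this]; simp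
    have hb2 : (if win l (n + p) Q = B then pr Q D (n + p) else 0) ≤
        (PQ Q).real {ω | win Λ n ω ∈ G} + (PQ Q).real {ω | win Λ n ω ∈ U} := by
      split_ifs with hB
      · rw [← PQ_win hQ]
        refine le_trans ?_ (measureReal_union_le _ _)
        refine mreal_mono_ae ?_
        filter_upwards [ae_lt hQ] with ω hω h
        by_cases hU : win Λ n ω ∈ U
        · exact Or.inr hU
        · exact Or.inl (c2 n ω hω hB h hU)
      · positivity
    have ha1 : (if win Λ n d ∈ G then (1 : ℝ) else 0) ≤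
        if win l (n + p) Q = B then (if win l (n + p) d = D then (1 : ℝ) else 0) else 0 := by
      by_cases hG : win Λ n d ∈ G
      · obtain ⟨h1, h2⟩ := c1 n d hd hG
        rw [if_pos hG, if_pos h1, if_pos h2]
      · rw [if_neg hG]; split_ifs <;> norm_num
    have ha2 : (if win l (n + p) Q = B then (if win l (n + p) d = D then (1 : ℝ) else 0) else 0) ≤
        (if win Λ n d ∈ G then (1 : ℝ) else 0) + (if win Λ n d ∈ U then (1 : ℝ) else 0) := by
      by_cases hU : win Λ n d ∈ U
      · rw [if_pos hU]; split_ifs <;> norm_num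
      · by_cases h1 : win l (n + p) Q = B
        · by_cases h2 : win l (n + p) d = D
          · rw [if_pos h1, if_pos h2, if_pos (c2 n d hd h1 h2 hU), if_neg hU]; norm_num
          · rw [if_pos h1, if_neg h2]; split_ifs <;> norm_num
        · rw [if_neg h1]; split_ifs <;> norm_num
    have hff : f (n + p) = (if win l (n + p) Q = B then
        (if win l (n + p) d = D then (1 : ℝ) else 0) else 0) -
        (if win l (n + p) Q = B then pr Q D (n + p) else 0) := by
      simp only [hf]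
      by_cases h1 : win l (n + p) Q = B
      · simp only [if_pos h1]
      · simp only [if_neg h1, sub_zero]
    rw [hff]
    constructor <;> linarith
  have hG := Metric.tendsto_atTop.mp (hyp_mem hQ H G) (ε / 8) (by linarith)
  have hU := Metric.tendsto_atTop.mp (hyp_mem hQ H U) (ε / 8) (by linarith)
  obtain ⟨N1, hN1⟩ := hG
  obtain ⟨N2, hN2⟩ := hU
  obtain ⟨N3, hN3⟩ := exists_nat_gt (16 * (p : ℝ) / ε)
  refine ⟨max (max N0 N1) (max N2 (N3 + 1)), fun N hN => ?_⟩
  have hN' : N0 ≤ N ∧ N1 ≤ N ∧ N2 ≤ N ∧ N3 + 1 ≤ N := by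
    simp only [ge_iff_le, max_le_iff] at hN
    exact ⟨hN.1.1, hN.1.2, hN.2.1, hN.2.2⟩
  have hNpos : (0 : ℝ) < N := by exact_mod_cast (by omega : 0 < N)
  have g1 := hN1 N hN'.2.1
  have g2 := hN2 N hN'.2.2.1
  have g3 := hN0 N hN'.1
  have g4 : 2 * (p : ℝ) ≤ ε / 8 * N := by
    have : (N3 : ℝ) < N := by exact_mod_cast (by omega : N3 < N)
    have h3 : 16 * (p : ℝ) / ε < N := lt_trans hN3 this
    rw [div_lt_iff₀ hε] at h3
    linarith
  rw [Real.dist_eq, sub_zero, abs_div, abs_of_pos hNpos, div_lt_iff₀ hNpos] at g1 g2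
  have g5 : ∑ n ∈ range N, (PQ Q).real {ω | win Λ n ω ∈ U} ≤ ε / 8 * N := by
    refine le_trans (sum_le_sum fun n _ => ?_) g3
    refine measureReal_mono ?_ (measure_ne_top _ _)
    intro ω h
    simp only [U, Set.mem_ofPred_eq, mem_filter] at h
    exact h.2
  have g6 := shift_le hf1 p N
  have g7 : ∑ n ∈ range N, f (n + p) ≤
      ∑ n ∈ range N, ((if win Λ n d ∈ G then (1 : ℝ) else 0) - (PQ Q).real {ω | win Λ n ω ∈ G}) +
      ∑ n ∈ range N, ((if win Λ n d ∈ U then (1 : ℝ) else 0) - (PQ Q).real {ω | win Λ n ω ∈ U}) +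
      ∑ n ∈ range N, (PQ Q).real {ω | win Λ n ω ∈ U} := by
    rw [← sum_add_distrib, ← sum_add_distrib]
    exact sum_le_sum fun n _ => (ineq n).2
  have g8 : ∑ n ∈ range N, ((if win Λ n d ∈ G then (1 : ℝ) else 0) -
      (PQ Q).real {ω | win Λ n ω ∈ G}) - ∑ n ∈ range N, (PQ Q).real {ω | win Λ n ω ∈ U} ≤
      ∑ n ∈ range N, f (n + p) := by
    rw [← sum_sub_distrib]
    exact sum_le_sum fun n _ => (ineq n).1
  rw [Real.dist_eq, sub_zero, abs_div, abs_of_pos hNpos, div_lt_iff₀ hNpos]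
  rw [abs_lt] at g1 g2
  rw [abs_le] at g6
  rw [abs_lt]
  constructor <;> nlinarith [g1.1, g1.2, g2.1, g2.2, g6.1, g6.2]

end Pool.Agent.N252.CS
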