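import Mathlib
import Pool.Agent.N252.CS.Code

/-!
Existence of a codeword all of whose blocks of each level are equidistributed.
-/

open Finset MeasureTheory ProbabilityTheory Filter Topology

namespace Pool.Agent.N252.CS

/-- the group of the codewords -/
def V : AddSubgroup (ℕ → ZMod 2) where
  carrier := {y | IsCode y}
  zero_mem' := IsCode.zero
  add_mem' := fun h1 h2 => h1.add h2
  neg_mem' := fun h => h.neg

lemma isClosed_V : IsClosed (V : Set (ℕ → ZMod 2)) := by
  have : (V : Set (ℕ → ZMod 2)) = ⋂ k, ⋂ u, ⋂ r, ⋂ (_ : r < L k),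
      {y : ℕ → ZMod 2 | ∑ b ∈ range (m k), y (u * L (k + 1) + b * L k + r) = 0} := by
    ext y
    simp only [Set.mem_iInter]
    rfl
  rw [this]
  refine isClosed_iInter fun k => isClosed_iInter fun u => isClosed_iInter fun r =>
    isClosed_iInter fun _ => isClosed_eq ?_ continuous_const
  exact continuous_finsetSum _ fun b _ => continuous_apply _

instance : CompactSpace V := isCompact_iff_compactSpace.mp isClosed_V.isCompact

noncomputable def κ : Measure V := Measure.addHaarMeasure (⊤ : TopologicalSpace.PositiveCompacts V)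

instance : IsProbabilityMeasure κ := ⟨by
  have := Measure.addHaarMeasure_self (K₀ := (⊤ : TopologicalSpace.PositiveCompacts V))
  simpa [κ] using this⟩

instance : Measure.IsAddLeftInvariant κ := by unfold κ; infer_instance

/-- the law of a homomorphism to a finite group is uniform on its range -/
lemma fiber {F : Type*} [AddGroup F] [Fintype F] [MeasurableSpace F] [MeasurableSingletonClass F]
    (π : V →+ F) (hπ : Measurable π) (S : Finset F) (hS : ∀ g, g ∈ S ↔ ∃ v, π v = g) {g : F}
    (hg : g ∈ S) : κ.real (π ⁻¹' {g}) = (S.card : ℝ)⁻¹ := by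
  have h1 : ∀ g ∈ S, κ.real (π ⁻¹' {g}) = κ.real (π ⁻¹' {0}) := by
    intro g hg
    obtain ⟨v, hv⟩ := (hS g).mp hg
    have : π ⁻¹' {g} = (fun x => -v + x) ⁻¹' (π ⁻¹' {0}) := by
      ext x
      simp only [Set.mem_preimage, Set.mem_singleton_iff, map_add, map_neg, hv]
      constructor
      · intro h; rw [h]; simp
      · intro h
        have := congrArg (fun z => g + z) h
        simpa using this
    rw [this, measureReal_def, measure_preimage_add, ← measureReal_def]
  have h2 : ∑ g ∈ S, κ.real (π ⁻¹' {g}) = 1 := by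
    rw [← measureReal_biUnion_finset]
    · have : (⋃ g ∈ S, π ⁻¹' {g}) = Set.univ := by
        ext v
        simp only [Set.mem_iUnion, Set.mem_preimage, Set.mem_singleton_iff, exists_prop,
          Set.mem_univ, iff_true]
        exact ⟨π v, (hS _).mpr ⟨v, rfl⟩, rfl⟩
      rw [this]; simp
    · intro a _ b _ hab
      refine Set.disjoint_left.mpr fun v hv hv' => hab ?_
      simp only [Set.mem_preimage, Set.mem_singleton_iff] at hv hv'
      rw [← hv, ← hv']
    · intro a _
      exact hπ (measurableSet_singleton a)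
  rw [sum_congr rfl h1, sum_const, nsmul_eq_mul] at h2
  have hc : (S.card : ℝ) ≠ 0 := by
    intro h
    rw [h, zero_mul] at h2
    exact zero_ne_one h2
  rw [h1 g hg]
  field_simp
  linarith

/-- the set of all blocks of level `k` -/
def C (k : ℕ) : Set (Fin (L k) → ZMod 2) := {w | ∃ y, IsCode y ∧ blk k 0 y = w}

noncomputable def Cf (k : ℕ) : Finset (Fin (L k) → ZMod 2) := (Set.toFinite (C k)).toFinset

lemma mem_Cf {k : ℕ} {w : Fin (L k) → ZMod 2} : w ∈ Cf k ↔ ∃ y, IsCode y ∧ blk k 0 y = w := by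
  unfold Cf
  rw [Set.Finite.mem_toFinset]; rfl

lemma blk_mem {k : ℕ} {y : ℕ → ZMod 2} (hy : IsCode y) (j : ℕ) : blk k j y ∈ Cf k := by
  obtain ⟨z, hz, h1, _⟩ := exists_pair (k := k) (i := 0) (j := 1) (i' := j) (j' := 0) (by norm_num)
    hy hy
  exact mem_Cf.mpr ⟨z, hz, h1⟩

lemma exists_blk {k : ℕ} {w : Fin (L k) → ZMod 2} (hw : w ∈ Cf k) (j : ℕ) :
    ∃ y, IsCode y ∧ blk k j y = w := by
  obtain ⟨v, hv, h⟩ := mem_Cf.mp hw
  obtain ⟨z, hz, h1, _⟩ := exists_pair (k := k) (i := j) (j := j + 1) (i' := 0) (j' := 0)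
    (by omega) hv hv
  exact ⟨z, hz, by rw [h1, h]⟩

lemma exists_blk_pair {k : ℕ} {w w' : Fin (L k) → ZMod 2} (hw : w ∈ Cf k) (hw' : w' ∈ Cf k)
    {i j : ℕ} (hij : i ≠ j) : ∃ y, IsCode y ∧ blk k i y = w ∧ blk k j y = w' := by
  obtain ⟨v, hv, h⟩ := mem_Cf.mp hw
  obtain ⟨v', hv', h'⟩ := mem_Cf.mp hw'
  obtain ⟨z, hz, h1, h2⟩ := exists_pair (k := k) (i := i) (j := j) (i' := 0) (j' := 0)
    hij hv hv'
  exact ⟨z, hz, by rw [h1, h], by rw [h2, h']⟩

/-- the block as a homomorphism -/
def Y (k j : ℕ) : V →+ (Fin (L k) → ZMod 2) where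
  toFun := fun y => blk k j y
  map_zero' := rfl
  map_add' := fun _ _ => rfl

lemma measurable_Y (k j : ℕ) : Measurable (Y k j) := by
  have h : Measurable (fun v : V => fun r : Fin (L k) => (v : ℕ → ZMod 2) (j * L k + r)) :=
    measurable_pi_lambda _ fun r => (measurable_pi_apply (j * L k + (r : ℕ))).comp
      measurable_subtype_coe
  exact h

lemma prob_Y {k : ℕ} (j : ℕ) {w : Fin (L k) → ZMod 2} (hw : w ∈ Cf k) :
    κ.real (Y k j ⁻¹' {w}) = ((Cf k).card : ℝ)⁻¹ := by
  refine fiber (Y k j) (measurable_Y k j) (Cf k) (fun g => ?_) hw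
  constructor
  · intro hg
    obtain ⟨y, hy, h⟩ := exists_blk hg j
    exact ⟨⟨y, hy⟩, h⟩
  · rintro ⟨v, rfl⟩
    exact blk_mem v.2 j

lemma prob_Y_pair {k : ℕ} {i j : ℕ} (hij : i ≠ j) {w w' : Fin (L k) → ZMod 2} (hw : w ∈ Cf k)
    (hw' : w' ∈ Cf k) :
    κ.real (Y k i ⁻¹' {w} ∩ Y k j ⁻¹' {w'}) = ((Cf k).card : ℝ)⁻¹ * ((Cf k).card : ℝ)⁻¹ := by
  have h := fiber ((Y k i).prod (Y k j)) ((measurable_Y k i).prodMk (measurable_Y k j))
    (Cf k ×ˢ Cf k) (g := (w, w')) (fun g => ?_) (by simp [hw, hw'])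
  · rw [card_product] at h
    push_cast at h
    rw [mul_inv] at h
    rw [← h]
    congr 1
    ext v
    simp
  · constructor
    · intro hg
      rw [mem_product] at hg
      obtain ⟨y, hy, h⟩ := exists_blk_pair hg.1 hg.2 hij
      exact ⟨⟨y, hy⟩, Prod.ext h.1 h.2⟩
    · rintro ⟨v, rfl⟩
      rw [mem_product]
      exact ⟨blk_mem v.2 i, blk_mem v.2 j⟩

lemma indep_Y {k i j : ℕ} (hij : i ≠ j) : IndepFun (Y k i) (Y k j) κ := by
  rw [indepFun_iff_map_prod_eq_prod_map_map (measurable_Y k i).aemeasurable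
    (measurable_Y k j).aemeasurable]
  refine Measure.ext_of_singleton fun p => ?_
  obtain ⟨w, w'⟩ := p
  have e1 : (Measure.map (fun ω => (Y k i ω, Y k j ω)) κ) {(w, w')} =
      κ (Y k i ⁻¹' {w} ∩ Y k j ⁻¹' {w'}) := by
    rw [Measure.map_apply ((measurable_Y k i).prodMk (measurable_Y k j))
      (measurableSet_singleton _)]
    congr 1
    ext v; simp
  have e2 : ({(w, w')} : Set ((Fin (L k) → ZMod 2) × (Fin (L k) → ZMod 2))) = {w} ×ˢ {w'} := by
    ext; simp [Prod.ext_iff]
  rw [e1, e2, Measure.prod_prod, Measure.map_apply (measurable_Y k i) (measurableSet_singleton _),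
    Measure.map_apply (measurable_Y k j) (measurableSet_singleton _)]
  have hempty : ∀ (l : ℕ) (w : Fin (L k) → ZMod 2), w ∉ Cf k → Y k l ⁻¹' {w} = ∅ := by
    intro l w hw
    ext v
    simp only [Set.mem_preimage, Set.mem_singleton_iff, Set.mem_empty_iff_false, iff_false]
    rintro rfl
    exact hw (blk_mem v.2 l)
  by_cases hw : w ∈ Cf k
  · by_cases hw' : w' ∈ Cf k
    · have h1 := prob_Y_pair hij hw hw'
      have h2 := prob_Y i hw
      have h3 := prob_Y j hw'
      rw [← h2] at h1
      nth_rewrite 2 [h2] at h1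
      rw [← h3] at h1
      simp only [measureReal_def] at h1
      rw [← ENNReal.toReal_mul] at h1
      exact (ENNReal.toReal_eq_toReal_iff' (measure_ne_top _ _)
        (ENNReal.mul_ne_top (measure_ne_top _ _) (measure_ne_top _ _))).mp h1
    · rw [hempty j w' hw']; simp
  · rw [hempty i w hw]; simp

open Classical in
/-- the indicator of the event that the block number `j` is `w` -/
noncomputable def X (k : ℕ) (w : Fin (L k) → ZMod 2) (j : ℕ) (v : V) : ℝ :=
  if blk k j v = w then 1 else 0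

lemma ae_freq (k : ℕ) {w : Fin (L k) → ZMod 2} (hw : w ∈ Cf k) :
    ∀ᵐ v ∂κ, Tendsto (fun n : ℕ => (∑ j ∈ range n, X k w j v) / n) atTop
      (𝓝 ((Cf k).card : ℝ)⁻¹) := by
  classical
  have hX : ∀ j, X k w j = (fun z : Fin (L k) → ZMod 2 => if z = w then (1 : ℝ) else 0) ∘ Y k j :=
    fun j => rfl
  have hmφ : Measurable (fun z : Fin (L k) → ZMod 2 => if z = w then (1 : ℝ) else 0) :=
    measurable_of_countable _
  have hXi : ∀ j, X k w j = (Y k j ⁻¹' {w}).indicator (fun _ => (1 : ℝ)) := by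
    intro j
    funext v
    rw [Set.indicator_apply]
    have : (v ∈ Y k j ⁻¹' {w}) = (blk k j v = w) := rfl
    simp only [this, X]
  have hmeas : ∀ j, MeasurableSet (Y k j ⁻¹' {w}) := fun j =>
    measurable_Y k j (measurableSet_singleton w)
  have hint : Integrable (X k w 0) κ := by
    rw [hXi]; exact (integrable_const _).indicator (hmeas 0)
  have hmean : κ[X k w 0] = ((Cf k).card : ℝ)⁻¹ := by
    rw [hXi, integral_indicator_const _ (hmeas 0), prob_Y 0 hw]; simp
  have := strong_law_ae_real (X k w) hint ?_ ?_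
  · rw [hmean] at this; exact this
  · intro i j hij
    have := (indep_Y (k := k) hij).comp hmφ hmφ
    exact this
  · intro i
    rw [hX, hX]
    refine IdentDistrib.comp ⟨(measurable_Y k i).aemeasurable, (measurable_Y k 0).aemeasurable, ?_⟩
      hmφ
    refine Measure.ext_of_singleton fun z => ?_
    rw [Measure.map_apply (measurable_Y k i) (measurableSet_singleton _),
      Measure.map_apply (measurable_Y k 0) (measurableSet_singleton _)]
    by_cases hz : z ∈ Cf k
    · have h1 := prob_Y i hz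
      rw [← prob_Y 0 hz] at h1
      simp only [measureReal_def] at h1
      exact (ENNReal.toReal_eq_toReal_iff' (measure_ne_top _ _) (measure_ne_top _ _)).mp h1
    · have hempty : ∀ (l : ℕ), Y k l ⁻¹' {z} = ∅ := by
        intro l
        ext v
        simp only [Set.mem_preimage, Set.mem_singleton_iff, Set.mem_empty_iff_false, iff_false]
        rintro rfl
        exact hz (blk_mem v.2 l)
      rw [hempty, hempty]

/-- a codeword all of whose blocks are equidistributed -/
theorem exists_equidistributed : ∃ y, IsCode y ∧ ∀ k, ∀ w ∈ Cf k,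
    Tendsto (fun n : ℕ => (((range n).filter fun j => blk k j y = w).card : ℝ) / n) atTop
      (𝓝 ((Cf k).card : ℝ)⁻¹) := by
  classical
  have h : ∀ᵐ v ∂κ, ∀ k, ∀ w : Fin (L k) → ZMod 2, w ∈ Cf k →
      Tendsto (fun n : ℕ => (∑ j ∈ range n, X k w j v) / n) atTop (𝓝 ((Cf k).card : ℝ)⁻¹) := by
    rw [ae_all_iff]; intro k
    rw [ae_all_iff]; intro w
    by_cases hw : w ∈ Cf k
    · filter_upwards [ae_freq k hw] with v hv _ using hv
    · exact Eventually.of_forall fun v h => absurd h hw
  obtain ⟨v, hv⟩ := h.exists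
  refine ⟨v, v.2, fun k w hw => ?_⟩
  convert hv k w hw using 3 with n
  unfold X
  rw [sum_boole]

end Pool.Agent.N252.CS
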