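import Mathlib
import Pool.Agent.N252.CS.Exist

/-!
The number of the blocks of level `k` is at least `2 ^ (L k / 2)`.
-/

open Finset

namespace Pool.Agent.N252.CS

lemma digit_small {k b : ℕ} (hb : b < m k) {k' : ℕ} (_hk : k ≤ k') :
    digit k' (b * L k) = if k' = k then b else 0 := by
  have h := digit_block (k1 := k) (u := 0) (b := b) (r := 0) hb (L_pos k) k'
  simp only [zero_mul, zero_add, add_zero] at h
  rw [h]
  split_ifs
  · rfl
  · unfold digit; simp

lemma exists_single {k b : ℕ} (hb : b < m k - 1) {w : Fin (L k) → ZMod 2} (hw : w ∈ Cf k) :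
    ∃ y, IsCode y ∧ blk k b y = w ∧ ∀ b' < m k - 1, b' ≠ b → blk k b' y = 0 := by
  classical
  obtain ⟨v, hv, h⟩ := mem_Cf.mp hw
  have h4 := four_le_m
  let P : ℕ → Finset ℕ := fun k' => if k' = k then {b, m k - 1} else {0, 1}
  have hP1 : ∀ k', P k' ⊆ range (m k') := by
    intro k' z hz
    simp only [P] at hz
    have := h4 k'
    have := h4 k
    rw [mem_range]
    split_ifs at hz with hk
    · subst hk
      simp only [mem_insert, mem_singleton] at hz
      omega
    · simp only [mem_insert, mem_singleton] at hz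
      omega
  have hP2 : ∀ k', Even (P k').card := by
    intro k'
    simp only [P]
    split_ifs
    · rw [card_pair (by omega)]; decide
    · decide
  refine ⟨mk k 0 P v, mk_isCode hv hP1 hP2, ?_, ?_⟩
  · rw [blk_mk, if_pos, h]
    intro k' hk'
    rw [digit_small (by omega) hk']
    simp only [P]
    split_ifs <;> simp
  · intro b' hb' hne
    rw [blk_mk, if_neg]
    intro hh
    have := hh k le_rfl
    rw [digit_small (by omega) le_rfl] at this
    simp only [P, if_true, mem_insert, mem_singleton] at this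
    omega

lemma card_succ (k : ℕ) : (Cf k).card ^ (m k - 1) ≤ (Cf (k + 1)).card := by
  classical
  choose! e he using fun (b : ℕ) (hb : b < m k - 1) (w : Fin (L k) → ZMod 2) (hw : w ∈ Cf k) =>
    exists_single hb hw
  -- the codeword belonging to a family of blocks
  let y : (Fin (m k - 1) → Cf k) → ℕ → ZMod 2 := fun W => ∑ b : Fin (m k - 1), e b (W b)
  have hy : ∀ W, IsCode (y W) := fun W => IsCode.sum _ fun b _ => (he b b.2 _ (W b).2).1
  have hyb : ∀ W (b : Fin (m k - 1)), blk k b (y W) = W b := by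
    intro W b
    have h1 : blk k b (y W) = ∑ b' : Fin (m k - 1), blk k b (e b' (W b')) := by
      funext r
      simp [blk, y]
    rw [h1, Finset.sum_eq_single b]
    · exact (he b b.2 _ (W b).2).2.1
    · intro b' _ hne
      exact (he b' b'.2 _ (W b').2).2.2 b b.2 (fun h => hne (Fin.ext h.symm))
    · intro h; exact absurd (mem_univ _) h
  have hcard : Fintype.card (Fin (m k - 1) → Cf k) = (Cf k).card ^ (m k - 1) := by simp
  rw [← hcard, ← Fintype.card_coe]
  refine Fintype.card_le_of_injective (fun W => ⟨blk (k + 1) 0 (y W), blk_mem (hy W) 0⟩) ?_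
  intro W W' h
  simp only [Subtype.mk.injEq] at h
  funext b
  apply Subtype.ext
  rw [← hyb W b, ← hyb W' b]
  funext r
  have hlt : (b : ℕ) * L k + r < L (k + 1) := add_lt (by omega) r.2
  have := congrFun h ⟨(b : ℕ) * L k + r, hlt⟩
  simpa [blk] using this

lemma card_zero : 2 ≤ (Cf 0).card := by
  classical
  have h1 : IsCode (mk 0 0 (fun _ => {0, 1}) (fun _ => 1)) := by
    refine mk_isCode' (fun k1 hk => absurd hk (by omega)) (fun k' z hz => ?_) (fun k' => by simp)
    have := four_le_m k'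
    simp only [mem_insert, mem_singleton] at hz
    rw [mem_range]; omega
  have h2 : blk 0 0 (mk 0 0 (fun _ => {0, 1}) (fun _ => 1)) = fun _ => 1 := by
    rw [blk_mk, if_pos]
    · rfl
    · intro k' _
      simp [digit]
  have h3 : blk 0 0 (0 : ℕ → ZMod 2) = fun _ => 0 := rfl
  have hs : ({fun _ => 1, fun _ => 0} : Finset (Fin (L 0) → ZMod 2)) ⊆ Cf 0 := by
    intro w hw
    simp only [mem_insert, mem_singleton] at hw
    rcases hw with rfl | rfl
    · rw [← h2]; exact blk_mem h1 0
    · rw [← h3]; exact blk_mem IsCode.zero 0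
  refine le_trans ?_ (card_le_card hs)
  rw [card_pair]
  intro h
  have := congrFun h ⟨0, by rw [L_zero]; norm_num⟩
  exact absurd this (by decide)

def f : ℕ → ℕ
  | 0 => 1
  | k + 1 => (m k - 1) * f k

lemma pow_f_le (k : ℕ) : 2 ^ f k ≤ (Cf k).card := by
  induction k with
  | zero => simpa [f] using card_zero
  | succ k ih =>
    refine le_trans ?_ (card_succ k)
    rw [f, mul_comm, pow_mul]
    exact Nat.pow_le_pow_left ih _

lemma f_ge (k : ℕ) : L k * (2 ^ k + 1) ≤ f k * 2 ^ (k + 1) := by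
  induction k with
  | zero => simp [L_zero, f]
  | succ k ih =>
    rw [f, L_succ]
    have hm : m k = 2 ^ (k + 2) := rfl
    have h1 : 1 ≤ 2 ^ k := Nat.one_le_two_pow
    obtain ⟨t, ht⟩ : ∃ t, m k = t + 1 := ⟨m k - 1, by have := m_pos k; omega⟩
    have e1 : m k - 1 = t := by omega
    rw [e1]
    have h2 : L k * m k * (2 ^ (k + 1) + 1) ≤ L k * (2 ^ k + 1) * (2 * t) := by
      have : m k * (2 ^ (k + 1) + 1) ≤ (2 ^ k + 1) * (2 * t) := by
        have e2 : t + 1 = 4 * 2 ^ k := by rw [← ht, hm, pow_add]; ring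
        have e3 : 2 ^ (k + 1) = 2 * 2 ^ k := by rw [pow_succ]; ring
        have e4 : m k = 4 * 2 ^ k := by rw [hm, pow_add]; ring
        rw [e3, e4]
        have e5 : t = 4 * 2 ^ k - 1 := by omega
        rw [e5]
        generalize 2 ^ k = q at h1
        obtain ⟨s, rfl⟩ : ∃ s, q = s + 1 := ⟨q - 1, by omega⟩
        have : 4 * (s + 1) - 1 = 4 * s + 3 := by omega
        rw [this]
        nlinarith
      calc L k * m k * (2 ^ (k + 1) + 1) = L k * (m k * (2 ^ (k + 1) + 1)) := by ring
        _ ≤ L k * ((2 ^ k + 1) * (2 * t)) := Nat.mul_le_mul_left _ this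
        _ = _ := by ring
    calc L k * m k * (2 ^ (k + 1) + 1) ≤ L k * (2 ^ k + 1) * (2 * t) := h2
      _ ≤ f k * 2 ^ (k + 1) * (2 * t) := Nat.mul_le_mul_right _ ih
      _ = t * f k * 2 ^ (k + 1 + 1) := by ring

lemma L_le_two_f (k : ℕ) : L k ≤ 2 * f k := by
  have h := f_ge k
  have h2 : L k * 2 ^ k ≤ L k * (2 ^ k + 1) := Nat.mul_le_mul_left _ (Nat.le_succ _)
  have h3 : L k * 2 ^ k ≤ (2 * f k) * 2 ^ k := by
    calc L k * 2 ^ k ≤ f k * 2 ^ (k + 1) := le_trans h2 h
      _ = _ := by ring
  exact Nat.le_of_mul_le_mul_right h3 (by positivity)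

/-- the number of blocks of level `k` -/
theorem card_ge (k : ℕ) : (L k : ℝ) / 2 * Real.log 2 ≤ Real.log (Cf k).card := by
  have h1 : (2 : ℝ) ^ f k ≤ (Cf k).card := by exact_mod_cast pow_f_le k
  have h2 : (L k : ℝ) ≤ 2 * f k := by exact_mod_cast L_le_two_f k
  have h3 : Real.log ((2 : ℝ) ^ f k) ≤ Real.log (Cf k).card :=
    Real.log_le_log (by positivity) h1
  rw [Real.log_pow] at h3
  refine le_trans ?_ h3
  exact mul_le_mul_of_nonneg_right (by linarith) (Real.log_nonneg (by norm_num))

end Pool.Agent.N252.CS
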