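import Mathlib

/-!
Cesàro means.
-/

open Finset Filter Topology

namespace Pool.Agent.N252.CS

/-- the averages of `g` converge to `v` -/
def MeanLim (g : ℕ → ℝ) (v : ℝ) : Prop :=
  Tendsto (fun N : ℕ => (∑ n ∈ range N, g n) / N) atTop (𝓝 v)

lemma sum_blocks (T J : ℕ) (f : ℕ → ℝ) :
    ∑ n ∈ range (T * J), f n = ∑ j ∈ range J, ∑ r ∈ range T, f (T * j + r) := by
  induction J with
  | zero => simp
  | succ J ih => rw [mul_add, mul_one, sum_range_add, ih, sum_range_succ]

lemma MeanLim.congr {g g' : ℕ → ℝ} {v : ℝ} (h : MeanLim g v) (e : ∀ n, g n = g' n) :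
    MeanLim g' v := by
  have : g = g' := funext e
  rwa [← this]

lemma MeanLim.add {g g' : ℕ → ℝ} {v v' : ℝ} (h : MeanLim g v) (h' : MeanLim g' v') :
    MeanLim (fun n => g n + g' n) (v + v') := by
  have := Tendsto.add h h'
  refine this.congr fun N => ?_
  rw [sum_add_distrib, add_div]

lemma MeanLim.const_mul {g : ℕ → ℝ} {v : ℝ} (c : ℝ) (h : MeanLim g v) :
    MeanLim (fun n => c * g n) (c * v) := by
  have := Tendsto.const_mul c h
  refine this.congr fun N => ?_
  rw [← mul_sum, mul_div_assoc]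

lemma MeanLim.sum {ι : Type*} (s : Finset ι) {g : ι → ℕ → ℝ} {v : ι → ℝ}
    (h : ∀ i ∈ s, MeanLim (g i) (v i)) :
    MeanLim (fun n => ∑ i ∈ s, g i n) (∑ i ∈ s, v i) := by
  have := tendsto_finsetSum s h
  refine this.congr fun N => ?_
  rw [← sum_div, sum_comm]

lemma MeanLim.le {g g' : ℕ → ℝ} {v v' : ℝ} (h : MeanLim g v) (h' : MeanLim g' v')
    (hle : ∀ n, g n ≤ g' n) : v ≤ v' := by
  refine le_of_tendsto_of_tendsto' h h' fun N => ?_
  exact div_le_div_of_nonneg_right (sum_le_sum fun n _ => hle n) (by positivity)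

lemma MeanLim.unique {g : ℕ → ℝ} {v v' : ℝ} (h : MeanLim g v) (h' : MeanLim g v') : v = v' :=
  tendsto_nhds_unique h h'

/-- shifting does not change the averages -/
lemma MeanLim.shift {g : ℕ → ℝ} {v : ℝ} (h : MeanLim g v) : MeanLim (fun n => g (n + 1)) v := by
  unfold MeanLim at *
  have h1 : Tendsto (fun N : ℕ => (∑ n ∈ range (N + 1), g n) / ((N + 1 : ℕ) : ℝ)) atTop (𝓝 v) :=
    h.comp (tendsto_add_atTop_nat 1)
  have h2 : Tendsto (fun N : ℕ => ((N + 1 : ℕ) : ℝ) / N) atTop (𝓝 1) := by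
    have := tendsto_const_nhds (x := (1 : ℝ)) (f := (atTop : Filter ℕ)) |>.add
      (tendsto_one_div_atTop_nhds_zero_nat (𝕜 := ℝ))
    rw [add_zero] at this
    refine this.congr' ?_
    filter_upwards [eventually_gt_atTop 0] with N hN
    have : (N : ℝ) ≠ 0 := by exact_mod_cast hN.ne'
    push_cast; field_simp
  have h3 : Tendsto (fun N : ℕ => g 0 / (N : ℝ)) atTop (𝓝 0) :=
    tendsto_const_nhds.div_atTop tendsto_natCast_atTop_atTop
  have := (h1.mul h2).sub h3
  rw [mul_one, sub_zero] at this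
  refine this.congr' ?_
  filter_upwards [eventually_gt_atTop 0] with N hN
  have : (N : ℝ) ≠ 0 := by exact_mod_cast hN.ne'
  have h4 : ((N + 1 : ℕ) : ℝ) ≠ 0 := by positivity
  rw [sum_range_succ']
  field_simp
  ring

/-- averages of a function from the averages of its block sums -/
lemma MeanLim.of_blocks {g : ℕ → ℝ} {T : ℕ} (hT : 0 < T) {C β : ℝ} (hg : ∀ n, |g n| ≤ C)
    (h : MeanLim (fun j => ∑ r ∈ range T, g (T * j + r)) β) : MeanLim g (β / T) := by
  have hC : 0 ≤ C := (abs_nonneg _).trans (hg 0)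
  have hT' : (0 : ℝ) < T := by exact_mod_cast hT
  have h1 : Tendsto (fun N : ℕ => N / T) atTop atTop := by
    refine tendsto_atTop_atTop.mpr fun b => ⟨T * b, fun a ha => ?_⟩
    exact (Nat.le_div_iff_mul_le hT).mpr (by rw [mul_comm]; exact ha)
  have h2 := h.comp h1
  have h3 : Tendsto (fun N : ℕ => ((N / T : ℕ) : ℝ) / N) atTop (𝓝 (1 / T)) := by
    have hlo : Tendsto (fun N : ℕ => (1 : ℝ) / T - 1 / N) atTop (𝓝 (1 / T)) := by
      have := tendsto_const_nhds (x := (1 : ℝ) / T) (f := (atTop : Filter ℕ)) |>.sub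
        (tendsto_one_div_atTop_nhds_zero_nat (𝕜 := ℝ))
      simpa using this
    refine tendsto_of_tendsto_of_tendsto_of_le_of_le' hlo tendsto_const_nhds ?_ ?_
    · filter_upwards [eventually_gt_atTop 0] with N hN
      have hN' : (0 : ℝ) < N := by exact_mod_cast hN
      rw [div_sub_div _ _ hT'.ne' hN'.ne', div_le_div_iff₀ (by positivity) hN']
      have h4 : (N : ℝ) < T * ((N / T : ℕ) : ℝ) + T := by
        have := Nat.lt_mul_div_succ N hT
        have h5 : N < T * (N / T) + T := by linarith [mul_add T (N / T) 1]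
        exact_mod_cast h5
      nlinarith
    · filter_upwards [eventually_gt_atTop 0] with N hN
      have hN' : (0 : ℝ) < N := by exact_mod_cast hN
      rw [div_le_div_iff₀ hN' hT', one_mul]
      exact_mod_cast Nat.div_mul_le_self N T
  have h4 : Tendsto (fun N : ℕ => (∑ n ∈ range N, g n) / N -
      (∑ j ∈ range (N / T), ∑ r ∈ range T, g (T * j + r)) / (N / T : ℕ) *
        (((N / T : ℕ) : ℝ) / N)) atTop (𝓝 0) := by
    have hz : Tendsto (fun N : ℕ => (C * T) / (N : ℝ)) atTop (𝓝 0) :=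
      tendsto_const_nhds.div_atTop tendsto_natCast_atTop_atTop
    refine squeeze_zero_norm' ?_ hz
    filter_upwards [eventually_ge_atTop T] with N hN
    have hN0 : 0 < N := lt_of_lt_of_le hT hN
    have hN' : (0 : ℝ) < N := by exact_mod_cast hN0
    have hNT : ((N / T : ℕ) : ℝ) ≠ 0 := by
      have : 0 < N / T := Nat.div_pos hN hT
      exact_mod_cast this.ne'
    have e1 : (∑ j ∈ range (N / T), ∑ r ∈ range T, g (T * j + r)) / ((N / T : ℕ) : ℝ) *
        (((N / T : ℕ) : ℝ) / N) = (∑ n ∈ range (T * (N / T)), g n) / N := by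
      rw [sum_blocks]; field_simp
    rw [e1]
    have e2 : ∑ n ∈ range N, g n = ∑ n ∈ range (T * (N / T)), g n +
        ∑ n ∈ range (N % T), g (T * (N / T) + n) := by
      conv_lhs => rw [← Nat.div_add_mod N T]
      rw [sum_range_add]
    rw [e2, ← sub_div, add_sub_cancel_left, norm_div, Real.norm_eq_abs, Real.norm_eq_abs,
      abs_of_pos hN']
    refine div_le_div_of_nonneg_right ?_ hN'.le
    refine (abs_sum_le_sum_abs _ _).trans ?_
    refine (sum_le_sum fun n _ => hg _).trans ?_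
    rw [sum_const, card_range, nsmul_eq_mul, mul_comm]
    refine mul_le_mul_of_nonneg_left ?_ hC
    exact_mod_cast (Nat.mod_lt N hT).le
  have h5 := (h2.mul h3).add h4
  rw [add_zero, mul_one_div] at h5
  refine h5.congr fun N => ?_
  simp only [Function.comp_def]
  ring

/-- if `g` can be approximated by functions whose averages converge then so do its averages -/
lemma exists_meanLim {g : ℕ → ℝ} (h : ∀ ε : ℝ, 0 < ε → ∃ (g' : ℕ → ℝ) (v : ℝ), MeanLim g' v ∧
    ∃ N0 : ℕ, ∀ N ≥ N0, ∑ n ∈ range N, |g n - g' n| ≤ ε * N) : ∃ v, MeanLim g v := by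
  unfold MeanLim
  refine cauchySeq_tendsto_of_complete ?_
  rw [Metric.cauchySeq_iff']
  intro ε hε
  obtain ⟨g', v, hv, N0, hN0⟩ := h (ε / 8) (by linarith)
  obtain ⟨N1, hN1⟩ := Metric.tendsto_atTop.mp hv (ε / 8) (by linarith)
  have key : ∀ N ≥ max (N0 + 1) N1, |(∑ n ∈ range N, g n) / N - v| ≤ ε / 4 := by
    intro N hN
    have h1 : N0 + 1 ≤ N := le_trans (le_max_left _ _) hN
    have h2 : N1 ≤ N := le_trans (le_max_right _ _) hN
    have hN' : (0 : ℝ) < N := by exact_mod_cast (by omega : 0 < N)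
    have h3 := hN0 N (by omega)
    have h4 := hN1 N h2
    rw [Real.dist_eq] at h4
    have h5 : |(∑ n ∈ range N, g n) / N - (∑ n ∈ range N, g' n) / N| ≤ ε / 8 := by
      rw [← sub_div, ← sum_sub_distrib, abs_div, abs_of_pos hN', div_le_iff₀ hN']
      exact (abs_sum_le_sum_abs _ _).trans h3
    have := abs_sub_le ((∑ n ∈ range N, g n) / N) ((∑ n ∈ range N, g' n) / N) v
    linarith
  refine ⟨max (N0 + 1) N1, fun N hN => ?_⟩
  have h1 := key N hN
  have h2 := key _ (le_refl (max (N0 + 1) N1))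
  rw [Real.dist_eq]
  have := abs_sub_le ((∑ n ∈ range N, g n) / N) v
    ((∑ n ∈ range (max (N0 + 1) N1), g n) / (max (N0 + 1) N1 : ℕ))
  rw [abs_sub_comm] at h2
  linarith

/-- a bound for the sums of nonnegative functions whose block sums are bounded -/
lemma sum_le_of_blocks {g : ℕ → ℝ} (hg : ∀ n, 0 ≤ g n) {T : ℕ} (hT : 0 < T) {c : ℝ}
    (h : ∀ j, ∑ r ∈ range T, g (T * j + r) ≤ c) (N : ℕ) :
    ∑ n ∈ range N, g n ≤ c * (N / T + 1) := by
  have hc : 0 ≤ c := (sum_nonneg fun r _ => hg _).trans (h 0)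
  have h1 : N ≤ T * (N / T + 1) := by
    have := Nat.lt_mul_div_succ N hT
    omega
  calc ∑ n ∈ range N, g n ≤ ∑ n ∈ range (T * (N / T + 1)), g n :=
        sum_le_sum_of_subset_of_nonneg (range_mono h1) fun n _ _ => hg n
    _ = ∑ j ∈ range (N / T + 1), ∑ r ∈ range T, g (T * j + r) := sum_blocks _ _ _
    _ ≤ ∑ j ∈ range (N / T + 1), c := sum_le_sum fun j _ => h j
    _ = c * ((N / T : ℕ) + 1) := by rw [sum_const, card_range, nsmul_eq_mul]; push_cast; ring
    _ ≤ c * (N / T + 1) := by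
      refine mul_le_mul_of_nonneg_left ?_ hc
      have := @Nat.cast_div_le ℝ _ _ _ N T
      linarith

end Pool.Agent.N252.CS
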