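import Mathlib
import Pool.Agent.N252.CS.Core
import Pool.Agent.N252.CS.Mean

/-!
Uniform normality implies distribution normality.
-/

open Finset Filter Topology

namespace Pool.Agent.N252.CS

/-- the number with the digits `D`, for the bases `Q n, Q (n + 1), ...` -/
noncomputable def psd (Q : ℕ → ℕ) : (l : ℕ) → (Fin l → ℕ) → ℕ → ℝ
  | 0, _, _ => 0
  | l + 1, D, n => (D 0 + psd Q l (Fin.tail D) (n + 1)) / Q n

lemma psd_succ (Q : ℕ → ℕ) (l : ℕ) (D : Fin (l + 1) → ℕ) (n : ℕ) :
    psd Q (l + 1) D n = (D 0 + psd Q l (Fin.tail D) (n + 1)) / Q n := rfl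

lemma psd_congr {Q Q' : ℕ → ℕ} : ∀ (l : ℕ) (D : Fin l → ℕ) (n n' : ℕ),
    win l n Q = win l n' Q' → psd Q l D n = psd Q' l D n' := by
  intro l
  induction l with
  | zero => intros; rfl
  | succ l ih =>
    intro D n n' h
    unfold psd
    have h0 : Q n = Q' n' := by
      have := congrFun h 0
      simpa [win] using this
    rw [h0, ih (Fin.tail D) (n + 1) (n' + 1)]
    funext i
    have := congrFun h i.succ
    simp only [win, Fin.val_succ] at this ⊢
    rw [show n + 1 + (i : ℕ) = n + (i + 1) by ring, show n' + 1 + (i : ℕ) = n' + (i + 1) by ring]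
    exact this

lemma psd_nonneg (Q : ℕ → ℕ) : ∀ (l : ℕ) (D : Fin l → ℕ) (n : ℕ), 0 ≤ psd Q l D n := by
  intro l
  induction l with
  | zero => intros; exact le_rfl
  | succ l ih =>
    intro D n
    unfold psd
    have := ih (Fin.tail D) (n + 1)
    positivity

open Classical in
/-- the distribution function of the number with random digits -/
noncomputable def Fs (M : ℕ) (Q : ℕ → ℕ) (l n : ℕ) (b : ℝ) : ℝ :=
  ∑ D : Fin l → Fin M, pr Q (fun i => (D i : ℕ)) n *
    (if psd Q l (fun i => (D i : ℕ)) n < b then 1 else 0)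

lemma pr_cons (Q : ℕ → ℕ) {l : ℕ} (D : Fin (l + 1) → ℕ) (n : ℕ) :
    pr Q D n = (if D 0 < Q n then ((Q n : ℝ))⁻¹ else 0) * pr Q (Fin.tail D) (n + 1) := by
  classical
  unfold pr
  have h1 : (∀ i : Fin (l + 1), D i < Q (n + i)) ↔
      D 0 < Q n ∧ ∀ i : Fin l, Fin.tail D i < Q (n + 1 + i) := by
    rw [Fin.forall_fin_succ]
    simp only [Fin.val_zero, add_zero, Fin.val_succ, Fin.tail]
    refine and_congr_right fun _ => forall_congr' fun i => ?_
    rw [show n + ((i : ℕ) + 1) = n + 1 + i by ring]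
  rw [if_congr h1 rfl rfl, Fin.prod_univ_succ]
  simp only [Fin.val_zero, add_zero, Fin.val_succ]
  have h2 : ∏ i : Fin l, (Q (n + ((i : ℕ) + 1)) : ℝ) = ∏ i : Fin l, (Q (n + 1 + i) : ℝ) := by
    refine prod_congr rfl fun i _ => ?_
    rw [show n + ((i : ℕ) + 1) = n + 1 + i by ring]
  rw [h2]
  by_cases h3 : D 0 < Q n
  · by_cases h4 : ∀ i : Fin l, Fin.tail D i < Q (n + 1 + i)
    · rw [if_pos ⟨h3, h4⟩, if_pos h3, if_pos h4, mul_inv]
    · rw [if_neg (fun h => h4 h.2), if_neg h4, mul_zero]
  · rw [if_neg (fun h => h3 h.1), if_neg h3, zero_mul]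

lemma Fs_succ {M : ℕ} {Q : ℕ → ℕ} (hQ : ∀ n, 2 ≤ Q n) (hM : ∀ n, Q n ≤ M) (l n : ℕ) (b : ℝ) :
    Fs M Q (l + 1) n b = (∑ d ∈ range (Q n), Fs M Q l (n + 1) (Q n * b - d)) / Q n := by
  classical
  have hq : (0 : ℝ) < Q n := by exact_mod_cast (by have := hQ n; omega : 0 < Q n)
  unfold Fs
  rw [← Equiv.sum_comp (Fin.consEquiv fun _ => Fin M), Fintype.sum_prod_type]
  have h1 : ∀ (d : Fin M) (D : Fin l → Fin M),
      pr Q (fun i => ((Fin.consEquiv (fun _ => Fin M)) (d, D) i : ℕ)) n *
        (if psd Q (l + 1) (fun i => ((Fin.consEquiv (fun _ => Fin M)) (d, D) i : ℕ)) n < b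
          then 1 else 0) =
      (if (d : ℕ) < Q n then ((Q n : ℝ))⁻¹ else 0) * (pr Q (fun i => (D i : ℕ)) (n + 1) *
        (if psd Q l (fun i => (D i : ℕ)) (n + 1) < Q n * b - d then 1 else 0)) := by
    intro d D
    rw [pr_cons]
    have e1 : (fun i => ((Fin.consEquiv (fun _ => Fin M)) (d, D) i : ℕ)) 0 = d := rfl
    have e2 : Fin.tail (fun i => ((Fin.consEquiv (fun _ => Fin M)) (d, D) i : ℕ)) =
        fun i => (D i : ℕ) := rfl
    rw [e2, psd_succ, e2]
    have e3 : ((((fun i => ((Fin.consEquiv (fun _ => Fin M)) (d, D) i : ℕ)) 0 : ℕ) : ℝ) +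
        psd Q l (fun i => (D i : ℕ)) (n + 1)) / Q n < b ↔
        psd Q l (fun i => (D i : ℕ)) (n + 1) < Q n * b - d := by
      rw [e1, div_lt_iff₀ hq]
      constructor <;> intro h <;> linarith
    rw [if_congr e3 rfl rfl, mul_assoc]
    rfl
  simp only [h1]
  simp only [← mul_sum]
  -- the sum over the first digit
  rw [sum_div]
  have h2 : ∀ G : ℕ → ℝ, ∑ d : Fin M, (if (d : ℕ) < Q n then ((Q n : ℝ))⁻¹ else 0) * G d =
      ∑ d ∈ range (Q n), G d / Q n := by
    intro G
    rw [Fin.sum_univ_eq_sum_range (fun d => (if d < Q n then ((Q n : ℝ))⁻¹ else 0) * G d) M]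
    have : range (Q n) ⊆ range M := range_mono (hM n)
    rw [← sum_subset this]
    · refine sum_congr rfl fun d hd => ?_
      rw [if_pos (mem_range.mp hd)]; ring
    · intro d _ hd
      rw [if_neg (fun h => hd (mem_range.mpr h)), zero_mul]
  exact h2 fun d => ∑ D : Fin l → Fin M, pr Q (fun i => (D i : ℕ)) (n + 1) *
        (if psd Q l (fun i => (D i : ℕ)) (n + 1) < Q n * b - d then 1 else 0)

lemma clamp_sum (x : ℝ) (q : ℕ) :
    ∑ d ∈ range q, max 0 (min 1 (x - d)) = max 0 (min (q : ℝ) x) := by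
  induction q with
  | zero =>
    simp only [range_zero, sum_empty, Nat.cast_zero]
    rw [max_eq_left (min_le_left 0 x)]
  | succ q ih =>
    rw [sum_range_succ, ih]
    push_cast
    have hq : (0 : ℝ) ≤ q := Nat.cast_nonneg q
    rcases le_total x q with h | h
    · rw [min_eq_right h, min_eq_right (by linarith : x ≤ q + 1),
        min_eq_right (by linarith : x - q ≤ 1), max_eq_left (by linarith : x - q ≤ 0), add_zero]
    · rw [min_eq_left h, max_eq_right hq]
      rcases le_total x (q + 1) with h2 | h2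
      · rw [min_eq_right h2, min_eq_right (by linarith : x - q ≤ 1),
          max_eq_right (by linarith : 0 ≤ x - q), max_eq_right (by linarith : 0 ≤ x)]
        ring
      · rw [min_eq_left h2, min_eq_left (by linarith : 1 ≤ x - q), max_eq_right (by norm_num),
          max_eq_right (by linarith)]

lemma Fs_spec {M : ℕ} {Q : ℕ → ℕ} (hQ : ∀ n, 2 ≤ Q n) (hM : ∀ n, Q n ≤ M) : ∀ (l n : ℕ) (b : ℝ),
    (b ≤ 0 → Fs M Q l n b = 0) ∧ (1 ≤ b → Fs M Q l n b = 1) ∧
      |Fs M Q l n b - max 0 (min 1 b)| ≤ (1 / 2) ^ l := by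
  intro l
  induction l with
  | zero =>
    intro n b
    have e : Fs M Q 0 n b = if 0 < b then 1 else 0 := by
      unfold Fs
      rw [Fintype.sum_unique]
      have h1 : pr Q (fun i => ((default : Fin 0 → Fin M) i : ℕ)) n = 1 := by simp [pr]
      rw [h1, one_mul]
      exact if_congr Iff.rfl rfl rfl
    rw [e]
    refine ⟨fun h => if_neg (not_lt.mpr h), fun h => if_pos (by linarith), ?_⟩
    rw [pow_zero, abs_le]
    have h1 : 0 ≤ max 0 (min 1 b) := le_max_left _ _
    have h2 : max 0 (min 1 b) ≤ 1 := max_le (by norm_num) (min_le_left _ _)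
    split_ifs <;> constructor <;> linarith
  | succ l ih =>
    intro n b
    have hq1 : (2 : ℝ) ≤ Q n := by exact_mod_cast hQ n
    have hq : (0 : ℝ) < Q n := by linarith
    rw [Fs_succ hQ hM]
    refine ⟨fun h => ?_, fun h => ?_, ?_⟩
    · rw [sum_eq_zero, zero_div]
      intro d _
      refine (ih (n + 1) _).1 ?_
      have : (0 : ℝ) ≤ d := Nat.cast_nonneg d
      nlinarith
    · have : ∀ d ∈ range (Q n), Fs M Q l (n + 1) (Q n * b - d) = 1 := by
        intro d hd
        refine (ih (n + 1) _).2.1 ?_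
        have h1 : (d : ℝ) + 1 ≤ Q n := by exact_mod_cast mem_range.mp hd
        nlinarith
      rw [sum_congr rfl this, sum_const, card_range, nsmul_eq_mul, mul_one, div_self hq.ne']
    · set x := (Q n : ℝ) * b with hx
      have h1 : |∑ d ∈ range (Q n), Fs M Q l (n + 1) (x - d) -
          ∑ d ∈ range (Q n), max 0 (min 1 (x - d))| ≤ (1 / 2) ^ l := by
        rw [← sum_sub_distrib]
        refine (abs_sum_le_sum_abs _ _).trans ?_
        have hb : ∀ d ∈ range (Q n), |Fs M Q l (n + 1) (x - d) - max 0 (min 1 (x - d))| ≤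
            if (0 < x - d ∧ x - d < 1) then (1 / 2 : ℝ) ^ l else 0 := by
          intro d _
          obtain ⟨i1, i2, i3⟩ := ih (n + 1) (x - d)
          split_ifs with hc
          · exact i3
          · rw [not_and_or, not_lt, not_lt] at hc
            rcases hc with hc | hc
            · rw [i1 hc, min_eq_right (by linarith), max_eq_left hc]; simp
            · rw [i2 hc, min_eq_left hc, max_eq_right (by norm_num)]; simp
        refine (sum_le_sum hb).trans ?_
        rw [← sum_filter, sum_const, nsmul_eq_mul]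
        have hcard : ((range (Q n)).filter fun d : ℕ => 0 < x - d ∧ x - d < 1).card ≤ 1 := by
          rw [card_le_one]
          intro a ha c hc
          rw [mem_filter] at ha hc
          have h1 : (a : ℝ) < c + 1 := by linarith
          have h2 : (c : ℝ) < a + 1 := by linarith
          have h1' : a < c + 1 := by exact_mod_cast h1
          have h2' : c < a + 1 := by exact_mod_cast h2
          omega
        have hcard' : ((((range (Q n)).filter fun d : ℕ => 0 < x - d ∧ x - d < 1).card : ℕ) : ℝ) ≤ 1 := by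
          exact_mod_cast hcard
        have : (0 : ℝ) ≤ (1 / 2) ^ l := by positivity
        nlinarith
      rw [clamp_sum] at h1
      have h2 : max 0 (min (Q n : ℝ) x) = Q n * max 0 (min 1 b) := by
        rw [mul_max_of_nonneg _ _ hq.le, mul_min_of_nonneg _ _ hq.le, mul_zero, mul_one]
      rw [h2] at h1
      have h3 : (∑ d ∈ range (Q n), Fs M Q l (n + 1) (x - d)) / Q n - max 0 (min 1 b) =
          (∑ d ∈ range (Q n), Fs M Q l (n + 1) (x - d) - Q n * max 0 (min 1 b)) / Q n := by
        field_simp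
      rw [h3, abs_div, abs_of_pos hq, div_le_iff₀ hq, pow_succ]
      have : (0 : ℝ) ≤ (1 / 2) ^ l := by positivity
      nlinarith

open Classical in
/-- uniform normality -/
def Unif (Q d : ℕ → ℕ) : Prop := ∀ (l : ℕ) (B D : Fin l → ℕ),
    Tendsto (fun N : ℕ => (∑ n ∈ range N, (if win l n Q = B then
      ((if win l n d = D then (1 : ℝ) else 0) - pr Q D n) else 0)) / N) atTop (𝓝 0)

open Classical in
lemma tendsto_ps {M : ℕ} {Q d : ℕ → ℕ} (hM : ∀ n, Q n ≤ M)
    (hd : ∀ n, d n < Q n) (H : Unif Q d) (l : ℕ) (b : ℝ) :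
    Tendsto (fun N : ℕ => (∑ n ∈ range N, ((if psd Q l (win l n d) n < b then (1 : ℝ) else 0) -
      Fs M Q l n b)) / N) atTop (𝓝 0) := by
  -- extension of words
  let E : (Fin l → ℕ) → ℕ → ℕ := fun B i => if h : i < l then B ⟨i, h⟩ else 0
  have hE : ∀ B, win l 0 (E B) = B := by
    intro B; funext i
    simp [win, E]
  let S : Finset (Fin l → ℕ) := Fintype.piFinset fun _ => range (M + 1)
  have hS : ∀ n, win l n Q ∈ S := by
    intro n
    simp only [S, Fintype.mem_piFinset, mem_range]
    intro i; exact Nat.lt_succ_of_le (hM _)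
  have key : ∀ n, ((if psd Q l (win l n d) n < b then (1 : ℝ) else 0) - Fs M Q l n b) =
      ∑ B ∈ S, ∑ D : Fin l → Fin M,
        (if psd (E B) l (fun i => (D i : ℕ)) 0 < b then (1 : ℝ) else 0) *
        (if win l n Q = B then ((if win l n d = (fun i => (D i : ℕ)) then (1 : ℝ) else 0) -
          pr Q (fun i => (D i : ℕ)) n) else 0) := by
    intro n
    rw [sum_eq_single (win l n Q)]
    · simp only [if_true]
      have hps : ∀ D : Fin l → Fin M, psd (E (win l n Q)) l (fun i => (D i : ℕ)) 0 =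
          psd Q l (fun i => (D i : ℕ)) n := fun D => psd_congr l _ _ _ (hE _)
      simp only [hps, mul_sub, sum_sub_distrib]
      congr 1
      · have hdM : ∀ i, d i < M := fun i => lt_of_lt_of_le (hd i) (hM i)
        rw [sum_eq_single (fun i : Fin l => (⟨d (n + i), hdM _⟩ : Fin M))]
        · have : (fun i : Fin l => ((⟨d (n + i), hdM _⟩ : Fin M) : ℕ)) = win l n d := rfl
          rw [this, if_pos rfl, mul_one]
        · intro D _ hne
          have hne' : ¬ win l n d = fun i => (D i : ℕ) := by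
            intro h
            apply hne
            funext i
            apply Fin.ext
            exact (congrFun h i).symm
          rw [if_neg hne']
          simp
        · intro h; exact absurd (mem_univ _) h
      · unfold Fs
        refine sum_congr rfl fun D _ => ?_
        ring
    · intro B _ hne
      refine sum_eq_zero fun D _ => ?_
      have hne' : ¬ win l n Q = B := Ne.symm hne
      simp only [if_neg hne', mul_zero]
    · intro h; exact absurd (hS n) h
  have h2 : Tendsto (fun N : ℕ => ∑ B ∈ S, ∑ D : Fin l → Fin M,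
      (if psd (E B) l (fun i => (D i : ℕ)) 0 < b then (1 : ℝ) else 0) *
      ((∑ n ∈ range N, (if win l n Q = B then ((if win l n d = (fun i => (D i : ℕ)) then (1 : ℝ)
        else 0) - pr Q (fun i => (D i : ℕ)) n) else 0)) / N)) atTop
      (𝓝 (∑ B ∈ S, ∑ D : Fin l → Fin M,
      (if psd (E B) l (fun i => (D i : ℕ)) 0 < b then (1 : ℝ) else 0) * 0)) :=
    tendsto_finsetSum _ fun B _ => tendsto_finsetSum _ fun D _ =>
      (H l B (fun i => (D i : ℕ))).const_mul _
  simp only [mul_zero, sum_const_zero] at h2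
  refine h2.congr fun N => ?_
  have e1 : ∑ n ∈ range N, ((if psd Q l (win l n d) n < b then (1 : ℝ) else 0) - Fs M Q l n b) =
      ∑ B ∈ S, ∑ D : Fin l → Fin M, ∑ n ∈ range N,
        (if psd (E B) l (fun i => (D i : ℕ)) 0 < b then (1 : ℝ) else 0) *
        (if win l n Q = B then ((if win l n d = (fun i => (D i : ℕ)) then (1 : ℝ) else 0) -
          pr Q (fun i => (D i : ℕ)) n) else 0) := by
    rw [sum_congr rfl fun n _ => key n]
    rw [sum_comm]
    refine sum_congr rfl fun B _ => ?_
    rw [sum_comm]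
  rw [e1, sum_div]
  refine sum_congr rfl fun B _ => ?_
  rw [sum_div]
  refine sum_congr rfl fun D _ => ?_
  rw [← mul_sum, mul_div_assoc]

/-- the remainders `u n` have the digits `d n, d (n + 1), ...` -/
lemma psd_le {Q d : ℕ → ℕ} (hQ : ∀ n, 2 ≤ Q n) {u : ℕ → ℝ} (hu0 : ∀ n, 0 ≤ u n)
    (hu1 : ∀ n, u n ≤ 1) {n0 : ℕ} (hu : ∀ n ≥ n0, u n = (d n + u (n + 1)) / Q n) :
    ∀ l, ∀ n ≥ n0,
    psd Q l (win l n d) n ≤ u n ∧ u n ≤ psd Q l (win l n d) n + (1 / 2) ^ l := by
  intro l
  induction l with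
  | zero => intro n _; simp [psd, hu0, hu1]
  | succ l ih =>
    intro n hn
    have hq : (2 : ℝ) ≤ Q n := by exact_mod_cast hQ n
    have h1 : Fin.tail (win (l + 1) n d) = win l (n + 1) d := by
      funext i
      simp only [Fin.tail, win, Fin.val_succ]
      congr 1; ring
    have h2 : win (l + 1) n d 0 = d n := by simp [win]
    obtain ⟨i1, i2⟩ := ih (n + 1) (by omega)
    unfold psd
    rw [h1, h2, hu n hn]
    constructor
    · exact div_le_div_of_nonneg_right (by linarith) (by linarith)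
    · rw [pow_succ, div_add' _ _ _ (by linarith)]
      refine div_le_div_of_nonneg_right ?_ (by linarith)
      have : (0 : ℝ) ≤ (1 / 2) ^ l := by positivity
      nlinarith

open Classical in
/-- the remainders are uniformly distributed -/
theorem tendsto_remainder {M : ℕ} {Q d : ℕ → ℕ} (hQ : ∀ n, 2 ≤ Q n) (hM : ∀ n, Q n ≤ M)
    (hd : ∀ n, d n < Q n) (H : Unif Q d) {u : ℕ → ℝ} (hu0 : ∀ n, 0 ≤ u n) (hu1 : ∀ n, u n ≤ 1)
    {n0 : ℕ} (hu : ∀ n ≥ n0, u n = (d n + u (n + 1)) / Q n) {b : ℝ} (hb0 : 0 ≤ b) (hb1 : b ≤ 1) :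
    MeanLim (fun n => if u n < b then (1 : ℝ) else 0) b := by
  unfold MeanLim
  rw [Metric.tendsto_atTop]
  intro ε hε
  obtain ⟨l, hl⟩ := exists_pow_lt_of_lt_one (show 0 < ε / 8 by linarith)
    (by norm_num : (1 / 2 : ℝ) < 1)
  set δ : ℝ := (1 / 2) ^ l with hδ
  have hδ0 : 0 ≤ δ := by positivity
  obtain ⟨N1, hN1⟩ := Metric.tendsto_atTop.mp (tendsto_ps hM hd H l b) (ε / 8) (by linarith)
  obtain ⟨N2, hN2⟩ := Metric.tendsto_atTop.mp (tendsto_ps hM hd H l (b - δ)) (ε / 8) (by linarith)
  obtain ⟨N3, hN3⟩ := exists_nat_gt (8 * (n0 : ℝ) / ε)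
  refine ⟨max (max N1 N2) (N3 + 1), fun N hN => ?_⟩
  have hN' : N1 ≤ N ∧ N2 ≤ N ∧ N3 + 1 ≤ N := by
    simp only [ge_iff_le, max_le_iff] at hN
    exact ⟨hN.1.1, hN.1.2, hN.2⟩
  have hNpos : (0 : ℝ) < N := by exact_mod_cast (by omega : 0 < N)
  have h1 := hN1 N hN'.1
  have h2 := hN2 N hN'.2.1
  have h3 : (n0 : ℝ) ≤ ε / 8 * N := by
    have : (N3 : ℝ) < N := by exact_mod_cast (by omega : N3 < N)
    have h3 : 8 * (n0 : ℝ) / ε < N := lt_trans hN3 this
    rw [div_lt_iff₀ hε] at h3
    linarith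
  rw [Real.dist_eq, sub_zero, abs_div, abs_of_pos hNpos, div_lt_iff₀ hNpos, abs_lt] at h1 h2
  -- the exceptional terms
  have hexc : ∑ n ∈ range N, (if n < n0 then (1 : ℝ) else 0) ≤ n0 := by
    rw [sum_boole]
    have : ((range N).filter fun n => n < n0) ⊆ range n0 := by
      intro n hn; rw [mem_filter] at hn; exact mem_range.mpr hn.2
    have := card_le_card this
    rw [card_range] at this
    exact_mod_cast this
  have up : ∀ n, (if u n < b then (1 : ℝ) else 0) ≤
      ((if psd Q l (win l n d) n < b then (1 : ℝ) else 0) - Fs M Q l n b) + (b + δ) +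
        (if n < n0 then (1 : ℝ) else 0) := by
    intro n
    have hF := (Fs_spec hQ hM l n b).2.2
    rw [min_eq_right hb1, max_eq_right hb0, abs_le] at hF
    by_cases hn : n < n0
    · have a1 : (0 : ℝ) ≤ if psd Q l (win l n d) n < b then (1 : ℝ) else 0 := by
        split_ifs <;> norm_num
      rw [if_pos hn]
      split_ifs at a1 ⊢ <;> linarith [hF.2]
    · obtain ⟨j1, j2⟩ := psd_le hQ hu0 hu1 hu l n (not_lt.mp hn)
      rw [if_neg hn]
      by_cases hub : u n < b
      · rw [if_pos hub, if_pos (lt_of_le_of_lt j1 hub)]; linarith [hF.2]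
      · rw [if_neg hub]
        split_ifs <;> linarith [hF.2]
  have lo : ∀ n, ((if psd Q l (win l n d) n < b - δ then (1 : ℝ) else 0) -
      Fs M Q l n (b - δ)) + (b - 2 * δ) - (if n < n0 then (1 : ℝ) else 0) ≤
      (if u n < b then (1 : ℝ) else 0) := by
    intro n
    have hF := (Fs_spec hQ hM l n (b - δ)).2.2
    rw [min_eq_right (by linarith : b - δ ≤ 1), abs_le] at hF
    have hmax : b - δ ≤ max 0 (b - δ) := le_max_right _ _
    have hF1 : b - δ - δ ≤ Fs M Q l n (b - δ) := by linarith [hF.1]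
    by_cases hn : n < n0
    · rw [if_pos hn]
      have a1 : (0 : ℝ) ≤ if u n < b then (1 : ℝ) else 0 := by split_ifs <;> norm_num
      have a2 : (if psd Q l (win l n d) n < b - δ then (1 : ℝ) else 0) ≤ 1 := by
        split_ifs <;> norm_num
      linarith
    · obtain ⟨j1, j2⟩ := psd_le hQ hu0 hu1 hu l n (not_lt.mp hn)
      rw [if_neg hn]
      by_cases hub : u n < b
      · rw [if_pos hub]
        have a2 : (if psd Q l (win l n d) n < b - δ then (1 : ℝ) else 0) ≤ 1 := by
          split_ifs <;> norm_num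
        linarith
      · have : ¬ psd Q l (win l n d) n < b - δ := by
          intro h
          apply hub
          linarith
        rw [if_neg hub, if_neg this]
        linarith
  have up' := sum_le_sum fun n (_ : n ∈ range N) => up n
  have lo' := sum_le_sum fun n (_ : n ∈ range N) => lo n
  rw [sum_add_distrib, sum_add_distrib] at up'
  rw [sum_sub_distrib, sum_add_distrib] at lo'
  simp only [sum_const, card_range, nsmul_eq_mul] at up' lo'
  rw [Real.dist_eq]
  have e : (∑ n ∈ range N, if u n < b then (1 : ℝ) else 0) / N - b =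
      (∑ n ∈ range N, (if u n < b then (1 : ℝ) else 0) - N * b) / N := by
    field_simp
  rw [e, abs_div, abs_of_pos hNpos, div_lt_iff₀ hNpos, abs_lt]
  constructor <;> nlinarith

end Pool.Agent.N252.CS
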