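import Mathlib
import Pool.Agent.N252.CS.Core
import Pool.Agent.N252.CS.Mean

/-!
The digits determine the bases for the sequence `q y`.
-/

open Finset MeasureTheory ProbabilityTheory Filter Topology

namespace Pool.Agent.N252.CS

open Classical in
/-- the indicator of the windows which are too close to the end of a block -/
noncomputable def ph (k l s n : ℕ) : ℝ := if (n / 3 + s) % L k + l + 1 < L k then 0 else 1

lemma ph_nonneg (k l s n : ℕ) : 0 ≤ ph k l s n := by unfold ph; split_ifs <;> norm_num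

/-- number of elements of a residue interval -/
lemma card_mod (L l s : ℕ) (hL : 0 < L) :
    ((range L).filter fun r => ¬ ((r + s) % L + l + 1 < L)).card ≤ l + 1 := by
  have hmaps : ∀ r ∈ (range L).filter (fun r => ¬ ((r + s) % L + l + 1 < L)),
      (r + s) % L ∈ Ico (L - (l + 1)) L := by
    intro r hr
    rw [mem_filter] at hr
    rw [mem_Ico]
    have := Nat.mod_lt (r + s) hL
    omega
  have hinj : Set.InjOn (fun r => (r + s) % L)
      ((range L).filter (fun r => ¬ ((r + s) % L + l + 1 < L)) : Set ℕ) := by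
    intro a ha b hb h
    simp only [coe_filter, mem_range, Set.mem_ofPred_eq] at ha hb
    have h1 : a ≡ b [MOD L] := Nat.ModEq.add_right_cancel' s h
    exact Nat.ModEq.eq_of_lt_of_lt h1 ha.1 hb.1
  have := card_le_card_of_injOn _ hmaps hinj
  rw [Nat.card_Ico] at this
  omega

lemma sum_ph (k l s N : ℕ) : ∑ n ∈ range N, ph k l s n ≤ 3 * (l + 1) * (N / (3 * L k) + 1) := by
  classical
  have hL := L_pos k
  have h := sum_le_of_blocks (g := ph k l s) (ph_nonneg k l s) (T := 3 * L k) (c := 3 * (l + 1))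
    (by omega) ?_ N
  · push_cast at h; exact h
  · intro j
    rw [sum_blocks]
    have e : ∀ i ∈ range (L k), ∑ r ∈ range 3, ph k l s (3 * L k * j + (3 * i + r)) =
        3 * (if ¬ ((i + s) % L k + l + 1 < L k) then (1 : ℝ) else 0) := by
      intro i _
      have e1 : ∀ r ∈ range 3, ph k l s (3 * L k * j + (3 * i + r)) =
          if ¬ ((i + s) % L k + l + 1 < L k) then (1 : ℝ) else 0 := by
        intro r hr
        rw [mem_range] at hr
        unfold ph
        have e2 : ((3 * L k * j + (3 * i + r)) / 3 + s) % L k = (i + s) % L k := by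
          have : (3 * L k * j + (3 * i + r)) / 3 = L k * j + i := by
            have : 3 * L k * j = 3 * (L k * j) := by ring
            omega
          rw [this, add_assoc, Nat.mul_add_mod]
        rw [e2]
        split_ifs <;> rfl
      rw [sum_congr rfl e1, sum_const, card_range]
      simp
    rw [sum_congr rfl e, ← mul_sum, sum_boole]
    have := card_mod (L k) l s hL
    have h2 : (((range (L k)).filter fun r => ¬ ((r + s) % L k + l + 1 < L k)).card : ℝ) ≤
        (l + 1 : ℕ) := by exact_mod_cast this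
    push_cast at h2
    linarith

lemma exists_pow_le {ε : ℝ} (hε : 0 < ε) : ∃ n0 : ℕ, ∀ n ≥ n0, (1 / 2 : ℝ) ^ n ≤ ε := by
  obtain ⟨n0, hn0⟩ := exists_pow_lt_of_lt_one hε (by norm_num : (1 / 2 : ℝ) < 1)
  exact ⟨n0, fun n hn => (pow_le_pow_of_le_one (by norm_num) (by norm_num) hn).trans hn0.le⟩

theorem dec_q {y : ℕ → ZMod 2} (hy : IsCode y) : Dec (q y) := by
  intro l ε hε
  have hQ := two_le_q y
  have hprob := PQ_prob hQ
  -- the level
  obtain ⟨k1, hk1⟩ := exists_pow_le (ε := ε / 8) (by linarith)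
  obtain ⟨k2, hk2⟩ := exists_nat_gt ((l + 1 : ℝ) / (ε / 8))
  obtain ⟨k, hka, hkb⟩ : ∃ k, k1 ≤ k ∧ k2 ≤ k := ⟨max k1 k2, le_max_left _ _, le_max_right _ _⟩
  have hL := L_pos k
  have hLk : (l + 1 : ℝ) / L k ≤ ε / 8 := by
    have h1 : (k2 : ℝ) ≤ L k := by exact_mod_cast hkb.trans (lt_L k).le
    rw [div_le_iff₀ (by exact_mod_cast hL)]
    rw [div_lt_iff₀ (by linarith)] at hk2
    nlinarith
  -- the number of repetitions
  obtain ⟨R1, hR1⟩ := exists_pow_le (ε := ε / 8 / (2 * L k)) (by positivity)
  obtain ⟨R2, hR2⟩ := exists_pow_le (ε := ε / 8) (by linarith)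
  set R := max (max R1 R2) (l + 1) with hR
  have hRl : l + 1 ≤ R := le_max_right _ _
  have hRR1 : R1 ≤ R := (le_max_left _ _).trans (le_max_left _ _)
  have hRR2 : R2 ≤ R := (le_max_right _ _).trans (le_max_left _ _)
  have hLR : L k * 1 ≤ L k * R := Nat.mul_le_mul_left _ (by omega)
  have hLR2 : 1 * R ≤ L k * R := Nat.mul_le_mul_right _ hL
  have hassoc : 6 * L k * R = 6 * (L k * R) := by ring
  refine ⟨6 * L k * R + 3, 3 * (L k + 1), by omega, ?_⟩
  obtain ⟨N0, hN0⟩ := exists_nat_gt (3 * (l + 1 : ℝ) / (ε / 8))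
  refine ⟨N0, fun N hN => ?_⟩
  -- the bound for each window
  have hbound : ∀ n, (PQ (q y)).real {ω | ¬ Det (q y) (3 * (L k + 1)) l
      (win (6 * L k * R + 3) n ω)} ≤ ph k l (L k + 1) n + ε / 8 + ε / 8 + ε / 8 := by
    intro n
    by_cases hph : (n / 3 + (L k + 1)) % L k + l + 1 < L k
    · have h1 : (PQ (q y)).real {ω | ¬ Det (q y) (3 * (L k + 1)) l
          (win (6 * L k * R + 3) n ω)} ≤ (PQ (q y)).real {ω | ¬ Good k R n ω} := by
        refine mreal_mono_ae ?_
        filter_upwards [ae_lt hQ] with ω hω h hg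
        apply h
        have hdet : ∀ n', (∀ i : Fin (6 * L k * R + 3), win (6 * L k * R + 3) n ω i < q y (n' + i)) →
            win l (n' + 3 * (L k + 1)) (q y) = win l (n + 3 * (L k + 1)) (q y) := by
          intro n' hn'
          have := determined hy (by omega) hg (fun i _ => hω _) (n' := n') (l := l)
            (fun i hi => hn' ⟨i, hi⟩) (by rw [← add_assoc] at hph; exact hph)
          funext i
          exact this i i.2
        intro n' n'' h1 h2
        rw [hdet n' h1, hdet n'' h2]
      refine h1.trans ((prob_not_good k R n).trans ?_)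
      have e1 : (1 / 2 : ℝ) ^ (2 * L k * R) ≤ ε / 8 := hR2 _ (by
        have : 2 * L k * R = 2 * (L k * R) := by ring
        omega)
      have e2 : 2 * L k * (1 / 2 : ℝ) ^ R ≤ ε / 8 := by
        have := hR1 R hRR1
        rw [le_div_iff₀ (by positivity)] at this
        linarith
      have e3 : (1 / 2 : ℝ) ^ (2 * k + 6) ≤ ε / 8 := hk1 _ (by omega)
      have := ph_nonneg k l (L k + 1) n
      linarith
    · have : ph k l (L k + 1) n = 1 := by unfold ph; rw [if_neg hph]
      rw [this]
      have := measureReal_le_one (μ := PQ (q y)) (s := {ω | ¬ Det (q y) (3 * (L k + 1)) l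
          (win (6 * L k * R + 3) n ω)})
      linarith
  refine (sum_le_sum fun n _ => hbound n).trans ?_
  rw [sum_add_distrib, sum_add_distrib, sum_add_distrib, sum_const, card_range, nsmul_eq_mul]
  have h1 := sum_ph k l (L k + 1) N
  have h2 : 3 * (l + 1 : ℝ) * (N / (3 * L k) + 1) = (l + 1) / L k * N + 3 * (l + 1) := by
    field_simp
  rw [h2] at h1
  have h3 : (l + 1 : ℝ) / L k * N ≤ ε / 8 * N := mul_le_mul_of_nonneg_right hLk (by positivity)
  have h4 : 3 * (l + 1 : ℝ) ≤ ε / 8 * N := by
    rw [div_lt_iff₀ (by linarith)] at hN0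
    have : (N0 : ℝ) ≤ N := by exact_mod_cast hN
    nlinarith
  linarith

end Pool.Agent.N252.CS
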