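import Mathlib
import Pool.Agent.N252.CS.Mean
import Pool.Agent.N252.CS.Core
import Pool.Agent.Helper179.KSDefs

/-!
The dynamical system generated by a bounded sequence all of whose words have frequencies.
-/

open Finset MeasureTheory Filter Topology BoundedContinuousFunction

namespace Pool.Agent.N252.CS

/-- the orbit closure of the sequence `x0` -/
def Orb (x0 : ℕ → ℕ) : Set (ℕ → ℕ) := closure (Set.range fun n i => x0 (n + i))

def sh (z : ℕ → ℕ) : ℕ → ℕ := fun n => z (n + 1)

lemma continuous_sh : Continuous sh := continuous_pi fun n => continuous_apply (n + 1)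

lemma sh_mem {x0 z : ℕ → ℕ} (hz : z ∈ Orb x0) : sh z ∈ Orb x0 := by
  have h : Set.MapsTo sh (Set.range fun n i => x0 (n + i)) (Set.range fun n i => x0 (n + i)) := by
    rintro _ ⟨n, rfl⟩
    refine ⟨n + 1, ?_⟩
    funext i
    simp only [sh]
    congr 1; ring
  exact h.closure continuous_sh hz

/-- the shift of the orbit closure -/
def T (x0 : ℕ → ℕ) (z : Orb x0) : Orb x0 := ⟨sh z, sh_mem z.2⟩

lemma continuous_T (x0 : ℕ → ℕ) : Continuous (T x0) :=
  Continuous.subtype_mk (continuous_sh.comp continuous_subtype_val) _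

/-- the points of the orbit -/
def pt (x0 : ℕ → ℕ) (n : ℕ) : Orb x0 := ⟨fun i => x0 (n + i), subset_closure ⟨n, rfl⟩⟩

lemma T_pt (x0 : ℕ → ℕ) (n : ℕ) : T x0 (pt x0 n) = pt x0 (n + 1) := by
  apply Subtype.ext
  funext i
  simp only [T, sh, pt]
  congr 1; ring

lemma T_iterate (x0 : ℕ → ℕ) (n : ℕ) : (T x0)^[n] (pt x0 0) = pt x0 n := by
  induction n with
  | zero => rfl
  | succ n ih => rw [Function.iterate_succ_apply', ih, T_pt]

lemma T_iterate_apply (x0 : ℕ → ℕ) (n : ℕ) (z : Orb x0) (i : ℕ) :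
    ((T x0)^[n] z).1 i = z.1 (n + i) := by
  induction n generalizing i with
  | zero => simp
  | succ n ih =>
    rw [Function.iterate_succ_apply']
    change ((T x0)^[n] z).1 (i + 1) = _
    rw [ih, show n + (i + 1) = n + 1 + i by ring]

/-- cylinders -/
def cyl (x0 : ℕ → ℕ) (l : ℕ) (B : Fin l → ℕ) : Set (Orb x0) := {z | ∀ i : Fin l, z.1 i = B i}

lemma isClopen_cyl (x0 : ℕ → ℕ) (l : ℕ) (B : Fin l → ℕ) : IsClopen (cyl x0 l B) := by
  have : cyl x0 l B = ⋂ i : Fin l, (fun z : Orb x0 => z.1 i) ⁻¹' {B i} := by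
    ext z; simp [cyl]
  rw [this]
  refine isClopen_iInter_of_finite fun i => ?_
  exact (isClopen_discrete ({B i} : Set ℕ)).preimage
    ((continuous_apply (i : ℕ)).comp continuous_subtype_val)

lemma pt_mem_cyl {x0 : ℕ → ℕ} {l n : ℕ} {B : Fin l → ℕ} :
    pt x0 n ∈ cyl x0 l B ↔ win l n x0 = B := by
  constructor
  · intro h; funext i; exact h i
  · rintro rfl i; rfl

lemma generate_cyl (x0 : ℕ → ℕ) : (inferInstance : MeasurableSpace (Orb x0)) =
    MeasurableSpace.generateFrom {s | ∃ l B, s = cyl x0 l B} := by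
  apply le_antisymm
  · intro s hs
    obtain ⟨s', hs', rfl⟩ := hs
    have hval : @Measurable _ _ (MeasurableSpace.generateFrom {s | ∃ l B, s = cyl x0 l B}) _
        (Subtype.val : Orb x0 → ℕ → ℕ) := by
      refine @measurable_pi_lambda _ _ _ (MeasurableSpace.generateFrom {s | ∃ l B, s = cyl x0 l B})
        _ _ fun i => ?_
      refine @measurable_to_countable' _ _ _ _ (MeasurableSpace.generateFrom _) _ fun a => ?_
      have : (fun z : Orb x0 => z.1 i) ⁻¹' {a} =
          ⋃ B : {B : Fin (i + 1) → ℕ // B (Fin.last i) = a}, cyl x0 (i + 1) B.1 := by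
        ext z
        simp only [Set.mem_preimage, Set.mem_singleton_iff, Set.mem_iUnion]
        constructor
        · intro h
          exact ⟨⟨fun j => z.1 j, by simpa using h⟩, fun j => rfl⟩
        · rintro ⟨B, hB⟩
          rw [← B.2]; exact hB (Fin.last i)
      rw [this]
      refine MeasurableSet.iUnion fun B => ?_
      exact MeasurableSpace.measurableSet_generateFrom ⟨_, _, rfl⟩
    exact hval hs'
  · refine MeasurableSpace.generateFrom_le ?_
    rintro _ ⟨l, B, rfl⟩
    exact (isClopen_cyl x0 l B).isOpen.measurableSet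

lemma isPiSystem_cyl (x0 : ℕ → ℕ) : IsPiSystem {s | ∃ l B, s = cyl x0 l B} := by
  have key : ∀ l B l' B', l ≤ l' → (cyl x0 l B ∩ cyl x0 l' B').Nonempty →
      cyl x0 l B ∩ cyl x0 l' B' = cyl x0 l' B' := by
    rintro l B l' B' hl ⟨z, h1, h2⟩
    refine Set.inter_eq_right.mpr fun z' hz' i => ?_
    have a1 := h1 i
    have a2 := h2 ⟨i, lt_of_lt_of_le i.2 hl⟩
    have a3 := hz' ⟨i, lt_of_lt_of_le i.2 hl⟩
    rw [a3.trans a2.symm, ← a1]
  rintro _ ⟨l, B, rfl⟩ _ ⟨l', B', rfl⟩ hne
  rcases le_total l l' with h | h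
  · exact ⟨l', B', key l B l' B' h hne⟩
  · rw [Set.inter_comm] at hne ⊢
    exact ⟨l, B, key l' B' l B h hne⟩

section

variable {x0 : ℕ → ℕ}

lemma compact_Orb {M : ℕ} (hM : ∀ n, x0 n ≤ M) : CompactSpace (Orb x0) := by
  refine isCompact_iff_compactSpace.mp ?_
  have hK : IsCompact (Set.pi Set.univ fun _ : ℕ => Set.Iic M) :=
    isCompact_univ_pi fun _ => (Set.finite_Iic M).isCompact
  refine hK.of_isClosed_subset isClosed_closure ?_
  refine closure_minimal ?_ (isClosed_set_pi fun i _ => isClosed_discrete _)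
  rintro _ ⟨n, rfl⟩ i _
  exact hM _

/-- empirical measures -/
noncomputable def emp (x0 : ℕ → ℕ) (N : ℕ) : ProbabilityMeasure (Orb x0) :=
  ⟨((N + 1 : ℕ) : ENNReal)⁻¹ • ∑ n ∈ range (N + 1), Measure.dirac (pt x0 n), ⟨by
    rw [Measure.smul_apply, Measure.finsetSum_apply]
    simp only [measure_univ, sum_const, card_range, smul_eq_mul, nsmul_eq_mul, mul_one]
    exact ENNReal.inv_mul_cancel (by simp) (ENNReal.natCast_ne_top _)⟩⟩

lemma integral_emp (N : ℕ) {F : Orb x0 → ℝ} (hF : Continuous F) :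
    ∫ z, F z ∂(emp x0 N : Measure (Orb x0)) = (∑ n ∈ range (N + 1), F (pt x0 n)) / (N + 1 : ℕ) := by
  have : (emp x0 N : Measure (Orb x0)) =
    ((N + 1 : ℕ) : ENNReal)⁻¹ • ∑ n ∈ range (N + 1), Measure.dirac (pt x0 n) := rfl
  rw [this, integral_smul_measure, integral_finsetSum_measure]
  · simp only [integral_dirac, ENNReal.toReal_inv, ENNReal.toReal_natCast, smul_eq_mul]
    rw [div_eq_inv_mul]
  · intro i _
    exact integrable_dirac' hF.stronglyMeasurable (by simp)

variable {M : ℕ} (hM : ∀ n, x0 n ≤ M)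
  (hfreq : ∀ (l : ℕ) (B : Fin l → ℕ), ∃ v, MeanLim (fun n => open Classical in
    if win l n x0 = B then (1 : ℝ) else 0) v)

include hM

omit hM in
lemma continuous_integral (F : Orb x0 →ᵇ ℝ) :
    Continuous fun ν : ProbabilityMeasure (Orb x0) => ∫ z, F z ∂(ν : Measure (Orb x0)) := by
  rw [continuous_iff_continuousAt]
  intro ν
  exact (ProbabilityMeasure.tendsto_iff_forall_integral_tendsto.mp (tendsto_id (x := 𝓝 ν))) F

/-- averages determine the integrals with respect to the cluster points -/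
lemma cluster {ν : ProbabilityMeasure (Orb x0)} (hν : MapClusterPt ν atTop (emp x0))
    {F : Orb x0 → ℝ} (hF : Continuous F) {v : ℝ} (h : MeanLim (fun n => F (pt x0 n)) v) :
    ∫ z, F z ∂(ν : Measure (Orb x0)) = v := by
  have := compact_Orb hM
  have h1 := hν.tendsto_comp ((continuous_integral (mkOfCompact ⟨F, hF⟩)).tendsto ν)
  have h2 : Tendsto ((fun ν : ProbabilityMeasure (Orb x0) =>
      ∫ z, (mkOfCompact ⟨F, hF⟩) z ∂(ν : Measure (Orb x0))) ∘ (emp x0)) atTop (𝓝 v) := by
    have h3 := (show Tendsto _ atTop (𝓝 v) from h).comp (tendsto_add_atTop_nat 1)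
    refine h3.congr fun N => ?_
    simp only [Function.comp_def, mkOfCompact_apply, ContinuousMap.coe_mk]
    rw [integral_emp N hF]
  have h4 : (𝓝 (∫ z, (mkOfCompact ⟨F, hF⟩) z ∂(ν : Measure (Orb x0))) ⊓ 𝓝 v).NeBot := by
    refine NeBot.mono h1 ?_
    exact inf_le_inf_left _ h2
  exact eq_of_nhds_neBot h4

lemma cluster_clopen {ν : ProbabilityMeasure (Orb x0)} (hν : MapClusterPt ν atTop (emp x0))
    {s : Set (Orb x0)} (hs : IsClopen s) {v : ℝ}
    (h : MeanLim (fun n => open Classical in if pt x0 n ∈ s then (1 : ℝ) else 0) v) :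
    (ν : Measure (Orb x0)).real s = v := by
  classical
  have hF : Continuous (s.indicator fun _ => (1 : ℝ)) :=
    continuous_const.indicator fun a ha => by
      rw [hs.frontier_eq] at ha; exact absurd ha (Set.notMem_empty _)
  have := cluster hM hν hF (h.congr fun n => by rw [Set.indicator_apply])
  rw [← this, integral_indicator_const _ hs.isOpen.measurableSet]
  simp

include hfreq

/-- the measure generated by the sequence -/
theorem exists_measure : ∃ μ : ProbabilityMeasure (Orb x0),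
    (∀ F : Orb x0 → ℝ, Continuous F →
      MeanLim (fun n => F (pt x0 n)) (∫ z, F z ∂(μ : Measure (Orb x0)))) ∧
    (∀ (l : ℕ) (B : Fin l → ℕ) (v : ℝ), MeanLim (fun n => open Classical in
      if win l n x0 = B then (1 : ℝ) else 0) v → (μ : Measure (Orb x0)).real (cyl x0 l B) = v) ∧
    MeasurePreserving (T x0) (μ : Measure (Orb x0)) (μ : Measure (Orb x0)) := by
  classical
  have := compact_Orb hM
  have hcyl : ∀ ν : ProbabilityMeasure (Orb x0), MapClusterPt ν atTop (emp x0) →
      ∀ (l : ℕ) (B : Fin l → ℕ) (v : ℝ), MeanLim (fun n => if win l n x0 = B then (1 : ℝ) else 0) v →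
      (ν : Measure (Orb x0)).real (cyl x0 l B) = v := by
    intro ν hν l B v hv
    refine cluster_clopen hM hν (isClopen_cyl x0 l B) (hv.congr fun n => ?_)
    simp only [pt_mem_cyl]
  obtain ⟨μ, hμ⟩ : ∃ μ, MapClusterPt μ atTop (emp x0) :=
    exists_clusterPt_of_compactSpace (map (emp x0) atTop)
  have huniq : ∀ ν, MapClusterPt ν atTop (emp x0) → ν = μ := by
    intro ν hν
    have i1 : IsProbabilityMeasure (ν : Measure (Orb x0)) := ν.2
    have i2 : IsProbabilityMeasure (μ : Measure (Orb x0)) := μ.2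
    apply Subtype.ext
    change (ν : Measure (Orb x0)) = (μ : Measure (Orb x0))
    refine ext_of_generate_finite {s | ∃ l B, s = cyl x0 l B} (generate_cyl x0)
      (isPiSystem_cyl x0) ?_ (by simp)
    rintro _ ⟨l, B, rfl⟩
    obtain ⟨v, hv⟩ := hfreq l B
    have h1 := hcyl ν hν l B v hv
    have h2 := hcyl μ hμ l B v hv
    rw [← h2] at h1
    exact (ENNReal.toReal_eq_toReal_iff' (measure_ne_top _ _) (measure_ne_top _ _)).mp h1
  have htend : Tendsto (emp x0) atTop (𝓝 μ) := tendsto_nhds_of_unique_mapClusterPt huniq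
  refine ⟨μ, ?_, hcyl μ hμ, ?_⟩
  · intro F hF
    have h1 := ProbabilityMeasure.tendsto_iff_forall_integral_tendsto.mp htend
      (mkOfCompact ⟨F, hF⟩)
    simp only [mkOfCompact_apply, ContinuousMap.coe_mk] at h1
    unfold MeanLim
    refine (tendsto_add_atTop_iff_nat 1).mp ?_
    refine h1.congr fun N => ?_
    rw [integral_emp N hF]
  · refine ⟨(continuous_T x0).measurable, ?_⟩
    refine ext_of_generate_finite {s | ∃ l B, s = cyl x0 l B} (generate_cyl x0)
      (isPiSystem_cyl x0) ?_ ?_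
    · rintro _ ⟨l, B, rfl⟩
      obtain ⟨v, hv⟩ := hfreq l B
      rw [Measure.map_apply (continuous_T x0).measurable (isClopen_cyl x0 l B).isOpen.measurableSet]
      have h1 := hcyl μ hμ l B v hv
      have h2 := cluster_clopen hM hμ ((isClopen_cyl x0 l B).preimage (continuous_T x0)) (v := v)
        (hv.shift.congr fun n => by
          simp only [Set.mem_preimage, T_pt, pt_mem_cyl])
      rw [← h1] at h2
      exact (ENNReal.toReal_eq_toReal_iff' (measure_ne_top _ _) (measure_ne_top _ _)).mp h2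
    · rw [Measure.map_apply (continuous_T x0).measurable MeasurableSet.univ]
      simp

end

/-- neighbourhoods contain cylinders -/
lemma exists_cyl {x0 : ℕ → ℕ} {U : Set (Orb x0)} (hU : IsOpen U) (hne : U.Nonempty) :
    ∃ l n, cyl x0 l (win l n x0) ⊆ U := by
  obtain ⟨V, hV, rfl⟩ := hU
  obtain ⟨z, hz⟩ := hne
  have hzV : z.1 ∈ V := hz
  -- a point of the orbit
  obtain ⟨w, hwV, n, rfl⟩ := mem_closure_iff.mp z.2 V hV hzV
  obtain ⟨I, u, h1, h2⟩ := isOpen_pi_iff.mp hV _ hwV
  refine ⟨I.sup id + 1, n, fun z' hz' => h2 fun i hi => ?_⟩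
  have hi' : i < I.sup id + 1 := by
    have : id i ≤ I.sup id := Finset.le_sup hi
    simp only [id] at this
    omega
  have := hz' ⟨i, hi'⟩
  simp only [win] at this
  rw [this]
  exact (h1 i hi).2

end Pool.Agent.N252.CS
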