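import Mathlib
import Pool.Agent.N252.CS.DecQ
import Pool.Agent.N252.CS.Count

/-!
The frequencies of the words of the sequence `q y`.
-/

open Finset MeasureTheory Filter Topology

namespace Pool.Agent.N252.CS

/-- all blocks are equidistributed -/
def Equi (y : ℕ → ZMod 2) : Prop := ∀ k, ∀ w ∈ Cf k,
    MeanLim (fun j => open Classical in if blk k j y = w then (1 : ℝ) else 0) ((Cf k).card : ℝ)⁻¹

theorem exists_equi : ∃ y, IsCode y ∧ Equi y := by
  classical
  obtain ⟨y, hy, h⟩ := exists_equidistributed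
  refine ⟨y, hy, fun k w hw => ?_⟩
  have := h k w hw
  refine this.congr fun N => ?_
  rw [sum_boole]

/-- extension of a block by zero -/
noncomputable def lift {k : ℕ} (w : Fin (L k) → ZMod 2) (i : ℕ) : ZMod 2 :=
  if h : i < L k then w ⟨i, h⟩ else 0

lemma q_loc (y : ℕ → ZMod 2) (k j : ℕ) {s : ℕ} (hs : s / 3 + 1 < L k) :
    q y (3 * L k * j + s) = q (lift (blk k j y)) s := by
  have h1 : (3 * L k * j + s) % 3 = s % 3 := by
    rw [show 3 * L k * j + s = 3 * (L k * j) + s by ring, Nat.mul_add_mod]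
  have h2 : (3 * L k * j + s) / 3 = j * L k + s / 3 := by
    rw [show 3 * L k * j + s = 3 * (j * L k) + s by ring, Nat.mul_add_div (by norm_num)]
  have h3 : lift (blk k j y) (s / 3) = y (j * L k + s / 3) := by
    unfold lift
    rw [dif_pos (by omega)]; rfl
  unfold q
  rw [h1, h2, t_block k j hs, h3]

lemma win_loc (y : ℕ → ZMod 2) (k j : ℕ) {l s : ℕ} (hs : s / 3 + l + 1 < L k) :
    win l (3 * L k * j + s) (q y) = win l s (q (lift (blk k j y))) := by
  funext i
  unfold win
  rw [add_assoc]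
  refine q_loc y k j ?_
  have := i.2
  omega

section

variable {y : ℕ → ZMod 2} (hy : IsCode y) (he : Equi y)

include hy he

lemma mean_blk (k : ℕ) (Ψ : (Fin (L k) → ZMod 2) → ℝ) :
    ∃ v, MeanLim (fun j => Ψ (blk k j y)) v := by
  classical
  refine ⟨_, ((MeanLim.sum (Cf k) fun w hw => (he k w hw).const_mul (Ψ w))).congr fun j => ?_⟩
  simp only [mul_ite, mul_one, mul_zero]
  rw [sum_ite_eq]
  rw [if_pos (blk_mem hy j)]

/-- the averages of functions of the windows converge -/
theorem exists_mean (l : ℕ) (Φ : (Fin l → ℕ) → ℝ) (hΦ : ∀ w, |Φ w| ≤ 1) :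
    ∃ v, MeanLim (fun n => Φ (win l n (q y))) v := by
  classical
  refine exists_meanLim fun ε hε => ?_
  obtain ⟨k, hk⟩ := exists_nat_gt ((l + 1 : ℝ) / (ε / 2))
  have hL := L_pos k
  have hLk : (l + 1 : ℝ) / L k ≤ ε / 2 := by
    have h1 : (k : ℝ) ≤ L k := by exact_mod_cast (lt_L k).le
    rw [div_le_iff₀ (by exact_mod_cast hL)]
    rw [div_lt_iff₀ (by linarith)] at hk
    nlinarith
  -- the approximation
  let g' : ℕ → ℝ := fun n => if (n / 3 + 0) % L k + l + 1 < L k then Φ (win l n (q y)) else 0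
  have hg'1 : ∀ n, |g' n| ≤ 1 := by
    intro n
    simp only [g']
    split_ifs
    · exact hΦ _
    · simp
  have hblocks : ∀ j, ∑ r ∈ range (3 * L k), g' (3 * L k * j + r) = ∑ r ∈ range (3 * L k),
      if (r / 3 + l + 1 < L k) then Φ (win l r (q (lift (blk k j y)))) else 0 := by
    intro j
    refine sum_congr rfl fun r hr => ?_
    rw [mem_range] at hr
    have h1 : ((3 * L k * j + r) / 3 + 0) % L k = r / 3 := by
      rw [add_zero, show 3 * L k * j + r = 3 * (L k * j) + r by ring,
        Nat.mul_add_div (by norm_num), Nat.mul_add_mod, Nat.mod_eq_of_lt (by omega)]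
    simp only [g', h1]
    split_ifs with h
    · rw [win_loc y k j h]
    · rfl
  obtain ⟨β, hβ⟩ := mean_blk hy he k (fun w => ∑ r ∈ range (3 * L k),
      if (r / 3 + l + 1 < L k) then Φ (win l r (q (lift w))) else 0)
  have hg' : MeanLim g' (β / (3 * L k : ℕ)) :=
    MeanLim.of_blocks (by omega) hg'1 (hβ.congr fun j => (hblocks j).symm)
  refine ⟨g', _, hg', ?_⟩
  obtain ⟨N0, hN0⟩ := exists_nat_gt (3 * (l + 1 : ℝ) / (ε / 2))
  refine ⟨N0, fun N hN => ?_⟩
  have h1 : ∀ n, |Φ (win l n (q y)) - g' n| ≤ ph k l 0 n := by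
    intro n
    simp only [g']
    unfold ph
    split_ifs
    · simp
    · simpa using hΦ _
  refine (sum_le_sum fun n _ => h1 n).trans ((sum_ph k l 0 N).trans ?_)
  have h2 : 3 * (l + 1 : ℝ) * (N / (3 * L k) + 1) = (l + 1) / L k * N + 3 * (l + 1) := by
    field_simp
  rw [h2]
  have h3 : (l + 1 : ℝ) / L k * N ≤ ε / 2 * N := mul_le_mul_of_nonneg_right hLk (by positivity)
  have h4 : 3 * (l + 1 : ℝ) ≤ ε / 2 * N := by
    rw [div_lt_iff₀ (by linarith)] at hN0
    have : (N0 : ℝ) ≤ N := by exact_mod_cast hN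
    nlinarith
  linarith

open Classical in
/-- every word that occurs has positive frequency -/
theorem freq_pos {l n0 : ℕ} {v : ℝ}
    (hv : MeanLim (fun n => if win l n (q y) = win l n0 (q y) then (1 : ℝ) else 0) v) : 0 < v := by
  have hL' : ∃ k, n0 + l + 2 < L k := ⟨n0 + l + 2, lt_L _⟩
  obtain ⟨k, hk⟩ := hL'
  have hL := L_pos k
  let g : ℕ → ℝ := fun n => if n % (3 * L k) = n0 then
    (if blk k (n / (3 * L k)) y = blk k 0 y then (1 : ℝ) else 0) else 0
  have hg1 : ∀ n, |g n| ≤ 1 := by
    intro n; simp only [g]; split_ifs <;> norm_num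
  have hn0 : n0 < 3 * L k := by omega
  have hg : MeanLim g (((Cf k).card : ℝ)⁻¹ / (3 * L k : ℕ)) := by
    refine MeanLim.of_blocks (T := 3 * L k) (by omega) hg1 ((he k _ (blk_mem hy 0)).congr fun j => ?_)
    have e : ∀ r ∈ range (3 * L k), g (3 * L k * j + r) = if r = n0 then
        (if blk k j y = blk k 0 y then (1 : ℝ) else 0) else 0 := by
      intro r hr
      rw [mem_range] at hr
      simp only [g]
      rw [Nat.mul_add_mod, Nat.mod_eq_of_lt hr, Nat.mul_add_div (by omega), Nat.div_eq_of_lt hr,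
        add_zero]
    rw [sum_congr rfl e, sum_ite_eq', if_pos (mem_range.mpr hn0)]
  have hle : ∀ n, g n ≤ if win l n (q y) = win l n0 (q y) then (1 : ℝ) else 0 := by
    intro n
    simp only [g]
    by_cases h1 : n % (3 * L k) = n0
    · by_cases h2 : blk k (n / (3 * L k)) y = blk k 0 y
      · rw [if_pos h1, if_pos h2, if_pos]
        have hs : n0 / 3 + l + 1 < L k := by omega
        have e1 : n = 3 * L k * (n / (3 * L k)) + n0 := by
          conv_lhs => rw [← Nat.div_add_mod n (3 * L k), h1]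
        rw [e1, win_loc y k _ hs]
        have e2 := win_loc y k 0 hs
        rw [mul_zero, zero_add] at e2
        rw [e2, ← h2]
      · rw [if_pos h1, if_neg h2]; split_ifs <;> norm_num
    · rw [if_neg h1]; split_ifs <;> norm_num
  refine lt_of_lt_of_le ?_ (hg.le hv hle)
  have h0 : 0 < (Cf k).card := card_pos.mpr ⟨_, blk_mem hy 0⟩
  have h1 : (0 : ℝ) < (Cf k).card := by exact_mod_cast h0
  have h2 : (0 : ℝ) < (3 * L k : ℕ) := by exact_mod_cast (by omega : 0 < 3 * L k)
  exact div_pos (inv_pos.mpr h1) h2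

open Classical in
/-- the words of length `6 L k` have frequency at most `1 / |C k|` -/
theorem freq_le (k : ℕ) (B : Fin (6 * L k) → ℕ) {v : ℝ}
    (hv : MeanLim (fun n => if win (6 * L k) n (q y) = B then (1 : ℝ) else 0) v) :
    v ≤ ((Cf k).card : ℝ)⁻¹ := by
  have hL := L_pos k
  -- the block read off the word
  let W : ℕ → (Fin (L k) → ZMod 2) := fun r i =>
    if h : 3 * (L k + i) + 1 - r < 6 * L k then (if B ⟨3 * (L k + i) + 1 - r, h⟩ = 2 then 0 else 1)
    else 0
  have hW : ∀ n, win (6 * L k) n (q y) = B →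
      blk k (n / (3 * L k) + 1) y = W (n % (3 * L k)) := by
    intro n h
    funext i
    have hi := i.2
    have hr : n % (3 * L k) < 3 * L k := Nat.mod_lt _ (by omega)
    have hdm := Nat.div_add_mod n (3 * L k)
    set J := n / (3 * L k)
    set r := n % (3 * L k)
    have h1 : 3 * (L k + i) + 1 - r < 6 * L k := by omega
    simp only [W]
    rw [dif_pos h1, ← h]
    unfold win blk
    simp only
    have e1 : n + (3 * (L k + ↑i) + 1 - r) = 3 * ((J + 1) * L k + i) + 1 := by
      have : 3 * L k * J = 3 * (J * L k) := by ring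
      have h2 : (J + 1) * L k = J * L k + L k := by ring
      rw [h2]
      omega
    rw [e1, q1]
    have hz : ∀ x : ZMod 2, x ≠ 0 → x = 1 := by decide
    by_cases h0 : y ((J + 1) * L k + i) = 0
    · rw [if_pos h0, if_pos rfl, h0]
    · rw [if_neg h0, if_neg (by norm_num), hz _ h0]
  -- the dominating function
  let g : ℕ → ℝ := fun n => ∑ r ∈ range (3 * L k), if n % (3 * L k) = r then
    (if blk k (n / (3 * L k) + 1) y = W r then (1 : ℝ) else 0) else 0
  have hgr : ∀ r ∈ range (3 * L k), ∃ v, MeanLim (fun n => if n % (3 * L k) = r then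
      (if blk k (n / (3 * L k) + 1) y = W r then (1 : ℝ) else 0) else 0) v ∧
      v ≤ ((Cf k).card : ℝ)⁻¹ / (3 * L k : ℕ) := by
    intro r hr
    rw [mem_range] at hr
    have hbl : ∀ j, ∑ s ∈ range (3 * L k), (if (3 * L k * j + s) % (3 * L k) = r then
        (if blk k ((3 * L k * j + s) / (3 * L k) + 1) y = W r then (1 : ℝ) else 0) else 0) =
        (if blk k (j + 1) y = W r then (1 : ℝ) else 0) := by
      intro j
      have e : ∀ s ∈ range (3 * L k), (if (3 * L k * j + s) % (3 * L k) = r then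
        (if blk k ((3 * L k * j + s) / (3 * L k) + 1) y = W r then (1 : ℝ) else 0) else 0) =
        if s = r then (if blk k (j + 1) y = W r then (1 : ℝ) else 0) else 0 := by
        intro s hs
        rw [mem_range] at hs
        rw [Nat.mul_add_mod, Nat.mod_eq_of_lt hs, Nat.mul_add_div (by omega), Nat.div_eq_of_lt hs,
          add_zero]
      rw [sum_congr rfl e, sum_ite_eq', if_pos (mem_range.mpr hr)]
    have hb1 : ∀ n, |(if n % (3 * L k) = r then
      (if blk k (n / (3 * L k) + 1) y = W r then (1 : ℝ) else 0) else 0)| ≤ 1 := by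
      intro n; split_ifs <;> norm_num
    by_cases hw : W r ∈ Cf k
    · exact ⟨_, MeanLim.of_blocks (T := 3 * L k) (by omega) hb1 (((he k _ hw).shift).congr fun j => (hbl j).symm),
        le_rfl⟩
    · have h0 : MeanLim (fun _ : ℕ => (0 : ℝ)) 0 := by
        unfold MeanLim; simp
      refine ⟨_, MeanLim.of_blocks (T := 3 * L k) (by omega) hb1 (h0.congr fun j => ?_), ?_⟩
      · rw [hbl, if_neg]
        intro h
        exact hw (h ▸ blk_mem hy _)
      · rw [zero_div]; positivity
  choose! vr hvr1 hvr2 using hgr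
  have hg : MeanLim g (∑ r ∈ range (3 * L k), vr r) := MeanLim.sum _ hvr1
  have hle : ∀ n, (if win (6 * L k) n (q y) = B then (1 : ℝ) else 0) ≤ g n := by
    intro n
    simp only [g]
    rw [sum_ite_eq, if_pos (mem_range.mpr (Nat.mod_lt _ (by omega)))]
    by_cases h : win (6 * L k) n (q y) = B
    · rw [if_pos h, if_pos (hW n h)]
    · rw [if_neg h]; split_ifs <;> norm_num
  refine (hv.le hg hle).trans ((sum_le_sum hvr2).trans ?_)
  rw [sum_const, card_range, nsmul_eq_mul]
  have : ((3 * L k : ℕ) : ℝ) ≠ 0 := by positivity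
  rw [mul_div_cancel₀]
  exact this

end

end Pool.Agent.N252.CS
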