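import Mathlib
import Pool.Agent.N252.CS.Dyn
import Pool.Agent.N252.CS.Freq
import Pool.Agent.Helper179.KSLemmas

/-!
The entropy is positive.
-/

open Finset MeasureTheory Filter Topology
open Pool.Agent.Helper179.KS

namespace Pool.Agent.N252.CS

lemma shannon_ge {X ι : Type*} [MeasurableSpace X] [Fintype ι] [MeasurableSpace ι]
    [MeasurableSingletonClass ι] (μ : Measure X) [IsProbabilityMeasure μ] {P : X → ι}
    (hP : Measurable P) {δ : ℝ} (h : ∀ i, μ.real (P ⁻¹' {i}) ≤ δ) :
    -Real.log δ ≤ shannonEntropy μ P := by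
  unfold shannonEntropy
  have h1 : ∑ i, μ.real (P ⁻¹' {i}) = 1 := by
    rw [← measureReal_biUnion_finset]
    · have : (⋃ i ∈ (univ : Finset ι), P ⁻¹' {i}) = Set.univ := by
        ext x; simp
      rw [this]; simp
    · intro i _ j _ hij
      refine Set.disjoint_left.mpr fun x h1 h2 => hij ?_
      exact h1.symm.trans h2
    · intro i _
      exact hP (measurableSet_singleton i)
  calc -Real.log δ = ∑ i, μ.real (P ⁻¹' {i}) * (-Real.log δ) := by
        rw [← sum_mul, h1, one_mul]
    _ ≤ ∑ i, Real.negMulLog (μ.real (P ⁻¹' {i})) := by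
      refine sum_le_sum fun i _ => ?_
      unfold Real.negMulLog
      rcases (measureReal_nonneg (μ := μ) (s := P ⁻¹' {i})).eq_or_lt with h0 | h0
      · rw [← h0]; simp
      · have := Real.log_le_log h0 (h i)
        nlinarith

lemma Orb_le {x0 : ℕ → ℕ} {M : ℕ} (hM : ∀ n, x0 n ≤ M) {z : ℕ → ℕ} (hz : z ∈ Orb x0) (i : ℕ) :
    z i ≤ M := by
  have h : Orb x0 ⊆ {z | z i ≤ M} := by
    refine closure_minimal ?_ ?_
    · rintro _ ⟨n, rfl⟩; exact hM _
    · exact isClosed_le (continuous_apply i) continuous_const
  exact h hz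

/-- the entropy of the system generated by `q y` -/
theorem entropy_pos {y : ℕ → ZMod 2} (hy : IsCode y) (he : Equi y)
    (μ : Measure (Orb (q y))) [IsProbabilityMeasure μ]
    (hμ : ∀ (l : ℕ) (B : Fin l → ℕ) (v : ℝ), MeanLim (fun n => open Classical in
      if win l n (q y) = B then (1 : ℝ) else 0) v → μ.real (cyl (q y) l B) = v) :
    0 < ksEntropy μ (T (q y)) := by
  classical
  let P : Orb (q y) → Fin 513 := fun z => Fin.ofNat 513 (z.1 0)
  have hP : Measurable P := by
    have h1 : Continuous (fun z : Orb (q y) => z.1 0) :=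
      (continuous_apply 0).comp continuous_subtype_val
    have h2 : Continuous (fun n : ℕ => Fin.ofNat 513 n) := continuous_of_discreteTopology
    exact (h2.comp h1).measurable
  have hH : ∀ k, (L k : ℝ) / 2 * Real.log 2 ≤
      shannonEntropy μ (itinerary (T (q y)) P (6 * L k)) := by
    intro k
    refine (card_ge k).trans ?_
    have hc : (0 : ℝ) < (Cf k).card := by
      exact_mod_cast card_pos.mpr ⟨_, blk_mem hy 0⟩
    have := shannon_ge μ (P := itinerary (T (q y)) P (6 * L k))
      (δ := ((Cf k).card : ℝ)⁻¹) (measurable_itinerary (continuous_T _).measurable hP _) ?_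
    · rwa [Real.log_inv, neg_neg] at this
    · intro w
      have hsub : itinerary (T (q y)) P (6 * L k) ⁻¹' {w} =
          cyl (q y) (6 * L k) (fun i => (w i : ℕ)) := by
        ext z
        simp only [Set.mem_preimage, Set.mem_singleton_iff, cyl, Set.mem_ofPred_eq]
        have hval : ∀ j : ℕ, ((P ((T (q y))^[j] z) : Fin 513) : ℕ) = z.1 j := by
          intro j
          simp only [P]
          rw [T_iterate_apply, add_zero, Fin.val_ofNat]
          exact Nat.mod_eq_of_lt (by have := Orb_le (q_le y) z.2 j; omega)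
        constructor
        · intro h i
          rw [← h]; exact (hval i).symm
        · intro h
          funext i
          apply Fin.ext
          rw [← h i]; exact hval i
      rw [hsub]
      obtain ⟨v, hv⟩ := exists_mean hy he (6 * L k)
        (fun B => if B = (fun i => (w i : ℕ)) then (1 : ℝ) else 0)
        (fun B => by split_ifs <;> norm_num)
      rw [hμ _ _ v hv]
      exact freq_le hy he k _ hv
  have hlog : 0 < Real.log 2 := Real.log_pos (by norm_num)
  have hpart : ((Real.log 2 / 12 : ℝ) : EReal) ≤ partitionEntropy μ (T (q y)) P := by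
    unfold partitionEntropy
    refine le_limsup_of_frequently_le' ?_
    rw [frequently_atTop]
    intro a
    refine ⟨6 * L a, by have := lt_L a; omega, ?_⟩
    rw [EReal.coe_le_coe_iff]
    have h1 := hH a
    have h2 : (0 : ℝ) < L a := by exact_mod_cast L_pos a
    push_cast
    rw [le_div_iff₀ (by positivity)]
    linarith
  refine lt_of_lt_of_le ?_ (hpart.trans ?_)
  · exact_mod_cast (by positivity : 0 < Real.log 2 / 12)
  · unfold ksEntropy
    exact le_iSup_of_le 513 (le_iSup_of_le P (le_iSup_of_le hP le_rfl))

end Pool.Agent.N252.CS
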