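import Mathlib
import Pool.Agent.N252.CS.DN
import Pool.Agent.N252.CS.Freq
import Pool.Agent.N252.CS.DecQ

/-!
From normality to uniform normality and distribution normality.
-/

open Finset Filter Topology

namespace Pool.Agent.N252.CS

lemma tendsto_div_zero (C : ℝ) : Tendsto (fun N : ℕ => C / (N : ℝ)) atTop (𝓝 0) :=
  tendsto_const_div_atTop_nhds_zero_nat C

lemma tendsto_zero_of_bdd {f : ℕ → ℝ} {C : ℝ} (h : ∀ N, |f N| ≤ C) :
    Tendsto (fun N : ℕ => f N / N) atTop (𝓝 0) := by
  refine squeeze_zero_norm (fun N => ?_) (tendsto_div_zero C)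
  rw [Real.norm_eq_abs, abs_div, Nat.abs_cast]
  exact div_le_div_of_nonneg_right (h N) (Nat.cast_nonneg N)

/-- the averages of the differences tend to zero if the quotients tend to one -/
lemma diff_of_ratio {occ prf : ℕ → ℝ} (p0 : ∀ n, 0 ≤ prf n)
    (p1 : ∀ n, prf n ≤ 1) {cN SN : ℕ → ℝ} {C : ℝ}
    (h1 : ∀ N, |cN N - ∑ n ∈ range N, occ n| ≤ C) (h2 : ∀ N, |SN N - ∑ n ∈ range N, prf n| ≤ C)
    (H : Tendsto SN atTop atTop → Tendsto (fun N => cN N / SN N) atTop (𝓝 1))
    (hocc : ∀ n, prf n = 0 → occ n = 0) {c : ℝ} (hc : 0 < c) (hlow : ∀ n, prf n ≠ 0 → c ≤ prf n) :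
    Tendsto (fun N : ℕ => (∑ n ∈ range N, (occ n - prf n)) / N) atTop (𝓝 0) := by
  have hC : 0 ≤ C := (abs_nonneg _).trans (h1 0)
  by_cases hS : Tendsto SN atTop atTop
  · have h3 := H hS
    have hb : ∀ N : ℕ, |SN N / N| ≤ 1 + C := by
      intro N
      rcases Nat.eq_zero_or_pos N with rfl | hN
      · simp; linarith
      · have hN' : (1 : ℝ) ≤ N := by exact_mod_cast hN
        have h4 : |∑ n ∈ range N, prf n| ≤ N := by
          rw [abs_of_nonneg (sum_nonneg fun n _ => p0 n)]
          calc ∑ n ∈ range N, prf n ≤ ∑ n ∈ range N, 1 := sum_le_sum fun n _ => p1 n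
            _ = N := by simp
        have h5 := h2 N
        rw [abs_div, Nat.abs_cast, div_le_iff₀ (by linarith)]
        rw [abs_le] at h4 h5 ⊢
        constructor <;> nlinarith [h4.1, h4.2, h5.1, h5.2]
    have h5 : Tendsto (fun N : ℕ => (cN N / SN N - 1) * (SN N / N)) atTop (𝓝 0) := by
      have h6 : Tendsto (fun N : ℕ => cN N / SN N - 1) atTop (𝓝 0) := by
        simpa using h3.sub_const 1
      refine squeeze_zero_norm (a := fun N => |cN N / SN N - 1| * (1 + C)) (fun N => ?_) ?_
      · rw [Real.norm_eq_abs, abs_mul]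
        exact mul_le_mul_of_nonneg_left (hb N) (abs_nonneg _)
      · have := (h6.abs).mul_const (1 + C)
        simpa using this
    have h6 : Tendsto (fun N : ℕ => (cN N - SN N) / N) atTop (𝓝 0) := by
      refine h5.congr' ?_
      filter_upwards [hS.eventually_gt_atTop 0] with N hN
      field_simp
    have h7 : Tendsto (fun N : ℕ => ((∑ n ∈ range N, (occ n - prf n)) - (cN N - SN N)) / N)
        atTop (𝓝 0) := by
      refine tendsto_zero_of_bdd (C := 2 * C) fun N => ?_
      rw [sum_sub_distrib]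
      have a1 := h1 N
      have a2 := h2 N
      rw [abs_le] at a1 a2 ⊢
      constructor <;> linarith [a1.1, a1.2, a2.1, a2.2]
    have h8 := h7.add h6
    rw [add_zero] at h8
    refine h8.congr fun N => ?_
    rw [← add_div]; congr 1; ring
  · -- the sum is bounded
    have hmono : Monotone (fun N => ∑ n ∈ range N, prf n) := by
      intro a b hab
      exact sum_le_sum_of_subset_of_nonneg (range_mono hab) fun n _ _ => p0 n
    have hnot : ¬ Tendsto (fun N => ∑ n ∈ range N, prf n) atTop atTop := by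
      intro h
      apply hS
      refine tendsto_atTop_mono (f := fun N => (∑ n ∈ range N, prf n) - C) (fun N => ?_)
        (tendsto_atTop_add_const_right _ _ h)
      have := h2 N
      rw [abs_le] at this
      linarith [this.1]
    obtain ⟨K, hK⟩ : ∃ K, ∀ N, ∑ n ∈ range N, prf n ≤ K := by
      rcases tendsto_atTop_of_monotone hmono with h | ⟨K, hK⟩
      · exact absurd h hnot
      · exact ⟨K, fun N => hmono.ge_of_tendsto hK N⟩
    -- finitely many nonzero terms
    have hfin : {n | prf n ≠ 0}.Finite := by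
      by_contra hinf
      have hinf : {n | prf n ≠ 0}.Infinite := hinf
      obtain ⟨m, hm⟩ := exists_nat_gt (K / c)
      obtain ⟨t, ht, htm⟩ := hinf.exists_subset_card_eq m
      have h3 : (m : ℝ) * c ≤ ∑ n ∈ t, prf n := by
        rw [← htm, ← nsmul_eq_mul]
        exact card_nsmul_le_sum _ _ _ fun n hn => hlow n (ht hn)
      have h4 : ∑ n ∈ t, prf n ≤ ∑ n ∈ range (t.sup id + 1), prf n := by
        refine sum_le_sum_of_subset_of_nonneg (fun n hn => ?_) fun n _ _ => p0 n
        have : id n ≤ t.sup id := le_sup hn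
        simp only [id] at this
        exact mem_range.mpr (by omega)
      have h5 := hK (t.sup id + 1)
      rw [div_lt_iff₀ hc] at hm
      linarith
    obtain ⟨n0, hn0⟩ := hfin.bddAbove
    have hz : ∀ n ≥ n0 + 1, occ n - prf n = 0 := by
      intro n hn
      have : prf n = 0 := by
        by_contra h
        have : n ≤ n0 := hn0 h
        omega
      rw [hocc n this, this, sub_zero]
    have hconst : ∀ N ≥ n0 + 1, ∑ n ∈ range N, (occ n - prf n) =
        ∑ n ∈ range (n0 + 1), (occ n - prf n) := by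
      intro N hN
      refine (sum_subset (range_mono hN) fun n _ hn => hz n ?_).symm
      rw [mem_range] at hn; omega
    refine (tendsto_div_zero (∑ n ∈ range (n0 + 1), (occ n - prf n))).congr' ?_
    filter_upwards [eventually_ge_atTop (n0 + 1)] with N hN
    rw [hconst N hN]

/-- the quotients tend to one if the averages of the differences tend to zero -/
lemma ratio_of_diff {A S : ℕ → ℝ} {v : ℝ} (hv : 0 < v)
    (h1 : Tendsto (fun N : ℕ => (A N - S N) / N) atTop (𝓝 0))
    (h2 : Tendsto (fun N : ℕ => S N / N) atTop (𝓝 v)) :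
    Tendsto (fun N => A N / S N) atTop (𝓝 1) := by
  have h3 : Tendsto (fun N : ℕ => (A N - S N) / N / (S N / N) + 1) atTop (𝓝 1) := by
    have := (h1.div h2 hv.ne').add_const 1
    simpa using this
  refine h3.congr' ?_
  have h4 : ∀ᶠ N : ℕ in atTop, 0 < S N / N := h2.eventually (lt_mem_nhds hv)
  filter_upwards [h4, eventually_gt_atTop 0] with N hN hN0
  have hN' : (0 : ℝ) < N := by exact_mod_cast hN0
  have hS : 0 < S N := by
    by_contra h
    exact absurd (div_nonpos_of_nonpos_of_nonneg (not_lt.mp h) hN'.le) (not_le.mpr hN)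
  field_simp
  ring

lemma pr_ne_zero {Q : ℕ → ℕ} (hQ : ∀ n, 2 ≤ Q n) {l : ℕ} {D : Fin l → ℕ} {n : ℕ}
    (h : ∀ i : Fin l, D i < Q (n + i)) : 0 < pr Q D n := by
  unfold pr
  rw [if_pos h, inv_pos]
  refine prod_pos fun i _ => ?_
  have := hQ (n + i)
  exact_mod_cast (by omega : 0 < Q (n + i))

open Classical in
lemma hyp_of {Q d : ℕ → ℕ} (hQ : ∀ n, 2 ≤ Q n) {M : ℕ} (hM : ∀ n, Q n ≤ M) (hd : ∀ n, d n < Q n)
    (H : ∀ (l : ℕ) (D : Fin l → ℕ), 1 ≤ l → ∃ (cN SN : ℕ → ℝ) (C : ℝ),
      (∀ N, |cN N - ∑ n ∈ range N, (if win l n d = D then (1 : ℝ) else 0)| ≤ C) ∧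
      (∀ N, |SN N - ∑ n ∈ range N, pr Q D n| ≤ C) ∧
      (Tendsto SN atTop atTop → Tendsto (fun N => cN N / SN N) atTop (𝓝 1))) : Hyp Q d := by
  intro l D
  rcases Nat.eq_zero_or_pos l with rfl | hl
  · have : ∀ n, ((if win 0 n d = D then (1 : ℝ) else 0) - pr Q D n) = 0 := by
      intro n
      have h1 : win 0 n d = D := funext fun i => i.elim0
      rw [if_pos h1]; simp [pr]
    simp only [this, sum_const_zero, zero_div]
    exact tendsto_const_nhds
  · obtain ⟨cN, SN, C, h1, h2, h3⟩ := H l D hl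
    have hM0 : (0 : ℝ) < M := by
      have a1 := hQ 0
      have a2 := hM 0
      exact_mod_cast (by omega : 0 < M)
    refine diff_of_ratio (fun n => pr_nonneg Q D n) (fun n => pr_le_one hQ D n) h1 h2 h3 ?_
      (c := ((M : ℝ) ^ l)⁻¹) (by positivity) ?_
    · intro n hn
      rw [if_neg]
      intro h
      have : ∀ i : Fin l, D i < Q (n + i) := by
        intro i; rw [← h]; exact hd _
      exact absurd hn (pr_ne_zero hQ this).ne'
    · intro n hn
      have h4 : ∀ i : Fin l, D i < Q (n + i) := by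
        by_contra h
        apply hn; unfold pr; rw [if_neg h]
      unfold pr
      rw [if_pos h4]
      refine inv_anti₀ ?_ ?_
      · refine prod_pos fun i _ => ?_
        have := hQ (n + i)
        exact_mod_cast (by omega : 0 < Q (n + i))
      · calc ∏ i : Fin l, (Q (n + i) : ℝ) ≤ ∏ _i : Fin l, (M : ℝ) :=
            prod_le_prod (fun i _ => by positivity) fun i _ => by exact_mod_cast hM _
          _ = (M : ℝ) ^ l := by simp

open Classical in
/-- the uniform form of normality for `q y` -/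
lemma unif_ratio {y : ℕ → ZMod 2} (hy : IsCode y) (he : Equi y) {d : ℕ → ℕ}
    (H : Unif (q y) d) {l : ℕ} (B D : Fin l → ℕ) {A S : ℕ → ℝ} {C : ℝ}
    (hA : ∀ N, |A N - ∑ n ∈ range N, (if win l n (q y) = B then
      (if win l n d = D then (1 : ℝ) else 0) else 0)| ≤ C)
    (hS : ∀ N, |S N - ∑ n ∈ range N, (if win l n (q y) = B then pr (q y) D n else 0)| ≤ C)
    (hSt : Tendsto S atTop atTop) : Tendsto (fun N => A N / S N) atTop (𝓝 1) := by
  -- the word `B` occurs
  obtain ⟨n0, h0, h0'⟩ : ∃ n0, win l n0 (q y) = B ∧ 0 < pr (q y) D n0 := by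
    by_contra hcon
    push Not at hcon
    have hz : ∀ N, ∑ n ∈ range N, (if win l n (q y) = B then pr (q y) D n else 0) = 0 := by
      intro N
      refine sum_eq_zero fun n _ => ?_
      split_ifs with h
      · exact le_antisymm (hcon n h) (pr_nonneg _ _ _)
      · rfl
    obtain ⟨N, hN⟩ := (hSt.eventually_gt_atTop C).exists
    have := hS N
    rw [hz, sub_zero, abs_le] at this
    linarith [this.2]
  set p := pr (q y) D n0 with hp
  have hprB : ∀ n, win l n (q y) = B → pr (q y) D n = p := by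
    intro n hn
    rw [hp]
    unfold pr
    have : ∀ i : Fin l, q y (n + i) = q y (n0 + i) := by
      intro i
      have := congrFun (hn.trans h0.symm) i
      exact this
    simp only [this]
  obtain ⟨v, hv⟩ := exists_mean hy he l (fun w => if w = B then (1 : ℝ) else 0)
    (fun w => by split_ifs <;> simp)
  have hv0 : 0 < v := by
    refine freq_pos hy he (l := l) (n0 := n0) (hv.congr fun n => ?_)
    rw [h0]
  refine ratio_of_diff (v := p * v) (mul_pos h0' hv0) ?_ ?_
  · have h1 := H l B D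
    have h2 : Tendsto (fun N : ℕ => ((A N - S N) - (∑ n ∈ range N, (if win l n (q y) = B then
      ((if win l n d = D then (1 : ℝ) else 0) - pr (q y) D n) else 0))) / N) atTop (𝓝 0) := by
      refine tendsto_zero_of_bdd (C := 2 * C) fun N => ?_
      have e : (∑ n ∈ range N, (if win l n (q y) = B then
        ((if win l n d = D then (1 : ℝ) else 0) - pr (q y) D n) else 0)) =
        (∑ n ∈ range N, (if win l n (q y) = B then
          (if win l n d = D then (1 : ℝ) else 0) else 0)) -
        ∑ n ∈ range N, (if win l n (q y) = B then pr (q y) D n else 0) := by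
        rw [← sum_sub_distrib]
        refine sum_congr rfl fun n _ => ?_
        split_ifs <;> simp
      rw [e]
      have a1 := hA N
      have a2 := hS N
      rw [abs_le] at a1 a2 ⊢
      constructor <;> linarith [a1.1, a1.2, a2.1, a2.2]
    have h3 := h2.add h1
    rw [add_zero] at h3
    refine h3.congr fun N => ?_
    rw [← add_div]; congr 1; ring
  · have h1 : MeanLim (fun n => if win l n (q y) = B then pr (q y) D n else 0) (p * v) := by
      refine (hv.const_mul p).congr fun n => ?_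
      split_ifs with h
      · rw [hprB n h, mul_one]
      · rw [mul_zero]
    have h2 : Tendsto (fun N : ℕ => (S N -
      ∑ n ∈ range N, (if win l n (q y) = B then pr (q y) D n else 0)) / N) atTop (𝓝 0) :=
      tendsto_zero_of_bdd hS
    have h3 := h2.add h1
    rw [zero_add] at h3
    refine h3.congr fun N => ?_
    rw [← add_div]; congr 1; ring

/-- the sequence of digits, as a sequence starting at `0` -/
def dz (d : ℕ → ℕ) (n : ℕ) : ℕ := if n = 0 then 0 else d n

lemma dz_lt {Q d : ℕ → ℕ} (hQ : ∀ n, 2 ≤ Q n) (hd : ∀ n ≥ 1, d n < Q n) (n : ℕ) : dz d n < Q n := by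
  unfold dz
  split_ifs with h
  · have := hQ n; omega
  · exact hd n (by omega)

lemma win_dz {l n : ℕ} (hn : 1 ≤ n) (d : ℕ → ℕ) : win l n (dz d) = win l n d := by
  funext i
  unfold win dz
  rw [if_neg (by omega)]

/-- the partial products -/
def PP (Q : ℕ → ℕ) (n : ℕ) : ℝ := ∏ i ∈ Icc 1 n, (Q i : ℝ)

lemma PP_succ (Q : ℕ → ℕ) (n : ℕ) : PP Q (n + 1) = PP Q n * Q (n + 1) := by
  unfold PP
  rw [prod_Icc_succ_top (by omega)]

section

variable {Q d : ℕ → ℕ} (hQ : ∀ n, 2 ≤ Q n) (hd : ∀ n ≥ 1, d n < Q n) {x : ℝ}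
  (hx : HasSum (fun n : ℕ => (d (n + 1) : ℝ) / PP Q (n + 1)) x)

/-- the remainders -/
noncomputable def rem (Q d : ℕ → ℕ) (x : ℝ) (n : ℕ) : ℝ :=
  PP Q n * (x - ∑ i ∈ range n, (d (i + 1) : ℝ) / PP Q (i + 1))

include hQ

lemma PP_pos (n : ℕ) : 0 < PP Q n := by
  unfold PP
  refine prod_pos fun i _ => ?_
  have := hQ i
  exact_mod_cast (by omega : 0 < Q i)

lemma rem_succ (n : ℕ) : rem Q d x (n + 1) = Q (n + 1) * rem Q d x n - d (n + 1) := by
  unfold rem
  have h0 := PP_pos hQ (n + 1)
  have h1 := PP_pos hQ n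
  rw [sum_range_succ, ← sub_sub, mul_sub _ _ ((d (n + 1) : ℝ) / _), mul_div_cancel₀ _ h0.ne',
    PP_succ]
  ring

lemma exists_int (n : ℕ) : ∃ z : ℤ, PP Q n * ∑ i ∈ range n, (d (i + 1) : ℝ) / PP Q (i + 1) = z := by
  induction n with
  | zero => exact ⟨0, by simp⟩
  | succ n ih =>
    obtain ⟨z, hz⟩ := ih
    refine ⟨Q (n + 1) * z + d (n + 1), ?_⟩
    have h0 := PP_pos hQ (n + 1)
    rw [sum_range_succ, mul_add, mul_div_cancel₀ _ h0.ne', PP_succ]
    push_cast
    rw [← hz]; ring

include hx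

lemma rem_nonneg (n : ℕ) : 0 ≤ rem Q d x n := by
  unfold rem
  refine mul_nonneg (PP_pos hQ n).le (sub_nonneg.mpr ?_)
  exact sum_le_hasSum _ (fun i _ => div_nonneg (Nat.cast_nonneg _) (PP_pos hQ _).le) hx

include hd

lemma rem_le_one (n : ℕ) : rem Q d x n ≤ 1 := by
  have h1 : ∀ k, ∑ i ∈ range (n + k), (d (i + 1) : ℝ) / PP Q (i + 1) ≤
      ∑ i ∈ range n, (d (i + 1) : ℝ) / PP Q (i + 1) + 1 / PP Q n - 1 / PP Q (n + k) := by
    intro k
    induction k with
    | zero => simp
    | succ k ih =>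
      rw [← add_assoc, sum_range_succ]
      have h0 := PP_pos hQ (n + k)
      have h2 : (d (n + k + 1) : ℝ) / PP Q (n + k + 1) ≤ 1 / PP Q (n + k) - 1 / PP Q (n + k + 1) := by
        have h3 := PP_pos hQ (n + k + 1)
        have h4 : (d (n + k + 1) : ℝ) + 1 ≤ Q (n + k + 1) := by
          exact_mod_cast hd (n + k + 1) (by omega)
        have h5 : 1 / PP Q (n + k) = Q (n + k + 1) / PP Q (n + k + 1) := by
          rw [PP_succ, mul_comm, ← div_div, div_self, one_div]
          · have := hQ (n + k + 1)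
            exact_mod_cast (by omega : Q (n + k + 1) ≠ 0)
        rw [h5, ← sub_div]
        exact div_le_div_of_nonneg_right (by linarith) h3.le
      linarith
  have h2 : x ≤ ∑ i ∈ range n, (d (i + 1) : ℝ) / PP Q (i + 1) + 1 / PP Q n := by
    have h3 := hx.tendsto_sum_nat
    refine le_of_tendsto h3 ?_
    filter_upwards [eventually_ge_atTop n] with m hm
    obtain ⟨k, rfl⟩ := Nat.exists_eq_add_of_le hm
    have h4 : 0 < 1 / PP Q (n + k) := one_div_pos.mpr (PP_pos hQ _)
    linarith [h1 k]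
  unfold rem
  have h0 := PP_pos hQ n
  have h3 : x - ∑ i ∈ range n, (d (i + 1) : ℝ) / PP Q (i + 1) ≤ 1 / PP Q n := by linarith
  calc PP Q n * (x - ∑ i ∈ range n, (d (i + 1) : ℝ) / PP Q (i + 1)) ≤ PP Q n * (1 / PP Q n) :=
      mul_le_mul_of_nonneg_left h3 h0.le
    _ = 1 := mul_one_div_cancel h0.ne'

lemma rem_lt_one (hinf : ∃ᶠ n in atTop, d n + 1 ≠ Q n) (n : ℕ) : rem Q d x n < 1 := by
  -- if the remainder is one then all digits are maximal
  by_contra hcon
  have h1 : rem Q d x n = 1 := le_antisymm (rem_le_one hQ hd hx n) (not_lt.mp hcon)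
  have h2 : ∀ k, rem Q d x (n + k) = 1 ∧ d (n + k + 1) + 1 = Q (n + k + 1) := by
    have step : ∀ m, rem Q d x m = 1 → d (m + 1) + 1 = Q (m + 1) ∧ rem Q d x (m + 1) = 1 := by
      intro m hm
      have h3 := rem_succ hQ (d := d) (x := x) m
      rw [hm, mul_one] at h3
      have h4 := rem_le_one hQ hd hx (m + 1)
      have h5 : (d (m + 1) : ℝ) + 1 ≤ Q (m + 1) := by exact_mod_cast hd (m + 1) (by omega)
      have h6 : (d (m + 1) : ℝ) + 1 = Q (m + 1) := by linarith
      exact ⟨by exact_mod_cast h6, by linarith⟩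
    intro k
    induction k with
    | zero => exact ⟨h1, (step n h1).1⟩
    | succ k ih =>
      have := (step (n + k) ih.1).2
      exact ⟨this, (step _ this).1⟩
  obtain ⟨m, hm, hm'⟩ := (hinf.and_eventually (eventually_ge_atTop (n + 1))).exists
  obtain ⟨k, rfl⟩ := Nat.exists_eq_add_of_le hm'
  apply hm
  rw [show n + 1 + k = n + k + 1 by ring]
  exact (h2 k).2

lemma fract_eq (hinf : ∃ᶠ n in atTop, d n + 1 ≠ Q n) (n : ℕ) :
    Int.fract (PP Q n * x) = rem Q d x n := by
  obtain ⟨z, hz⟩ := exists_int hQ (d := d) n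
  rw [Int.fract_eq_iff]
  refine ⟨rem_nonneg hQ hx n, rem_lt_one hQ hd hx hinf n, z, ?_⟩
  unfold rem
  rw [← hz]; ring

open Classical in
/-- distribution normality -/
theorem dist_normal {M : ℕ} (hM : ∀ n, Q n ≤ M) (hinf : ∃ᶠ n in atTop, d n + 1 ≠ Q n)
    (H : Unif Q (dz d)) {a b : ℝ} (ha0 : 0 ≤ a) (hab : a ≤ b) (hb1 : b ≤ 1) :
    Tendsto (fun N : ℕ => (((Icc 1 N).filter fun n => a ≤ Int.fract (PP Q n * x) ∧
      Int.fract (PP Q n * x) < b).card : ℝ) / N) atTop (𝓝 (b - a)) := by
  have key : ∀ c : ℝ, 0 ≤ c → c ≤ 1 →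
      MeanLim (fun n => if Int.fract (PP Q (n + 1) * x) < c then (1 : ℝ) else 0) c := by
    intro c hc0 hc1
    have h1 := tendsto_remainder (u := fun n => rem Q d x (n - 1)) (n0 := 1) hQ hM
      (dz_lt hQ hd) H (fun n => rem_nonneg hQ hx _) (fun n => rem_le_one hQ hd hx _) (fun n hn => by
        obtain ⟨m, rfl⟩ : ∃ m, n = m + 1 := ⟨n - 1, by omega⟩
        have h2 := rem_succ hQ (d := d) (x := x) m
        have h3 : dz d (m + 1) = d (m + 1) := by unfold dz; rw [if_neg (by omega)]
        simp only [add_tsub_cancel_right]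
        rw [h3, h2]
        have : (Q (m + 1) : ℝ) ≠ 0 := by
          have := hQ (m + 1)
          exact_mod_cast (by omega : Q (m + 1) ≠ 0)
        field_simp
        ring) hc0 hc1
    have h2 := h1.shift.shift
    refine h2.congr fun n => ?_
    simp only [add_tsub_cancel_right]
    rw [fract_eq hQ hd hx hinf]
  have h1 := (key b (ha0.trans hab) hb1).add ((key a ha0 (hab.trans hb1)).const_mul (-1))
  have h2 : b + -1 * a = b - a := by ring
  rw [h2] at h1
  unfold MeanLim at h1
  refine h1.congr fun N => ?_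
  congr 1
  rw [card_filter]
  push_cast
  rw [show Icc 1 N = Ico 1 (N + 1) by ext; simp, sum_Ico_eq_sum_range]
  simp only [add_tsub_cancel_right]
  refine sum_congr rfl fun n _ => ?_
  rw [add_comm 1 n]
  by_cases h3 : Int.fract (PP Q (n + 1) * x) < a
  · have h4 : Int.fract (PP Q (n + 1) * x) < b := lt_of_lt_of_le h3 hab
    rw [if_pos h4, if_pos h3, if_neg (fun h => absurd h.1 (not_le.mpr h3))]
    norm_num
  · by_cases h4 : Int.fract (PP Q (n + 1) * x) < b
    · rw [if_pos h4, if_neg h3, if_pos ⟨not_lt.mp h3, h4⟩]; norm_num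
    · rw [if_neg h4, if_neg h3, if_neg (fun h => h4 h.2)]; norm_num

end

end Pool.Agent.N252.CS
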