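import Mathlib
import Pool.Agent.N252.CS.Norm
import Pool.Agent.N252.CS.Dyn
import Pool.Agent.N252.CS.Entropy

/-!
The dynamical system generating `q y`.
-/

open Finset Filter Topology MeasureTheory
open Pool.Agent.Helper179.KS

namespace Pool.Agent.N252.CS

lemma le_Orb {x0 : ℕ → ℕ} {c : ℕ} (hc : ∀ n, c ≤ x0 n) {z : ℕ → ℕ} (hz : z ∈ Orb x0) (i : ℕ) :
    c ≤ z i := by
  have h : Orb x0 ⊆ {z | c ≤ z i} := by
    refine closure_minimal ?_ ?_
    · rintro _ ⟨n, rfl⟩; exact hc _
    · exact isClosed_le continuous_const (continuous_apply i)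
  exact h hz

lemma topology_eq (x0 : ℕ → ℕ) : (inferInstance : TopologicalSpace (Orb x0)) =
    TopologicalSpace.generateFrom {U | ∃ (k : ℕ) (A : Set ℕ),
      U = (T x0)^[k] ⁻¹' ((fun z : Orb x0 => z.1 0) ⁻¹' A)} := by
  apply le_antisymm
  · refine le_generateFrom ?_
    rintro _ ⟨k, A, rfl⟩
    have h1 : Continuous (fun z : Orb x0 => z.1 0) :=
      (continuous_apply 0).comp continuous_subtype_val
    exact ((isOpen_discrete A).preimage h1).preimage ((continuous_T x0).iterate k)
  · have h : @Continuous _ _ (TopologicalSpace.generateFrom {U | ∃ (k : ℕ) (A : Set ℕ),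
      U = (T x0)^[k] ⁻¹' ((fun z : Orb x0 => z.1 0) ⁻¹' A)}) _ (Subtype.val : Orb x0 → (ℕ → ℕ)) := by
      letI : TopologicalSpace (Orb x0) := TopologicalSpace.generateFrom {U | ∃ (k : ℕ) (A : Set ℕ),
        U = (T x0)^[k] ⁻¹' ((fun z : Orb x0 => z.1 0) ⁻¹' A)}
      refine continuous_pi fun i => ?_
      rw [continuous_def]
      intro A _
      refine TopologicalSpace.isOpen_generateFrom_of_mem ⟨i, A, ?_⟩
      ext z
      simp only [Set.mem_preimage]
      rw [T_iterate_apply]
      simp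
    exact continuous_iff_le_induced.mp h

theorem exists_system {y : ℕ → ZMod 2} (hy : IsCode y) (he : Equi y) :
    ∃ (X : Type) (_ : MetricSpace X) (_ : CompleteSpace X) (_ : TopologicalSpace.SeparableSpace X)
      (_ : MeasurableSpace X) (_ : BorelSpace X) (μ : Measure X) (T : X → X) (f : X → ℕ) (x : X),
      IsProbabilityMeasure μ ∧ (∀ U : Set X, IsOpen U → U.Nonempty → 0 < μ U) ∧
      Continuous T ∧ MeasurePreserving T μ μ ∧ Continuous f ∧ (∀ z, 2 ≤ f z) ∧
      (inferInstance : TopologicalSpace X) = TopologicalSpace.generateFrom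
        {U | ∃ (k : ℕ) (A : Set ℕ), U = T^[k] ⁻¹' (f ⁻¹' A)} ∧
      (∀ F : X → ℝ, Continuous F → Integrable F μ →
        Tendsto (fun N : ℕ => (∑ n ∈ Icc 1 N, F (T^[n] x)) / N) atTop (𝓝 (∫ z, F z ∂μ))) ∧
      (∀ n ≥ 1, q y n = f (T^[n] x)) ∧ 0 < ksEntropy μ T := by
  classical
  have hfreq : ∀ (l : ℕ) (B : Fin l → ℕ), ∃ v,
      MeanLim (fun n => if win l n (q y) = B then (1 : ℝ) else 0) v := fun l B =>
    exists_mean hy he l (fun w => if w = B then (1 : ℝ) else 0) (fun w => by split_ifs <;> simp)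
  obtain ⟨μ, h1, h2, h3⟩ := exists_measure (q_le y) hfreq
  have hpr : IsProbabilityMeasure (μ : Measure (Orb (q y))) := μ.2
  have hpol : PolishSpace (Orb (q y)) := (isClosed_closure : IsClosed (Orb (q y))).polishSpace
  letI := TopologicalSpace.upgradeIsCompletelyMetrizable (Orb (q y))
  refine ⟨Orb (q y), inferInstance, inferInstance, inferInstance, inferInstance, inferInstance,
    (μ : Measure (Orb (q y))), T (q y), fun z => z.1 0, pt (q y) 0, hpr, ?_, continuous_T _, h3,
    (continuous_apply 0).comp continuous_subtype_val, fun z => le_Orb (two_le_q y) z.2 0,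
    topology_eq _, ?_, ?_, entropy_pos hy he _ h2⟩
  · intro U hU hne
    obtain ⟨l, n, hl⟩ := exists_cyl hU hne
    obtain ⟨v, hv⟩ := hfreq l (win l n (q y))
    have hv0 := freq_pos hy he hv
    have h4 := h2 l _ v hv
    refine lt_of_lt_of_le ?_ (measure_mono hl)
    rw [← h4, measureReal_def] at hv0
    exact (ENNReal.toReal_pos_iff.mp hv0).1
  · intro F hF _
    have h4 := (h1 F hF).shift
    unfold MeanLim at h4
    refine h4.congr fun N => ?_
    rw [show Icc 1 N = Ico 1 (N + 1) by ext; simp, sum_Ico_eq_sum_range]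
    simp only [add_tsub_cancel_right, T_iterate]
    congr 1
    refine sum_congr rfl fun n _ => ?_
    rw [add_comm]
  · intro n _
    rw [T_iterate]
    simp [pt]

end Pool.Agent.N252.CS
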