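import Mathlib
import Pool.Agent.N252.CS.System

/-!
Comparison of the counting functions.
-/

open Finset Filter Topology MeasureTheory

namespace Pool.Agent.N252.CS

lemma sum_Icc_close {g : ℕ → ℝ} (hg : ∀ n, |g n| ≤ 1) (N : ℕ) :
    |∑ j ∈ Icc 1 N, g j - ∑ n ∈ range N, g n| ≤ 2 := by
  have h := shift_le hg 1 N
  rw [abs_sub_comm] at h
  rw [show Icc 1 N = Ico 1 (N + 1) by ext; simp, sum_Ico_eq_sum_range]
  simp only [add_tsub_cancel_right, Nat.cast_one, mul_one] at h ⊢
  have e : ∑ k ∈ range N, g (1 + k) = ∑ n ∈ range N, g (n + 1) :=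
    sum_congr rfl fun n _ => by rw [add_comm]
  rw [e]
  exact h

open Classical in
lemma card_close (d : ℕ → ℕ) {l : ℕ} (D : Fin l → ℕ) (N : ℕ) :
    |(((range (N + 1)).filter fun i => ∀ j : Fin l, d (i + (j + 1)) = D j).card : ℝ) -
      ∑ n ∈ range N, (if win l n (dz d) = D then (1 : ℝ) else 0)| ≤ 3 := by
  rw [card_filter]
  push_cast
  have e : ∀ i ∈ range (N + 1), (if ∀ j : Fin l, d (i + (j + 1)) = D j then (1 : ℝ) else 0) =
      (fun n => if win l n (dz d) = D then (1 : ℝ) else 0) (i + 1) := by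
    intro i _
    simp only
    rw [win_dz (by omega)]
    refine if_congr ?_ rfl rfl
    constructor
    · intro h; funext j
      rw [← h j]; unfold win; congr 1; ring
    · intro h j
      rw [← h]; unfold win; congr 1; ring
  rw [sum_congr rfl e, sum_range_succ]
  have h := shift_le (f := fun n => if win l n (dz d) = D then (1 : ℝ) else 0)
    (fun n => by split_ifs <;> simp) 1 N
  have h2 : (if win l (N + 1) (dz d) = D then (1 : ℝ) else 0) ≤ 1 := by split_ifs <;> norm_num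
  have h3 : (0 : ℝ) ≤ (if win l (N + 1) (dz d) = D then (1 : ℝ) else 0) := by
    split_ifs <;> norm_num
  simp only [Nat.cast_one, mul_one] at h
  rw [abs_le] at h ⊢
  constructor <;> linarith [h.1, h.2]

open Classical in
lemma card_close' (d : ℕ → ℕ) {l : ℕ} (D : Fin l → ℕ) (N : ℕ) :
    |(((Icc 1 N).filter fun j => ∀ i : Fin l, d (j + i) = D i).card : ℝ) -
      ∑ n ∈ range N, (if win l n (dz d) = D then (1 : ℝ) else 0)| ≤ 3 := by
  rw [card_filter]
  push_cast
  have e : ∀ j ∈ Icc 1 N, (if ∀ i : Fin l, d (j + i) = D i then (1 : ℝ) else 0) =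
      if win l j (dz d) = D then (1 : ℝ) else 0 := by
    intro j hj
    rw [mem_Icc] at hj
    rw [win_dz hj.1]
    refine if_congr ?_ rfl rfl
    exact ⟨fun h => funext h, fun h i => congrFun h i⟩
  rw [sum_congr rfl e]
  have h := sum_Icc_close (g := fun n => if win l n (dz d) = D then (1 : ℝ) else 0)
    (fun n => by split_ifs <;> simp) N
  exact h.trans (by norm_num)

open Classical in
lemma pr_eq (Q : ℕ → ℕ) {l : ℕ} (D : Fin l → ℕ) (j : ℕ) :
    (if ∀ i : Fin l, D i < Q (j + i) then (1 : ℝ) else 0) / ∏ i : Fin l, (Q (j + i) : ℝ) =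
      pr Q D j := by
  unfold pr
  split_ifs
  · rw [one_div]
  · rw [zero_div]

open Classical in
lemma Qn_close {Q : ℕ → ℕ} (hQ : ∀ n, 2 ≤ Q n) {l : ℕ} (D : Fin l → ℕ) (N : ℕ) :
    |∑ j ∈ Icc 1 N, (if ∀ i : Fin l, D i < Q (j + i) then (1 : ℝ) else 0) /
      ∏ i : Fin l, (Q (j + i) : ℝ) - ∑ n ∈ range N, pr Q D n| ≤ 3 := by
  simp only [pr_eq]
  refine (sum_Icc_close (fun n => ?_) N).trans (by norm_num)
  rw [abs_of_nonneg (pr_nonneg Q D n)]
  exact pr_le_one hQ D n

open Classical in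
lemma QnB_close {Q : ℕ → ℕ} (hQ : ∀ n, 2 ≤ Q n) {l : ℕ} (B D : Fin l → ℕ) (N : ℕ) :
    |∑ j ∈ (Icc 1 N).filter fun j => ∀ i : Fin l, Q (j + i) = B i,
      (if ∀ i : Fin l, D i < Q (j + i) then (1 : ℝ) else 0) / ∏ i : Fin l, (B i : ℝ) -
      ∑ n ∈ range N, (if win l n Q = B then pr Q D n else 0)| ≤ 3 := by
  rw [sum_filter]
  have e : ∀ j ∈ Icc 1 N, (if ∀ i : Fin l, Q (j + i) = B i then
      (if ∀ i : Fin l, D i < Q (j + i) then (1 : ℝ) else 0) / ∏ i : Fin l, (B i : ℝ) else 0) =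
      if win l j Q = B then pr Q D j else 0 := by
    intro j _
    have h1 : (∀ i : Fin l, Q (j + i) = B i) ↔ win l j Q = B :=
      ⟨fun h => funext h, fun h i => congrFun h i⟩
    by_cases h : ∀ i : Fin l, Q (j + i) = B i
    · rw [if_pos h, if_pos (h1.mp h), ← pr_eq]
      simp only [h]
    · rw [if_neg h, if_neg (fun h' => h (h1.mpr h'))]
  rw [sum_congr rfl e]
  refine (sum_Icc_close (g := fun n => if win l n Q = B then pr Q D n else 0) (fun n => ?_) N).trans
    (by norm_num)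
  split_ifs
  · rw [abs_of_nonneg (pr_nonneg Q D n)]
    exact pr_le_one hQ D n
  · simp

open Classical in
lemma cardB_close (Q d : ℕ → ℕ) {l : ℕ} (B D : Fin l → ℕ) (N : ℕ) :
    |(((Icc 1 N).filter fun j => (∀ i : Fin l, Q (j + i) = B i) ∧
      ∀ i : Fin l, d (j + i) = D i).card : ℝ) -
      ∑ n ∈ range N, (if win l n Q = B then (if win l n (dz d) = D then (1 : ℝ) else 0) else 0)|
      ≤ 3 := by
  rw [card_filter]
  push_cast
  have e : ∀ j ∈ Icc 1 N, (if (∀ i : Fin l, Q (j + i) = B i) ∧ ∀ i : Fin l, d (j + i) = D i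
      then (1 : ℝ) else 0) =
      if win l j Q = B then (if win l j (dz d) = D then (1 : ℝ) else 0) else 0 := by
    intro j hj
    rw [mem_Icc] at hj
    rw [win_dz hj.1, ← ite_and]
    refine if_congr ?_ rfl rfl
    exact ⟨fun h => ⟨funext h.1, funext h.2⟩, fun h => ⟨fun i => congrFun h.1 i,
      fun i => congrFun h.2 i⟩⟩
  rw [sum_congr rfl e]
  refine (sum_Icc_close (g := fun n => if win l n Q = B then
    (if win l n (dz d) = D then (1 : ℝ) else 0) else 0) (fun n => ?_) N).trans (by norm_num)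
  split_ifs <;> simp

lemma unif_of_hyp {y : ℕ → ZMod 2} (hy : IsCode y) {d : ℕ → ℕ} (hd : ∀ n ≥ 1, d n < q y n)
    (H : Hyp (q y) (dz d)) : Unif (q y) (dz d) := fun _ B D =>
  uniform_of_normal (two_le_q y) (q_le y) (dz_lt (two_le_q y) hd) H (dec_q hy) B D

end Pool.Agent.N252.CS
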